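import Pool.Agent.X110.LU1

set_option autoImplicit false
set_option linter.unusedSectionVars false

/-! A local limit theorem for weights. -/

namespace Pool.Agent.X111.LB

open Finset MeasureTheory Filter Topology ProbabilityTheory
open Pool.Agent.X110.LT (Phi Phi_mod φ0 φ0_zero g0 g0_pos g0_cont g0_int g0_bdd g0_mass g0_mass_pos mod_cont mod_supp tilt tilt_prob tilt_integral
  Pinf Pinf_char Ei cl cl_cont cl_nonneg cl_le_one cl_one cl_zero)
open scoped BoundedContinuousFunction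

noncomputable section

/-- the hypotheses -/
structure Loc (ν : ℝ → Measure ℝ) (W X : ℝ → ℝ → ℝ) (a : ℝ → ℝ) (κ : ℝ) : Prop where
  κ_pos : 0 < κ
  a_pos : ∀ᶠ T : ℝ in atTop, 0 < a T
  W_nn : ∀ T t, 0 ≤ W T t
  W_meas : ∀ T, Measurable (W T)
  X_meas : ∀ T, Measurable (X T)
  W_int : ∀ᶠ T : ℝ in atTop, Integrable (W T) (ν T)
  lim : ∀ φ : ℝ → ℂ, Continuous φ → HasCompactSupport φ →
    Tendsto (fun T : ℝ => ((a T : ℝ) : ℂ) * ∫ t, ((W T t : ℝ) : ℂ) * Phi φ (X T t) ∂(ν T)) atTop (𝓝 (φ 0 * ((2 * Real.pi * κ : ℝ) : ℂ)))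

variable {ν : ℝ → Measure ℝ} {W X : ℝ → ℝ → ℝ} {a : ℝ → ℝ} {κ : ℝ}

/-- the weight -/
def Wg (W X : ℝ → ℝ → ℝ) (T t : ℝ) : ℝ := W T t * g0 (X T t)

lemma Loc.Wg_nn (h : Loc ν W X a κ) (T t : ℝ) : 0 ≤ Wg W X T t := mul_nonneg (h.W_nn T t) (g0_pos _).le

lemma Loc.Wg_meas (h : Loc ν W X a κ) (T : ℝ) : Measurable (Wg W X T) := (h.W_meas T).mul (g0_cont.measurable.comp (h.X_meas T))

lemma Loc.Wg_int (h : Loc ν W X a κ) : ∀ᶠ T : ℝ in atTop, Integrable (Wg W X T) (ν T) := by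
  obtain ⟨C, hC, hb⟩ := g0_bdd
  filter_upwards [h.W_int] with T hT
  refine hT.mul_bdd (c := C) (g0_cont.measurable.comp (h.X_meas T)).aestronglyMeasurable (Eventually.of_forall fun t => ?_)
  rw [Real.norm_of_nonneg (g0_pos _).le]
  exact hb _

lemma Loc.lim_mod (h : Loc ν W X a κ) (y : ℝ) : Tendsto (fun T : ℝ => ((a T : ℝ) : ℂ) * ∫ t, (Wg W X T t) • Complex.exp (y * (X T t : ℝ) * Complex.I) ∂(ν T)) atTop
    (𝓝 (φ0 (-y) * ((2 * Real.pi * κ : ℝ) : ℂ))) := by
  have h1 := h.lim _ (mod_cont y) (mod_supp y)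
  simp only [zero_sub] at h1
  refine h1.congr fun T => ?_
  congr 1
  refine integral_congr_ae (Eventually.of_forall fun t => ?_)
  simp only
  rw [Phi_mod, Complex.real_smul]
  unfold Wg
  push_cast
  ring

lemma Loc.lim_one (h : Loc ν W X a κ) : Tendsto (fun T : ℝ => a T * ∫ t, Wg W X T t ∂(ν T)) atTop (𝓝 (4 * Real.pi * κ)) := by
  have h1 := h.lim_mod 0
  rw [neg_zero, φ0_zero] at h1
  have h2 := (Complex.continuous_re.tendsto _).comp h1
  have e2 : (2 * ((2 * Real.pi * κ : ℝ) : ℂ)).re = 4 * Real.pi * κ := by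
    have : (2 * ((2 * Real.pi * κ : ℝ) : ℂ)) = ((4 * Real.pi * κ : ℝ) : ℂ) := by
      push_cast; ring
    rw [this, Complex.ofReal_re]
  rw [e2] at h2
  refine h2.congr fun T => ?_
  simp only [Function.comp]
  have e3 : ∫ t, (Wg W X T t) • Complex.exp (((0:ℝ):ℂ) * (X T t : ℝ) * Complex.I) ∂(ν T) = ((∫ t, Wg W X T t ∂(ν T) : ℝ) : ℂ) := by
    rw [← integral_complex_ofReal]
    refine integral_congr_ae (Eventually.of_forall fun t => ?_)
    simp
  rw [e3, ← Complex.ofReal_mul, Complex.ofReal_re]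

/-- the tilted distribution, or a point mass -/
def PT (ν : ℝ → Measure ℝ) (W X : ℝ → ℝ → ℝ) (T : ℝ) : Measure ℝ := by
  classical
  exact if Integrable (Wg W X T) (ν T) ∧ 0 < ∫ t, Wg W X T t ∂(ν T) ∧ (∀ t, 0 ≤ Wg W X T t) ∧ Measurable (X T) then
    tilt (ν T) (Wg W X T) (X T) else Measure.dirac 0

instance (ν : ℝ → Measure ℝ) (W X : ℝ → ℝ → ℝ) (T : ℝ) : IsProbabilityMeasure (PT ν W X T) := by
  unfold PT
  split_ifs with h
  · exact tilt_prob h.2.2.1 h.1 h.2.1 h.2.2.2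
  · infer_instance

lemma Loc.ev (h : Loc ν W X a κ) : ∀ᶠ T : ℝ in atTop, 0 < a T ∧ 0 < ∫ t, Wg W X T t ∂(ν T) ∧ PT ν W X T = tilt (ν T) (Wg W X T) (X T) := by
  have hκ := h.κ_pos
  have h1 := h.lim_one.eventually (lt_mem_nhds (by positivity : 0 < 4 * Real.pi * κ))
  filter_upwards [h1, h.a_pos, h.Wg_int] with T g1 g2 g3
  have g4 : 0 < ∫ t, Wg W X T t ∂(ν T) := by
    by_contra hcon
    push Not at hcon
    have := mul_nonpos_of_nonneg_of_nonpos g2.le hcon
    linarith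
  refine ⟨g2, g4, ?_⟩
  unfold PT
  rw [if_pos ⟨g3, g4, h.Wg_nn T, h.X_meas T⟩]

lemma Loc.char (h : Loc ν W X a κ) (y : ℝ) : Tendsto (fun T => charFun (PT ν W X T) y) atTop (𝓝 (charFun Pinf y)) := by
  have hκ := h.κ_pos
  have h1 := h.lim_mod y
  have h2 := (Complex.continuous_ofReal.tendsto _).comp h.lim_one
  have hne : ((4 * Real.pi * κ : ℝ) : ℂ) ≠ 0 := by
    exact_mod_cast (by positivity : 4 * Real.pi * κ ≠ 0)
  have h3 := h1.div h2 hne
  have e : φ0 (-y) * ((2 * Real.pi * κ : ℝ) : ℂ) / ((4 * Real.pi * κ : ℝ) : ℂ) = charFun Pinf y := by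
    rw [Pinf_char]
    push_cast at hne ⊢
    have h4 : (κ : ℂ) ≠ 0 := by exact_mod_cast hκ.ne'
    have h5 : (Real.pi : ℂ) ≠ 0 := by exact_mod_cast Real.pi_ne_zero
    field_simp
    ring
  rw [e] at h3
  refine h3.congr' ?_
  filter_upwards [h.ev] with T ⟨g1, g2, g3⟩
  rw [g3, charFun_apply_real, tilt_integral (h.Wg_meas T) (h.Wg_nn T) g2 (h.X_meas T) (Continuous.aestronglyMeasurable (by fun_prop))]
  simp only [Pi.div_apply, Function.comp]
  rw [Complex.real_smul, Complex.ofReal_inv, Complex.ofReal_mul]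
  have ha : ((a T : ℝ) : ℂ) ≠ 0 := by exact_mod_cast g1.ne'
  have hm : ((∫ t, Wg W X T t ∂(ν T) : ℝ) : ℂ) ≠ 0 := by exact_mod_cast g2.ne'
  generalize ((a T : ℝ) : ℂ) = s at ha ⊢
  generalize ((∫ t, Wg W X T t ∂(ν T) : ℝ) : ℂ) = m at hm ⊢
  generalize (∫ t, Wg W X T t • Complex.exp (y * (X T t : ℝ) * Complex.I) ∂(ν T)) = II
  field_simp

/-- **The limit for continuous functions.** -/
theorem Loc.cont (h : Loc ν W X a κ) {F : ℝ → ℝ} (hF : Continuous F) {C : ℝ} (hFC : ∀ x, |F x| ≤ C * g0 x) :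
    Tendsto (fun T : ℝ => a T * ∫ t, W T t * F (X T t) ∂(ν T)) atTop (𝓝 (κ * ∫ x, F x)) := by
  refine tendsto_of_seq_tendsto fun u hu => ?_
  obtain ⟨f, hf⟩ : ∃ f : ℝ →ᵇ ℝ, ∀ x, f x = F x / g0 x := ⟨BoundedContinuousFunction.ofNormedAddCommGroup (fun x => F x / g0 x)
    (hF.div g0_cont fun x => (g0_pos x).ne') C (fun x => by
      rw [norm_div, Real.norm_eq_abs, Real.norm_of_nonneg (g0_pos x).le, div_le_iff₀ (g0_pos x)]
      exact hFC x), fun x => rfl⟩
  let μ : ℕ → ProbabilityMeasure ℝ := fun n => ⟨PT ν W X (u n), inferInstance⟩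
  let μ0 : ProbabilityMeasure ℝ := ⟨Pinf, inferInstance⟩
  have hw : Tendsto μ atTop (𝓝 μ0) := by
    refine ProbabilityMeasure.tendsto_of_tendsto_charFun fun y => ?_
    exact (h.char y).comp hu
  have h1 := (ProbabilityMeasure.tendsto_iff_forall_integral_tendsto.mp hw) f
  have h2 : Tendsto (fun n => ∫ x, f x ∂(PT ν W X (u n))) atTop (𝓝 (∫ x, f x ∂Pinf)) := h1
  have h3 := (h.lim_one.comp hu).mul h2
  have e0 : ∫ x, f x ∂Pinf = (4 * Real.pi)⁻¹ * ∫ x, F x := by
    unfold Pinf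
    rw [tilt_integral g0_cont.measurable (fun x => (g0_pos x).le) g0_mass_pos measurable_id
      f.continuous.aestronglyMeasurable, g0_mass, smul_eq_mul]
    congr 1
    refine integral_congr_ae (Eventually.of_forall fun x => ?_)
    simp only [id, smul_eq_mul, hf]
    rw [mul_div_cancel₀ _ (g0_pos x).ne']
  have e1 : 4 * Real.pi * κ * ∫ x, f x ∂Pinf = κ * ∫ x, F x := by
    rw [e0]
    have h5 := Real.pi_pos
    field_simp
  rw [e1] at h3
  refine h3.congr' ?_
  filter_upwards [hu.eventually h.ev] with n ⟨g1, g2, g3⟩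
  simp only [Function.comp]
  rw [g3, tilt_integral (h.Wg_meas _) (h.Wg_nn _) g2 (h.X_meas _) f.continuous.aestronglyMeasurable, smul_eq_mul]
  have e3 : ∫ t, Wg W X (u n) t • f (X (u n) t) ∂(ν (u n)) = ∫ t, W (u n) t * F (X (u n) t) ∂(ν (u n)) := by
    refine integral_congr_ae (Eventually.of_forall fun t => ?_)
    simp only [smul_eq_mul, hf, Wg]
    have := (g0_pos (X (u n) t)).ne'
    field_simp
  rw [e3]
  have hm := g2.ne'
  generalize (∫ t, Wg W X (u n) t ∂(ν (u n))) = m at hm ⊢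
  field_simp

lemma Loc.mono (h : Loc ν W X a κ) {C : ℝ} : ∀ᶠ T : ℝ in atTop, ∀ F G : ℝ → ℝ, Measurable F → Measurable G → (∀ x, |F x| ≤ C) → (∀ x, |G x| ≤ C) →
    (∀ x, F x ≤ G x) → a T * ∫ t, W T t * F (X T t) ∂(ν T) ≤ a T * ∫ t, W T t * G (X T t) ∂(ν T) := by
  filter_upwards [h.a_pos, h.W_int] with T g1 g2 F G hFm hGm hF hG hFG
  have hI : ∀ H : ℝ → ℝ, Measurable H → (∀ x, |H x| ≤ C) → Integrable (fun t => W T t * H (X T t)) (ν T) := by
    intro H hH hb
    exact g2.mul_bdd (c := C) (hH.comp (h.X_meas T)).aestronglyMeasurable (Eventually.of_forall fun t => hb _)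
  refine mul_le_mul_of_nonneg_left ?_ g1.le
  refine integral_mono (hI F hFm hF) (hI G hGm hG) fun t => ?_
  exact mul_le_mul_of_nonneg_left (hFG _) (h.W_nn T t)

/-- **The limit for indicators.** -/
theorem Loc.ind (h : Loc ν W X a κ) (α : ℝ) {ρ : ℝ → ℝ} (hρ : Continuous ρ) (h0 : volume {x | ρ x = 0} = 0)
    {C : ℝ} (hC : 0 ≤ C) (hb : ∀ x, -1 ≤ ρ x → Real.exp (-(2 * α * x)) ≤ C * g0 x) :
    Tendsto (fun T : ℝ => a T * ∫ t, W T t * Ei α ρ (X T t) ∂(ν T)) atTop (𝓝 (κ * ∫ x, Ei α ρ x)) := by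
  set E : ℝ → ℝ := fun x => Real.exp (-(2 * α * x)) with hE
  have hEc : Continuous E := by fun_prop
  have hE0 : ∀ x, 0 < E x := fun x => Real.exp_pos _
  set P : ℕ → ℝ → ℝ := fun n x => E x * cl (1 + (n + 1) * ρ x) with hP
  set Q : ℕ → ℝ → ℝ := fun n x => E x * cl ((n + 1) * ρ x) with hQ
  have hPc : ∀ n, Continuous (P n) := fun n => hEc.mul (cl_cont.comp (by fun_prop))
  have hQc : ∀ n, Continuous (Q n) := fun n => hEc.mul (cl_cont.comp (by fun_prop))
  have hP0 : ∀ n x, 0 ≤ P n x := fun n x => mul_nonneg (hE0 x).le (cl_nonneg _)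
  have hQ0 : ∀ n x, 0 ≤ Q n x := fun n x => mul_nonneg (hE0 x).le (cl_nonneg _)
  have hg0 : ∀ x, 0 ≤ C * g0 x := fun x => mul_nonneg hC (g0_pos x).le
  have hPb : ∀ n x, |P n x| ≤ C * g0 x := by
    intro n x
    rw [abs_of_nonneg (hP0 n x)]
    by_cases hx : -1 ≤ ρ x
    · exact (mul_le_of_le_one_right (hE0 x).le (cl_le_one _)).trans (hb x hx)
    · push Not at hx
      have : 1 + (n + 1) * ρ x ≤ 0 := by
        have hn : (0:ℝ) ≤ n := Nat.cast_nonneg n
        nlinarith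
      simp only [hP]
      rw [cl_zero this, mul_zero]
      exact hg0 x
  have hQb : ∀ n x, |Q n x| ≤ C * g0 x := by
    intro n x
    rw [abs_of_nonneg (hQ0 n x)]
    by_cases hx : -1 ≤ ρ x
    · exact (mul_le_of_le_one_right (hE0 x).le (cl_le_one _)).trans (hb x hx)
    · push Not at hx
      have : (n + 1) * ρ x ≤ 0 := by
        have hn : (0:ℝ) ≤ n := Nat.cast_nonneg n
        nlinarith
      simp only [hQ]
      rw [cl_zero this, mul_zero]
      exact hg0 x
  have hEi0 : ∀ x, 0 ≤ Ei α ρ x := fun x => Set.indicator_nonneg (fun y _ => (hE0 y).le) x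
  have hQE : ∀ n x, Q n x ≤ Ei α ρ x := by
    intro n x
    by_cases hx : 0 ≤ ρ x
    · unfold Ei
      rw [Set.indicator_of_mem (show x ∈ {x | 0 ≤ ρ x} from hx)]
      exact mul_le_of_le_one_right (hE0 x).le (cl_le_one _)
    · push Not at hx
      have : (n + 1) * ρ x ≤ 0 := by
        have hn : (0:ℝ) ≤ n := Nat.cast_nonneg n
        nlinarith
      simp only [hQ]
      rw [cl_zero this, mul_zero]
      exact hEi0 x
  have hEP : ∀ n x, Ei α ρ x ≤ P n x := by
    intro n x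
    by_cases hx : 0 ≤ ρ x
    · unfold Ei
      rw [Set.indicator_of_mem (show x ∈ {x | 0 ≤ ρ x} from hx)]
      simp only [hP]
      rw [cl_one, mul_one]
      have hn : (0:ℝ) ≤ n := Nat.cast_nonneg n
      have : 0 ≤ (n + 1) * ρ x := by positivity
      linarith
    · unfold Ei
      rw [Set.indicator_of_notMem (show x ∉ {x | 0 ≤ ρ x} from hx)]
      exact hP0 n x
  have hEib : ∀ x, |Ei α ρ x| ≤ C * g0 x := by
    intro x
    rw [abs_of_nonneg (hEi0 x)]
    exact (hEP 0 x).trans ((le_abs_self _).trans (hPb 0 x))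
  have hmS : MeasurableSet {x | 0 ≤ ρ x} := measurableSet_le measurable_const hρ.measurable
  have hEim : Measurable (Ei α ρ) := by
    unfold Ei
    exact hEc.measurable.indicator hmS
  have hgi : Integrable fun x => C * g0 x := g0_int.const_mul C
  -- convergence of the integrals
  have hPl : Tendsto (fun n => ∫ x, P n x) atTop (𝓝 (∫ x, Ei α ρ x)) := by
    refine tendsto_integral_of_dominated_convergence (fun x => C * g0 x) (fun n => (hPc n).aestronglyMeasurable) hgi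
      (fun n => Eventually.of_forall fun x => hPb n x) (Eventually.of_forall fun x => ?_)
    by_cases hx : 0 ≤ ρ x
    · refine tendsto_const_nhds.congr fun n => ?_
      exact le_antisymm (hEP n x) (by
        unfold Ei
        rw [Set.indicator_of_mem (show x ∈ {x | 0 ≤ ρ x} from hx)]
        exact mul_le_of_le_one_right (hE0 x).le (cl_le_one _))
    · push Not at hx
      have e1 : Ei α ρ x = 0 := by
        unfold Ei
        rw [Set.indicator_of_notMem (show x ∉ {x | 0 ≤ ρ x} from not_le.mpr hx)]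
      rw [e1]
      refine tendsto_const_nhds.congr' ?_
      obtain ⟨N, hN⟩ := exists_nat_gt (1 / (-ρ x))
      filter_upwards [eventually_ge_atTop N] with n hn
      have h2 : (N:ℝ) ≤ n := by exact_mod_cast hn
      have h3 : 1 / (-ρ x) < (n:ℝ) + 1 := by linarith
      rw [div_lt_iff₀ (by linarith)] at h3
      simp only [hP]
      rw [cl_zero (by linarith), mul_zero]
  have hQl : Tendsto (fun n => ∫ x, Q n x) atTop (𝓝 (∫ x, Ei α ρ x)) := by
    refine tendsto_integral_of_dominated_convergence (fun x => C * g0 x) (fun n => (hQc n).aestronglyMeasurable) hgi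
      (fun n => Eventually.of_forall fun x => hQb n x) ?_
    have hae : ∀ᵐ x : ℝ, ρ x ≠ 0 := by
      rw [ae_iff]
      simpa using h0
    filter_upwards [hae] with x hx0
    rcases lt_or_gt_of_ne hx0 with hx | hx
    · have e1 : Ei α ρ x = 0 := by
        unfold Ei
        rw [Set.indicator_of_notMem (show x ∉ {x | 0 ≤ ρ x} from not_le.mpr hx)]
      rw [e1]
      refine tendsto_const_nhds.congr fun n => ?_
      have hn : (0:ℝ) ≤ n := Nat.cast_nonneg n
      simp only [hQ]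
      rw [cl_zero (by nlinarith), mul_zero]
    · have e1 : Ei α ρ x = E x := by
        unfold Ei
        rw [Set.indicator_of_mem (show x ∈ {x | 0 ≤ ρ x} from hx.le)]
      rw [e1]
      refine tendsto_const_nhds.congr' ?_
      obtain ⟨N, hN⟩ := exists_nat_gt (1 / ρ x)
      filter_upwards [eventually_ge_atTop N] with n hn
      have h2 : (N:ℝ) ≤ n := by exact_mod_cast hn
      have h3 : 1 / ρ x < (n:ℝ) + 1 := by linarith
      rw [div_lt_iff₀ hx] at h3
      simp only [hQ]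
      rw [cl_one h3.le, mul_one]
  obtain ⟨Cg, hCg, hgb⟩ := g0_bdd
  have hmono : ∀ᶠ T : ℝ in atTop, ∀ n, a T * ∫ t, W T t * Q n (X T t) ∂(ν T) ≤ a T * ∫ t, W T t * Ei α ρ (X T t) ∂(ν T) ∧
      a T * ∫ t, W T t * Ei α ρ (X T t) ∂(ν T) ≤ a T * ∫ t, W T t * P n (X T t) ∂(ν T) := by
    filter_upwards [h.mono (C := C * Cg)] with T g n
    have hbb : ∀ {H : ℝ → ℝ}, (∀ x, |H x| ≤ C * g0 x) → ∀ x, |H x| ≤ C * Cg := fun hH x =>
      (hH x).trans (mul_le_mul_of_nonneg_left (hgb x) hC)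
    exact ⟨g _ _ (hQc n).measurable hEim (hbb (hQb n)) (hbb hEib) (hQE n),
      g _ _ hEim (hPc n).measurable (hbb hEib) (hbb (hPb n)) (hEP n)⟩
  refine tendsto_order.mpr ⟨fun x hx => ?_, fun x hx => ?_⟩
  · have h1 := ((hQl.const_mul κ).eventually (lt_mem_nhds hx)).exists
    obtain ⟨n, hn⟩ := h1
    filter_upwards [(h.cont (hQc n) (hQb n)).eventually (lt_mem_nhds hn), hmono] with T g1 g2
    exact lt_of_lt_of_le g1 (g2 n).1
  · have h1 := ((hPl.const_mul κ).eventually (gt_mem_nhds hx)).exists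
    obtain ⟨n, hn⟩ := h1
    filter_upwards [(h.cont (hPc n) (hPb n)).eventually (gt_mem_nhds hn), hmono] with T g1 g2
    exact lt_of_le_of_lt (g2 n).2 g1

end

end Pool.Agent.X111.LB
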