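import Pool.Agent.X111.LB.Lc
import Pool.Agent.X111.PA.Fin

set_option autoImplicit false
set_option linter.unusedSectionVars false

/-! Large values of a linear form of the logarithms: the measure and the conditional Laplace transforms. -/

namespace Pool.Agent.X111.LB

open Finset MeasureTheory Filter Topology
open Pool.Agent.X111.PA (zz zz_meas GS_m2 pd pd_nn pd_meas pd_int WW ell ell_symm log_uu ev_ll1 ee ee_tend YY YY_meas pd_exp cltn)
open Pool.Agent.X110.LT (Phi exp_unit Ei exp_le_g0_right)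
open Pool.Agent.Y753.SHL (lf qf Nor)

noncomputable section

variable {n : ℕ} {D X : Fin n → ℝ → ℝ} {d V L : ℝ → ℝ} {r : Fin n → Fin n → ℝ}

/-- the large values in the good set -/
def GLv (D X : Fin n → ℝ → ℝ) (d V : ℝ → ℝ) (b : Fin n → ℝ) (c T : ℝ) : Set ℝ := Gd (d T) (V T) T (WW D X d T) ∩ {t | c ≤ Xc D X d b T t}

lemma cX_meas (b : Fin n → ℝ) (c T : ℝ) : MeasurableSet {t | c ≤ Xc D X d b T t} := measurableSet_le measurable_const (Xc_meas b T)

lemma GLv_meas (b : Fin n → ℝ) (c T : ℝ) : MeasurableSet (GLv D X d V b c T) := (Gd_meas _ _ _ _).inter (cX_meas b c T)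

lemma Ei_eq {b e : Fin n → ℝ} {c T t : ℝ} (hz : ∀ j, 0 < zz (d T) (WW D X d T) t j) :
    Wt D X d b e T t * Ei 1 (fun x => x - c) (Xc D X d b T t) =
      Set.indicator {t | c ≤ Xc D X d b T t} (fun t => Real.exp (2 * BF D X b b T) * pd (d T) (WW D X d T) e t) t := by
  by_cases hx : c ≤ Xc D X d b T t
  · unfold Ei
    rw [Set.indicator_of_mem (show Xc D X d b T t ∈ {x | 0 ≤ x - c} from sub_nonneg.mpr hx),
      Set.indicator_of_mem (show t ∈ {t | c ≤ Xc D X d b T t} from hx)]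
    have h1 := pd_line hz b (fun j => b j + e j) (-2)
    have h2 : (fun j => -2 / 2 * b j + (b j + e j)) = e := by
      funext j
      ring
    rw [h2] at h1
    rw [← h1]
    unfold Wt Xc
    have h3 : Real.exp (-(2 * 1 * (Xb (d T) (WW D X d T) b t - BF D X b b T))) = Real.exp (2 * BF D X b b T) * Real.exp (-2 * Xb (d T) (WW D X d T) b t) := by
      rw [← Real.exp_add]
      congr 1
      ring
    rw [h3]
    ring
  · unfold Ei
    rw [Set.indicator_of_notMem (show Xc D X d b T t ∉ {x | 0 ≤ x - c} from fun h => hx (sub_nonneg.mp h)),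
      Set.indicator_of_notMem (show t ∉ {t | c ≤ Xc D X d b T t} from hx), mul_zero]

/-- the normalisation -/
def A0 (D X : Fin n → ℝ → ℝ) (d : ℝ → ℝ) (b : Fin n → ℝ) (T : ℝ) : ℝ :=
  Real.sqrt (BF D X b b T) * (Real.exp (BF D X b b T) / (T * kT D X d b T))

/-- the mass of the limit -/
def Ic (c : ℝ) : ℝ := Real.exp (-(2 * c)) / 2

lemma Ic_pos (c : ℝ) : 0 < Ic c := by
  unfold Ic
  positivity

lemma Ei_int (c : ℝ) : ∫ x, Ei 1 (fun x => x - c) x = Ic c := by
  have hset : {x : ℝ | 0 ≤ x - c} = Set.Ici c := by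
    ext x
    simp only [Set.mem_ofPred_eq, Set.mem_Ici, sub_nonneg]
  have e1 : ∫ x, Ei 1 (fun x => x - c) x = ∫ x in Set.Ici c, Real.exp (-(2 * 1 * x)) := by
    rw [← integral_indicator measurableSet_Ici, ← hset]
    rfl
  rw [e1, integral_Ici_eq_integral_Ioi]
  have e2 : ∫ x in Set.Ioi c, Real.exp (-(2 * 1 * x)) = ∫ x in Set.Ioi c, Real.exp ((-2) * x) := by
    refine setIntegral_congr_fun measurableSet_Ioi fun x _ => ?_
    congr 1; ring
  rw [e2, integral_exp_mul_Ioi (by norm_num)]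
  unfold Ic
  rw [neg_div_neg_eq]
  congr 2
  ring

/-- the weighted measures of the large values -/
theorem lim_th (h : Pool.Agent.X111.PA.Hyp D X d V L r) (b θ : Fin n → ℝ) (hv : 0 < ∑ i, ∑ j, b i * b j * r i j) (c : ℝ) :
    Tendsto (fun T : ℝ => A0 D X d b T * (Real.exp (-(2 * BF D X b (ee L θ T) T + BF D X (ee L θ T) (ee L θ T) T)) *
      ∫ t in GLv D X d V b c T, pd (d T) (WW D X d T) (ee L θ T) t)) atTop (𝓝 (Real.exp (-(bL r b θ) ^ 2) / Real.sqrt Real.pi * Ic c)) := by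
  have h0 : volume {x : ℝ | x - c = 0} = 0 := by
    refine measure_mono_null (t := {c}) (fun x hx => ?_) (by simp)
    have hx' : x - c = 0 := hx
    simp only [Set.mem_singleton_iff]; linarith
  obtain ⟨C, hC, hb⟩ := exp_le_g0_right (α := 1) one_pos (c - 1)
  have h1 := (loc h b θ hv).ind 1 (ρ := fun x => x - c) (by fun_prop) h0 hC (fun x hx => hb x (by linarith))
  rw [Ei_int] at h1
  refine h1.congr' ?_
  filter_upwards [h.V_pos] with T hV
  have e1 : ∫ t in Gd (d T) (V T) T (WW D X d T), Wt D X d b (ee L θ T) T t * Ei 1 (fun x => x - c) (Xc D X d b T t) =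
      Real.exp (2 * BF D X b b T) * ∫ t in GLv D X d V b c T, pd (d T) (WW D X d T) (ee L θ T) t := by
    rw [setIntegral_congr_fun (Gd_meas _ _ _ _) fun t ht => Ei_eq (fun j => Gd_pos hV ht j), integral_indicator (cX_meas b c T),
      Measure.restrict_restrict (cX_meas b c T), Set.inter_comm, integral_const_mul]
    rfl
  rw [e1]
  have e2 : aT D X d L b θ T * Real.exp (2 * BF D X b b T) = A0 D X d b T * Real.exp (-(2 * BF D X b (ee L θ T) T + BF D X (ee L θ T) (ee L θ T) T)) := by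
    unfold aT A0
    have e3 : Real.exp (-(BF D X b b T + 2 * BF D X b (ee L θ T) T + BF D X (ee L θ T) (ee L θ T) T)) * Real.exp (2 * BF D X b b T) =
        Real.exp (BF D X b b T) * Real.exp (-(2 * BF D X b (ee L θ T) T + BF D X (ee L θ T) (ee L θ T) T)) := by
      rw [← Real.exp_add, ← Real.exp_add]
      congr 1
      ring
    calc _ = Real.sqrt (BF D X b b T) * ((Real.exp (-(BF D X b b T + 2 * BF D X b (ee L θ T) T + BF D X (ee L θ T) (ee L θ T) T)) * Real.exp (2 * BF D X b b T)) /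
          (T * kT D X d b T)) := by ring
      _ = _ := by
        rw [e3]
        ring
  rw [← mul_assoc, e2]
  ring

lemma ee_zero (T : ℝ) : ee L (fun _ : Fin n => (0:ℝ)) T = fun _ => 0 := by
  funext j
  unfold ee
  simp

/-- the measure of the large values in the good set -/
theorem lim_vol (h : Pool.Agent.X111.PA.Hyp D X d V L r) (b : Fin n → ℝ) (hv : 0 < ∑ i, ∑ j, b i * b j * r i j) (c : ℝ) :
    Tendsto (fun T : ℝ => A0 D X d b T * (volume (GLv D X d V b c T)).toReal) atTop (𝓝 (Ic c / Real.sqrt Real.pi)) := by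
  have h1 := lim_th h b (fun _ => 0) hv c
  have e1 : Real.exp (-(bL r b (fun _ => (0:ℝ))) ^ 2) / Real.sqrt Real.pi * Ic c = Ic c / Real.sqrt Real.pi := by
    unfold bL
    simp
    ring
  rw [e1] at h1
  refine h1.congr fun T => ?_
  rw [ee_zero]
  have e2 : BF D X b (fun _ => (0:ℝ)) T = 0 := by
    unfold BF
    simp
  have e3 : BF D X (fun _ => (0:ℝ)) (fun _ => (0:ℝ)) T = 0 := by
    unfold BF
    simp
  rw [e2, e3]
  have e4 : ∫ t in GLv D X d V b c T, pd (d T) (WW D X d T) (fun _ => 0) t = (volume (GLv D X d V b c T)).toReal := by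
    unfold pd
    simp [Measure.real]
  rw [e4]
  simp

lemma exp_lf {b θ : Fin n → ℝ} {T t : ℝ} (hL : 0 < L T) (hz : ∀ j, 0 < zz (d T) (WW D X d T) t j) :
    Real.exp (lf θ (YY D X d L b T t)) = Real.exp (-(2 * BF D X b (ee L θ T) T)) * pd (d T) (WW D X d T) (ee L θ T) t := by
  have h1 := pd_exp (β := b) (θ := θ) (D := D) (X := X) (d := d) hL hz
  have h2 : pd (d T) (WW D X d T) (fun j => b j + ee L θ T j) t = pd (d T) (WW D X d T) b t * pd (d T) (WW D X d T) (ee L θ T) t := by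
    unfold pd
    rw [← Finset.prod_mul_distrib]
    refine Finset.prod_congr rfl fun j _ => ?_
    rw [← Real.rpow_add (hz j)]
    congr 1
    ring
  have h3 : 0 < pd (d T) (WW D X d T) b t := Finset.prod_pos fun j _ => Real.rpow_pos_of_pos (hz j) _
  have h4 : 2 * ∑ j, ee L θ T j * ∑ i, b i * ell D X i j T = 2 * BF D X b (ee L θ T) T := by
    congr 1
    unfold BF
    rw [Finset.sum_comm]
    refine Finset.sum_congr rfl fun j _ => ?_
    rw [Finset.mul_sum]
    refine Finset.sum_congr rfl fun i _ => ?_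
    ring
  rw [h2, h4] at h1
  have h5 : pd (d T) (WW D X d T) b t * Real.exp (lf θ (YY D X d L b T t)) =
      pd (d T) (WW D X d T) b t * (Real.exp (-(2 * BF D X b (ee L θ T) T)) * pd (d T) (WW D X d T) (ee L θ T) t) := by
    rw [h1]
    ring
  exact mul_left_cancel₀ h3.ne' h5

/-- the conditional covariance -/
def CC (r : Fin n → Fin n → ℝ) (b : Fin n → ℝ) (i j : Fin n) : ℝ :=
  r i j - (∑ k, b k * r k i) * (∑ k, b k * r k j) / ∑ k, ∑ l, b k * b l * r k l

lemma CC_symm (h : Pool.Agent.X111.PA.Hyp D X d V L r) (b : Fin n → ℝ) (i j : Fin n) : CC r b i j = CC r b j i := by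
  unfold CC
  rw [h.r_symm i j]
  ring

lemma qf_CC {b : Fin n → ℝ} (hv : 0 < ∑ i, ∑ j, b i * b j * r i j) (θ : Fin n → ℝ) :
    qf (CC r b) θ / 2 = qf r θ / 2 - (bL r b θ) ^ 2 := by
  have h1 : (bL r b θ) ^ 2 = (∑ i, ∑ j, b i * θ j * r i j) ^ 2 / (2 * ∑ i, ∑ j, b i * b j * r i j) := by
    unfold bL
    rw [div_pow, Real.sq_sqrt (by linarith)]
  have h2 : (∑ i, ∑ j, b i * θ j * r i j) = ∑ j, θ j * ∑ i, b i * r i j := by
    rw [Finset.sum_comm]
    refine Finset.sum_congr rfl fun j _ => ?_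
    rw [Finset.mul_sum]
    refine Finset.sum_congr rfl fun i _ => ?_
    ring
  obtain ⟨v, hvd⟩ : ∃ v : ℝ, v = ∑ i, ∑ j, b i * b j * r i j := ⟨_, rfl⟩
  have h3 : qf (CC r b) θ = qf r θ - (∑ j, θ j * ∑ i, b i * r i j) ^ 2 / v := by
    unfold qf CC
    rw [← hvd, sq, Finset.sum_mul_sum, Finset.sum_div, ← Finset.sum_sub_distrib]
    refine Finset.sum_congr rfl fun i _ => ?_
    rw [Finset.sum_div, ← Finset.sum_sub_distrib]
    refine Finset.sum_congr rfl fun j _ => ?_
    ring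
  rw [h1, h2, h3, ← hvd]
  rw [← hvd] at hv
  field_simp

/-- the size of the normalisation -/
lemma A0_bd (h : Pool.Agent.X111.PA.Hyp D X d V L r) (b : Fin n → ℝ) (hv : 0 < ∑ i, ∑ j, b i * b j * r i j) : ∃ (B : ℕ) (C : ℝ), 0 < C ∧ ∀ᶠ T : ℝ in atTop,
    0 < A0 D X d b T ∧ A0 D X d b T * (T / Real.log T ^ B) ≤ C * (Real.log T)⁻¹ := by
  obtain ⟨hP1, hP2⟩ := Pb_ge b
  obtain ⟨K, hPK⟩ : ∃ K : ℕ, Pb b ≤ K := exists_nat_ge _
  have hnK : 0 < n * K := by
    have h1 : (0:ℝ) < K := by linarith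
    have h2 : 0 < K := by exact_mod_cast h1
    exact Nat.mul_pos h.n_pos h2
  obtain ⟨C2, hC2, H3⟩ := kS_bd (m := n) hnK
  obtain ⟨M1, hM1⟩ : ∃ M1 : ℝ, M1 = (n * n : ℝ) * (Pb b * Pb b * 2) := ⟨_, rfl⟩
  have hM10 : 0 ≤ M1 := by rw [hM1]; positivity
  obtain ⟨B, hB⟩ : ∃ B : ℕ, 2 * M1 + 1 ≤ B := exists_nat_ge _
  refine ⟨B, Real.exp C2, Real.exp_pos _, ?_⟩
  filter_upwards [h.pos, h.rng 1 1 0 one_pos, ell_bd h, ev_ll1, (BF_inf h hv).eventually_gt_atTop 0] with T hp ⟨g1, g2, g3, g4, g5, g6⟩ hell ⟨hT, hL, hll⟩ hB0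
  have ha : ∀ j, 0 ≤ D j T - d T ∧ D j T - d T ≤ 1 / 16 := fun j => by
    obtain ⟨a1, a2, a3⟩ := hp j
    exact ⟨by linarith, by linarith⟩
  have hT0 : 0 < T := by linarith
  have hL0 : 0 < Real.log T := by linarith
  have hk0 := kS_pos b (fun j => D j T - d T) (fun j => X j T) (d T)
  have hk1 := (H3 b (fun j => D j T - d T) (fun j => X j T) (d T) (fun j => (hP2 j).trans hPK) ha (fun j => (hp j).2.2) g2 g3).1
  have hkT : kT D X d b T = kS b (fun j => D j T - d T) (fun j => X j T) (d T) := rfl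
  rw [← hkT] at hk0 hk1
  have hs0 := Real.sqrt_pos.mpr hB0
  have hinv : 1 / kT D X d b T ≤ Real.exp C2 := by
    rw [div_le_iff₀ hk0]
    calc (1:ℝ) = Real.exp C2 * Real.exp (-C2) := by rw [← Real.exp_add, add_neg_cancel, Real.exp_zero]
      _ ≤ _ := mul_le_mul_of_nonneg_left hk1 (Real.exp_pos _).le
  have b1 := (le_abs_self _).trans (BF_bd (x := b) (y := b) (D := D) (X := X) (P := Pb b) (by linarith) hell hP2 hP2)
  have b2 : BF D X b b T ≤ M1 * Real.log (Real.log T) := b1.trans (le_of_eq (by rw [hM1]; ring))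
  have b3 : Real.sqrt (BF D X b b T) ≤ Real.exp (BF D X b b T) := by
    have h5 : BF D X b b T + 1 ≤ Real.exp (BF D X b b T) := Real.add_one_le_exp _
    have h6 : Real.sqrt (BF D X b b T) ≤ BF D X b b T + 1 := by
      rw [Real.sqrt_le_left (by linarith)]
      nlinarith
    linarith
  have b4 : Real.exp (BF D X b b T) * Real.exp (BF D X b b T) ≤ Real.log T ^ (2 * M1) := by
    rw [← Real.exp_add, Real.rpow_def_of_pos hL0]
    refine Real.exp_le_exp.mpr ?_
    linarith
  refine ⟨by unfold A0; positivity, ?_⟩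
  unfold A0
  calc Real.sqrt (BF D X b b T) * (Real.exp (BF D X b b T) / (T * kT D X d b T)) * (T / Real.log T ^ B) =
      (Real.sqrt (BF D X b b T) * Real.exp (BF D X b b T)) * (1 / kT D X d b T) * (Real.log T ^ B)⁻¹ := by
        field_simp
    _ ≤ Real.log T ^ (2 * M1) * Real.exp C2 * (Real.log T ^ B)⁻¹ := by
        refine mul_le_mul_of_nonneg_right (mul_le_mul ?_ hinv (by positivity) (by positivity)) (by positivity)
        exact (mul_le_mul_of_nonneg_right b3 (Real.exp_pos _).le).trans b4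
    _ ≤ Real.exp C2 * (Real.log T)⁻¹ := by
        have h7 : Real.log T ^ (2 * M1) * (Real.log T ^ B)⁻¹ ≤ (Real.log T)⁻¹ := by
          rw [← Real.rpow_natCast, ← Real.rpow_neg hL0.le, ← Real.rpow_add hL0, ← Real.rpow_neg_one]
          exact Real.rpow_le_rpow_of_exponent_le (by linarith) (by linarith)
        calc Real.log T ^ (2 * M1) * Real.exp C2 * (Real.log T ^ B)⁻¹ = Real.exp C2 * (Real.log T ^ (2 * M1) * (Real.log T ^ B)⁻¹) := by ring
          _ ≤ _ := mul_le_mul_of_nonneg_left h7 (Real.exp_pos _).le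

end

end Pool.Agent.X111.LB
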