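import Pool.Agent.X111.LB.Rc
import Pool.Agent.X111.PA.Law
import Pool.Agent.X110.LT3

set_option autoImplicit false
set_option linter.unusedSectionVars false

/-! Joint moments for complex exponents at several points. -/

namespace Pool.Agent.X111.LB

open Finset MeasureTheory Filter Topology ProbabilityTheory
open Pool.Agent.X111.MS (DG DG_ge JI Zf_zero diag_DG Mz fT fT_le fT_nn)
open Pool.Agent.X111.PA (zz zz_meas GS_m2 pd pd_nn pd_meas pd_int)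
open Pool.Agent.X110.RR (GS ratio)
open Pool.Agent.X110.ND (SS_le interp node)
open Pool.Agent.X110.LT (num5)
open Pool.Agent.H306R2 (dv dv_nonneg)

noncomputable section

section

variable {m : ℕ}

/-- the linear form of the logarithms -/
def Xb (δ : ℝ) (w : Fin m → ℂ) (b : Fin m → ℝ) (t : ℝ) : ℝ := ∑ j, b j * Real.log (zz δ w t j)

lemma Xb_meas (δ : ℝ) (w : Fin m → ℂ) (b : Fin m → ℝ) : Measurable (Xb δ w b) := by
  unfold Xb
  exact Finset.measurable_fun_sum _ fun j _ => ((zz_meas δ w j).log).const_mul _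

/-- the good set -/
def Gd (δ V T : ℝ) (w : Fin m → ℂ) : Set ℝ := Set.Ioc 0 T ∩ GS δ V w

lemma Gd_meas (δ V T : ℝ) (w : Fin m → ℂ) : MeasurableSet (Gd δ V T w) := measurableSet_Ioc.inter (GS_m2 δ V w)

lemma Gd_pos {δ V T : ℝ} {w : Fin m → ℂ} (hV : 0 < V) {t : ℝ} (ht : t ∈ Gd δ V T w) (j : Fin m) : 0 < zz δ w t j :=
  (inv_pos.mpr hV).trans (ht.2 j).1

lemma pd_line {δ : ℝ} {w : Fin m → ℂ} {t : ℝ} (hz : ∀ j, 0 < zz δ w t j) (b e : Fin m → ℝ) (s : ℝ) :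
    pd δ w e t * Real.exp (s * Xb δ w b t) = pd δ w (fun j => s / 2 * b j + e j) t := by
  unfold pd Xb
  rw [Finset.mul_sum, Real.exp_sum, ← Finset.prod_mul_distrib]
  refine Finset.prod_congr rfl fun j _ => ?_
  rw [mul_add, Real.rpow_add (hz j), mul_comm, Real.rpow_def_of_pos (hz j) (2 * (s / 2 * b j))]
  congr 2
  ring

/-- the moments for complex exponents -/
def MC (δ V T : ℝ) (w : Fin m → ℂ) (b e : Fin m → ℝ) (z : ℂ) : ℂ :=
  (1 / (T:ℂ)) * ∫ t in Gd δ V T w, ((pd δ w e t : ℝ) : ℂ) * Complex.exp (2 * z * ((Xb δ w b t : ℝ) : ℂ))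

lemma pe_int {δ V T : ℝ} (hV : 0 < V) (w : Fin m → ℂ) (b e : Fin m → ℝ) (s : ℝ) :
    IntegrableOn (fun t => pd δ w e t * Real.exp (s * Xb δ w b t)) (Gd δ V T w) :=
  (pd_int hV w (fun j => s / 2 * b j + e j)).congr_fun (fun _ ht => (pd_line (fun j => Gd_pos hV ht j) b e s).symm) (Gd_meas _ _ _ _)

lemma MC_diff {δ V T : ℝ} (hV : 0 < V) (w : Fin m → ℂ) (b e : Fin m → ℝ) : Differentiable ℂ (MC δ V T w b e) := by
  obtain ⟨μ, hμ⟩ : ∃ μ : Measure ℝ, μ = (volume.restrict (Gd δ V T w)).withDensity fun t => ENNReal.ofReal (pd δ w e t) := ⟨_, rfl⟩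
  have hz : Measurable fun t => ENNReal.ofReal (pd δ w e t) := (pd_meas δ w e).ennreal_ofReal
  have h1 : integrableExpSet (Xb δ w b) μ = Set.univ := by
    ext s
    simp only [Set.mem_univ, iff_true]
    show Integrable (fun t => Real.exp (s * Xb δ w b t)) μ
    rw [hμ, integrable_withDensity_iff_integrable_smul' hz (Eventually.of_forall fun _ => ENNReal.ofReal_lt_top)]
    refine (pe_int (T := T) hV w b e s).congr (Eventually.of_forall fun t => ?_)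
    show pd δ w e t * Real.exp (s * Xb δ w b t) = (ENNReal.ofReal (pd δ w e t)).toReal • Real.exp (s * Xb δ w b t)
    rw [ENNReal.toReal_ofReal (pd_nn δ w e t), smul_eq_mul]
  have h2 : Differentiable ℂ (complexMGF (Xb δ w b) μ) := by
    intro z
    refine (hasDerivAt_complexMGF (z := z) ?_).differentiableAt
    rw [h1, interior_univ]
    trivial
  have h3 : MC δ V T w b e = fun z => (1 / (T:ℂ)) * complexMGF (Xb δ w b) μ (2 * z) := by
    funext z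
    unfold MC complexMGF
    rw [hμ, integral_withDensity_eq_integral_toReal_smul hz (Eventually.of_forall fun _ => ENNReal.ofReal_lt_top)]
    congr 1
    refine integral_congr_ae (Eventually.of_forall fun t => ?_)
    simp only
    rw [ENNReal.toReal_ofReal (pd_nn δ w e t), Complex.real_smul]
  rw [h3]
  exact (h2.comp (differentiable_id.const_mul 2)).const_mul _

lemma MC_real {δ V T : ℝ} (hV : 0 < V) (w : Fin m → ℂ) (b e : Fin m → ℝ) (x : ℝ) :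
    MC δ V T w b e x = ((1 / T * JI δ V T w (fun j => x * b j + e j) : ℝ) : ℂ) := by
  unfold MC
  rw [Complex.ofReal_mul]
  push_cast
  congr 1
  have h1 : JI δ V T w (fun j => x * b j + e j) = ∫ t in Gd δ V T w, pd δ w (fun j => x * b j + e j) t := rfl
  rw [h1, ← integral_complex_ofReal]
  refine setIntegral_congr_fun (Gd_meas _ _ _ _) fun t ht => ?_
  have h2 := pd_line (fun j => Gd_pos hV ht j) b e (2 * x)
  have h3 : (fun j => 2 * x / 2 * b j + e j) = fun j => x * b j + e j := by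
    funext j
    ring
  rw [h3] at h2
  show ((pd δ w e t : ℝ) : ℂ) * Complex.exp (2 * x * ((Xb δ w b t : ℝ) : ℂ)) = ((pd δ w (fun j => x * b j + e j) t : ℝ) : ℂ)
  rw [← h2]
  push_cast
  rfl

lemma MC_norm {δ V T : ℝ} (hV : 0 < V) (hT : 0 < T) (w : Fin m → ℂ) (b e : Fin m → ℝ) (z : ℂ) :
    ‖MC δ V T w b e z‖ ≤ 1 / T * JI δ V T w (fun j => z.re * b j + e j) := by
  unfold MC
  rw [norm_mul, norm_div, norm_one, Complex.norm_real, Real.norm_of_nonneg hT.le]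
  refine mul_le_mul_of_nonneg_left ?_ (by positivity)
  refine (norm_integral_le_integral_norm _).trans (le_of_eq ?_)
  have h1 : JI δ V T w (fun j => z.re * b j + e j) = ∫ t in Gd δ V T w, pd δ w (fun j => z.re * b j + e j) t := rfl
  rw [h1]
  refine setIntegral_congr_fun (Gd_meas _ _ _ _) fun t ht => ?_
  have h2 := pd_line (fun j => Gd_pos hV ht j) b e (2 * z.re)
  have h3 : (fun j => 2 * z.re / 2 * b j + e j) = fun j => z.re * b j + e j := by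
    funext j
    ring
  rw [h3] at h2
  show ‖((pd δ w e t : ℝ) : ℂ) * Complex.exp (2 * z * ((Xb δ w b t : ℝ) : ℂ))‖ = _
  rw [norm_mul, Complex.norm_real, Real.norm_of_nonneg (pd_nn δ w e t), Complex.norm_exp, Complex.re_mul_ofReal]
  show pd δ w e t * Real.exp ((2 * z).re * Xb δ w b t) = pd δ w (fun j => z.re * b j + e j) t
  rw [← h2]
  congr 3
  simp

/-- bounds for the diagonal sums -/
lemma DC_norm {K : ℕ} {y w : Fin m → ℂ} {δ L : ℝ} (hy : ∀ j, ‖y j‖ ≤ K) (hw : ∀ j, 0 ≤ (w j).re) (hδ : 0 < δ) (hδ1 : δ ≤ 1) (hL : 1 ≤ L)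
    (h2 : 2 / δ ≤ L) : ‖DC y w δ‖ ≤ 2 * L ^ ((m * K) ^ 2) := by
  have h1 := SS_le (k := m * K) (α := ((m * K : ℕ) : ℝ)) (by rw [abs_of_nonneg (Nat.cast_nonneg _)]) hδ hδ1 hL h2
  refine le_trans ?_ h1
  unfold DC Pool.Agent.Y746.OA.SS
  refine tsum_of_norm_bounded (Pool.Agent.Y746.OA.SS_summable _ hδ).hasSum fun n => ?_
  have e : -(2 * (1 / 2 + δ)) = -1 - 2 * δ := by ring
  rw [e]
  exact gT_le hy hw n

lemma DG_norm {K : ℕ} {y : Fin m → ℝ} {w : Fin m → ℂ} {δ L : ℝ} (hy : ∀ j, |y j| ≤ K) (hw : ∀ j, 0 ≤ (w j).re) (hδ : 0 < δ) (hδ1 : δ ≤ 1)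
    (hL : 1 ≤ L) (h2 : 2 / δ ≤ L) : DG y w δ ≤ 2 * L ^ ((m * K) ^ 2) := by
  have h1 := DC_norm (y := fun j => (y j : ℂ)) (K := K) (fun j => by
    rw [Complex.norm_real, Real.norm_eq_abs]
    exact hy j) hw hδ hδ1 hL h2
  rw [DC_real, Complex.norm_real] at h1
  exact (le_abs_self _).trans h1

/-- the real moments -/
theorem rmom (m K : ℕ) : ∃ c : ℝ, 0 < c ∧ ∀ B : ℕ, ∃ (A : ℕ) (C T0 : ℝ), 0 < C ∧
    ∀ T : ℝ, T0 ≤ T → ∀ δ : ℝ, C * Real.log (Real.log T) / Real.log T ≤ δ → δ ≤ 1 / 16 →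
    4 ≤ T ∧ 24 ≤ Real.log T ∧ 0 < δ ∧ 2 / δ ≤ Real.log T ∧
    ∀ V : ℝ, Real.log T ^ A ≤ V → V ≤ T ^ (c * δ) →
    ∀ (w : Fin m → ℂ) (β : Fin m → ℝ),
      (∀ j, 0 ≤ (w j).re ∧ δ + (w j).re ≤ 1 / 16 ∧ |(w j).im| ≤ 1) → (∀ j, |β j| ≤ K) →
    |1 / T * JI δ V T w β - DG β w δ| ≤ 1 / Real.log T ^ B := by
  obtain ⟨c, hc, h⟩ := ratio m K
  refine ⟨c, hc, fun B => ?_⟩
  obtain ⟨A, C, T0, hC, h2⟩ := h B
  refine ⟨A, C, T0, hC, fun T hT δ hδ hδ1 => ?_⟩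
  obtain ⟨hT4, hL24, hδ0, h2δ, h3⟩ := h2 T hT δ hδ hδ1
  refine ⟨hT4, hL24, hδ0, h2δ, fun V hV1 hV2 w β hw hβ => ?_⟩
  obtain ⟨k2, -⟩ := h3 V hV1 hV2 w β (fun _ => 0) (fun j => ⟨(hw j).1, (hw j).2.1, (hw j).2.2.trans (by linarith)⟩) hβ (fun j => by simp)
  have hL0 : 0 < Real.log T := by linarith
  have hT0 : 0 < T := by linarith
  rw [diag_DG] at k2
  have e1 : ∫ t in Set.Ioc 0 T ∩ GS δ V w, Pool.Agent.X110.RR.Zf δ w β (fun _ => 0) t = ((JI δ V T w β : ℝ) : ℂ) := by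
    unfold JI
    simp_rw [Zf_zero]
    exact integral_ofReal
  rw [e1] at k2
  have e2 : ((JI δ V T w β : ℝ) : ℂ) - (T : ℂ) * ((DG β w δ : ℝ) : ℂ) = ((JI δ V T w β - T * DG β w δ : ℝ) : ℂ) := by push_cast; rfl
  rw [e2, Complex.norm_real, Real.norm_eq_abs] at k2
  have e3 : 1 / T * JI δ V T w β - DG β w δ = (JI δ V T w β - T * DG β w δ) / T := by
    field_simp
  rw [e3, abs_div, abs_of_pos hT0, div_le_iff₀ hT0]
  refine k2.trans (le_of_eq ?_)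
  ring

/-- **Joint moments for complex exponents.** -/
theorem cmom (m : ℕ) (b : Fin m → ℝ) (r : ℝ) (hr : 0 ≤ r) : ∃ c : ℝ, 0 < c ∧ ∀ B : ℝ, 0 ≤ B → ∃ (A : ℕ) (C T0 : ℝ), 0 < C ∧
    ∀ T : ℝ, T0 ≤ T → ∀ δ : ℝ, C * Real.log (Real.log T) / Real.log T ≤ δ → δ ≤ 1 / 16 →
    1 ≤ Real.log T ∧ 0 < δ ∧ 2 / δ ≤ Real.log T ∧
    ∀ V : ℝ, Real.log T ^ A ≤ V → V ≤ T ^ (c * δ) →
    ∀ (w : Fin m → ℂ) (e : Fin m → ℝ),
      (∀ j, 0 ≤ (w j).re ∧ δ + (w j).re ≤ 1 / 16 ∧ |(w j).im| ≤ 1) → (∀ j, |e j| ≤ 1) → ∀ z : ℂ, ‖z‖ ≤ r →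
    ‖MC δ V T w b e z - DC (yl b e z) w δ‖ ≤ Real.log T ^ (-B) := by
  obtain ⟨ρ, hρ⟩ : ∃ ρ : ℝ, ρ = 1 + Real.exp 1 * (r + 1) := ⟨_, rfl⟩
  have hρ0 : 1 ≤ ρ := by rw [hρ]; have := Real.exp_pos 1; nlinarith
  obtain ⟨K, hK⟩ : ∃ K : ℕ, ρ * (∑ j, |b j|) + 1 ≤ K := exists_nat_ge _
  obtain ⟨k, hk⟩ : ∃ k : ℕ, k = m * K := ⟨_, rfl⟩
  have hyK : ∀ (z : ℂ) (e : Fin m → ℝ), ‖z‖ ≤ ρ → (∀ j, |e j| ≤ 1) → ∀ j, ‖yl b e z j‖ ≤ K := by
    intro z e hz he j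
    unfold yl
    refine (norm_add_le _ _).trans ?_
    rw [norm_mul, Complex.norm_real, Complex.norm_real, Real.norm_eq_abs, Real.norm_eq_abs]
    have h1 := Finset.single_le_sum (f := fun j => |b j|) (fun i _ => abs_nonneg _) (mem_univ j)
    have h3 : ‖z‖ * |b j| ≤ ρ * ∑ j, |b j| := mul_le_mul hz h1 (abs_nonneg _) (by linarith)
    linarith [he j]
  have hxK : ∀ (x : ℝ) (e : Fin m → ℝ), |x| ≤ ρ → (∀ j, |e j| ≤ 1) → ∀ j, |x * b j + e j| ≤ K := by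
    intro x e hx he j
    have h1 := hyK (x : ℂ) e (by rw [Complex.norm_real]; exact hx) he j
    rw [yl_real] at h1
    rwa [Complex.norm_real, Real.norm_eq_abs] at h1
  obtain ⟨c, hc, H⟩ := rmom m K
  refine ⟨c, hc, fun B hB => ?_⟩
  obtain ⟨q, hq⟩ : ∃ q : ℝ, q = 2 * Real.exp 1 * (ρ + 1) := ⟨_, rfl⟩
  have hq1 : 1 ≤ q := by
    rw [hq]
    have : 1 ≤ Real.exp 1 := Real.one_le_exp (by norm_num)
    nlinarith
  obtain ⟨a, ha⟩ : ∃ a : ℝ, a = (k:ℝ) ^ 2 + B + 2 := ⟨_, rfl⟩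
  have ha0 : 0 ≤ a := by rw [ha]; positivity
  have hlq : 0 ≤ Real.log q := Real.log_nonneg hq1
  obtain ⟨B1, hB1⟩ : ∃ B1 : ℕ, B + 3 + a * Real.log q ≤ B1 := exists_nat_ge _
  obtain ⟨A, C, T0, hC, H2⟩ := H B1
  obtain ⟨Lc, hLc⟩ : ∃ Lc : ℝ, Lc = max (20 + 4 * ((a + 3) * q)) 1 := ⟨_, rfl⟩
  refine ⟨A, C, max T0 (Real.exp Lc), hC, fun T hT δ hδ hδ1 => ?_⟩
  have hTe : Real.exp Lc ≤ T := (le_max_right _ _).trans hT
  have hT0 : 0 < T := lt_of_lt_of_le (Real.exp_pos _) hTe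
  have hLL : Lc ≤ Real.log T := by rwa [Real.le_log_iff_exp_le hT0]
  obtain ⟨hT4, hL24, hδ0, h2δ, H3⟩ := H2 T ((le_max_left _ _).trans hT) δ hδ hδ1
  obtain ⟨L, hL⟩ : ∃ L : ℝ, L = Real.log T := ⟨_, rfl⟩
  rw [← hL] at hLL hL24 h2δ H3 ⊢
  have hL1 : 1 ≤ L := by linarith
  have hL0 : 0 < L := by linarith
  refine ⟨hL1, hδ0, h2δ, fun V hV1 hV2 w e hw he z hz => ?_⟩
  have hV : 0 < V := lt_of_lt_of_le (pow_pos hL0 A) hV1
  have hw0 : ∀ j, 0 ≤ (w j).re := fun j => (hw j).1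
  have hsm0 : 1 / L ^ B1 ≤ L ^ (-(B + 3 + a * Real.log q)) := by
    rw [one_div, ← Real.rpow_natCast, ← Real.rpow_neg hL0.le]
    exact Real.rpow_le_rpow_of_exponent_le hL1 (by linarith)
  have hsm1 : L ^ (-(B + 3 + a * Real.log q)) ≤ 1 := by
    have := Real.rpow_le_rpow_of_exponent_le hL1 (show -(B + 3 + a * Real.log q) ≤ 0 by
      have : 0 ≤ a * Real.log q := mul_nonneg ha0 hlq
      linarith)
    rwa [Real.rpow_zero] at this
  obtain ⟨f, hf⟩ : ∃ f : ℂ → ℂ, f = fun z => MC δ V T w b e z - DC (yl b e z) w δ := ⟨_, rfl⟩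
  have hfd : Differentiable ℂ f := by
    rw [hf]
    exact (MC_diff hV w b e).sub (DC_diff hw0 hδ0)
  have hfr : ∀ x : ℝ, |x| ≤ ρ → ‖f x‖ ≤ L ^ (-(B + 3 + a * Real.log q)) ∧ 1 / T * JI δ V T w (fun j => x * b j + e j) ≤ 3 * L ^ (k ^ 2) := by
    intro x hx
    have h1 := H3 V hV1 hV2 w (fun j => x * b j + e j) hw (hxK x e hx he)
    have h2 : f x = ((1 / T * JI δ V T w (fun j => x * b j + e j) - DG (fun j => x * b j + e j) w δ : ℝ) : ℂ) := by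
      rw [hf]
      simp only
      rw [MC_real hV, yl_real, DC_real, ← Complex.ofReal_sub]
    have h3 : DG (fun j => x * b j + e j) w δ ≤ 2 * L ^ (k ^ 2) := by
      rw [hk]
      exact DG_norm (hxK x e hx he) hw0 hδ0 (by linarith) hL1 h2δ
    have h4 : (1:ℝ) ≤ L ^ (k ^ 2) := one_le_pow₀ hL1
    refine ⟨?_, ?_⟩
    · rw [h2, Complex.norm_real, Real.norm_eq_abs]
      exact h1.trans hsm0
    · have h5 := (abs_le.mp h1).2
      linarith
  have hfM : ∀ u : ℂ, ‖u‖ ≤ ρ → ‖f u‖ ≤ 5 * L ^ (k ^ 2) := by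
    intro u hu
    have hure : |u.re| ≤ ρ := (Complex.abs_re_le_norm u).trans hu
    have h1 := MC_norm (V := V) (T := T) (δ := δ) hV hT0 w b e u
    have h2 := (hfr u.re hure).2
    have h4 : ‖DC (yl b e u) w δ‖ ≤ 2 * L ^ (k ^ 2) := by
      rw [hk]
      exact DC_norm (hyK u e hu he) hw0 hδ0 (by linarith) hL1 h2δ
    have h7 := norm_sub_le (MC δ V T w b e u) (DC (yl b e u) w δ)
    rw [hf]
    show ‖MC δ V T w b e u - DC (yl b e u) w δ‖ ≤ _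
    linarith
  obtain ⟨M, hM⟩ : ∃ M : ℕ, M = ⌈a * Real.log L⌉₊ + 1 - 1 + (if ⌈a * Real.log L⌉₊ = 0 then 1 else 0) := ⟨_, rfl⟩
  have hlL : 0 ≤ Real.log L := Real.log_nonneg hL1
  have hmpos : 0 < M := by
    rw [hM]; split_ifs <;> omega
  have hm1 : a * Real.log L ≤ M := by
    have h1 := Nat.le_ceil (a * Real.log L)
    have h2 : ((⌈a * Real.log L⌉₊ : ℕ) : ℝ) ≤ (M:ℝ) := by
      exact_mod_cast (by rw [hM]; split_ifs <;> omega : ⌈a * Real.log L⌉₊ ≤ M)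
    linarith
  have hm2 : (M:ℝ) ≤ a * Real.log L + 1 := by
    by_cases h0 : ⌈a * Real.log L⌉₊ = 0
    · have h1 : M = 1 := by rw [hM, if_pos h0, h0]
      rw [h1]
      have : 0 ≤ a * Real.log L := by positivity
      push_cast
      linarith
    · have h1 : M = ⌈a * Real.log L⌉₊ := by rw [hM, if_neg h0]; omega
      rw [h1]
      exact (Nat.ceil_lt_add_one (by positivity)).le
  have hη : ∀ j ≤ M, ‖f (node M j : ℝ)‖ ≤ L ^ (-(B + 3 + a * Real.log q)) := by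
    intro j hj
    have hn0 : 0 ≤ node M j := by unfold node; positivity
    have hn1 : node M j ≤ 1 := by
      unfold node
      rw [div_le_one (by exact_mod_cast hmpos)]
      exact_mod_cast hj
    exact (hfr _ (by rw [abs_of_nonneg hn0]; linarith)).1
  have hint := interp hfd hmpos hr (le_of_eq hρ.symm) hfM hη hz
  have hnum := num5 (k := k) (B := B) (a := a) (q := q) (L := L) hq1 hB ha hL1 ((le_max_left _ _).trans (hLc ▸ hLL)) hm1 hm2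
  rw [hf] at hint
  rw [hq] at hnum
  rw [hq] at hint
  exact hint.trans hnum

end

end

end Pool.Agent.X111.LB
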