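import Pool.Agent.X111.PA.Cont
import Pool.Agent.X110.LT1

set_option autoImplicit false
set_option linter.unusedSectionVars false

/-! The diagonal sum for complex exponents at several points. -/

namespace Pool.Agent.X111.LB

open Finset MeasureTheory Filter Topology
open Pool.Agent.H306R2 (lc dv dA lc_nonneg lc_sq_le lc_summable C0 C0_summable C0_nonneg dv_nonneg dv_one dv_prime_pow lc_one dA_mult dA_apply inv_prime
  primes_summable dv_sq_le dvJ_summable dv_mono)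
open Pool.Agent.X110.RR (tw2 tw2_apply Ty Ty_le)
open Pool.Agent.X110.LT (dvC lcC dvC_ofReal dvC_norm_le dvC_mul dvC_prime_pow lcC_one dvC_diff lcC_cont)
open Pool.Agent.Y746.CS (norm_prod_le')
open Pool.Agent.X111.MS (fT DG DG_ge)

noncomputable section

/-- the coefficients of `ζ(s+w)^y` -/
def tc (y w : ℂ) : ArithmeticFunction ℂ := ⟨fun n => dvC y n * (n : ℂ) ^ (-w), by simp [dvC]⟩

lemma tc_apply (y w : ℂ) (n : ℕ) : tc y w n = dvC y n * (n : ℂ) ^ (-w) := rfl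

lemma tc_ofReal (y : ℝ) (w : ℂ) : tc y w = tw2 y w := by
  ext n
  rw [tc_apply, tw2_apply, dvC_ofReal]

lemma tc_le {y w : ℂ} {K : ℕ} (hy : ‖y‖ ≤ K) (hw : 0 ≤ w.re) (n : ℕ) : ‖tc y w n‖ ≤ dv K n := by
  rw [tc_apply, norm_mul]
  rcases Nat.eq_zero_or_pos n with h | h
  · subst h
    simp [dvC]
    exact dv_nonneg (Nat.cast_nonneg _) _
  · have h1 : ‖(n : ℂ) ^ (-w)‖ ≤ 1 := by
      rw [Complex.norm_natCast_cpow_of_pos h, Complex.neg_re]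
      exact Real.rpow_le_one_of_one_le_of_nonpos (by exact_mod_cast h) (by linarith)
    calc ‖dvC y n‖ * ‖(n : ℂ) ^ (-w)‖ ≤ dv K n * 1 := mul_le_mul (dvC_norm_le hy n) h1 (norm_nonneg _) (dv_nonneg (Nat.cast_nonneg _) _)
      _ = _ := mul_one _

lemma dvC_one (y : ℂ) : dvC y 1 = 1 := by
  unfold dvC
  simp

lemma tc_mult (y w : ℂ) : (tc y w).IsMultiplicative := by
  refine ⟨?_, fun {m n} hmn => ?_⟩
  · rw [tc_apply, dvC_one]
    simp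
  · rw [tc_apply, tc_apply, tc_apply, dvC_mul y hmn, Nat.cast_mul, Complex.natCast_mul_natCast_cpow]
    ring

lemma cprod_mult {ι : Type} (s : Finset ι) (y w : ι → ℂ) : (∏ j ∈ s, tc (y j) (w j)).IsMultiplicative := by
  classical
  induction s using Finset.induction_on with
  | empty =>
    rw [prod_empty]
    exact ArithmeticFunction.isMultiplicative_one
  | insert a s ha ih =>
    rw [prod_insert ha]
    exact (tc_mult _ _).mul ih

lemma cprod_prime {ι : Type} (s : Finset ι) (y w : ι → ℂ) {p : ℕ} (hp : p.Prime) :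
    (∏ j ∈ s, tc (y j) (w j)) p = ∑ j ∈ s, y j * (p : ℂ) ^ (-(w j)) := by
  classical
  induction s using Finset.induction_on with
  | empty =>
    rw [prod_empty, sum_empty, ArithmeticFunction.one_apply, if_neg hp.ne_one]
  | insert a s ha ih =>
    rw [prod_insert ha, sum_insert ha, ArithmeticFunction.mul_apply,
      Nat.sum_divisorsAntidiagonal (fun a' b' => (tc (y a) (w a)) a' * (∏ j ∈ s, tc (y j) (w j)) b')]
    rw [hp.divisors, sum_pair hp.one_lt.ne, Nat.div_one, Nat.div_self hp.pos, ih, (tc_mult _ _).map_one, (cprod_mult s y w).map_one, one_mul, mul_one]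
    have h1 : tc (y a) (w a) p = y a * (p : ℂ) ^ (-(w a)) := by
      rw [tc_apply]
      have h2 := dvC_prime_pow (y a) hp 1
      rw [pow_one, lcC_one] at h2
      rw [h2]
    rw [h1]
    ring

/-- the convolution -/
def TC {m : ℕ} (y w : Fin m → ℂ) : ArithmeticFunction ℂ := ∏ j, tc (y j) (w j)

/-- the conjugate shifts -/
def cw {m : ℕ} (w : Fin m → ℂ) : Fin m → ℂ := fun j => (starRingEnd ℂ) (w j)

/-- the terms of the diagonal sum -/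
def gT {m : ℕ} (y w : Fin m → ℂ) (δ : ℝ) (n : ℕ) : ℂ := TC y w n * TC y (cw w) n * (((n : ℝ) ^ (-1 - 2 * δ) : ℝ) : ℂ)

/-- the local factor -/
def Eg {m : ℕ} (y w : Fin m → ℂ) (δ : ℝ) (p : ℕ) : ℂ := ∑' e : ℕ, gT y w δ (p ^ e)

/-- the diagonal sum -/
def DC {m : ℕ} (y w : Fin m → ℂ) (δ : ℝ) : ℂ := ∑' n : ℕ, gT y w δ n

section

variable {m K : ℕ} {y w : Fin m → ℂ} {δ : ℝ}

lemma TC_le (hy : ∀ j, ‖y j‖ ≤ K) (hw : ∀ j, 0 ≤ (w j).re) (n : ℕ) : ‖TC y w n‖ ≤ dv ((m * K : ℕ) : ℝ) n := by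
  have h := norm_prod_le' univ (fun j => tc (y j) (w j)) K (fun j _ n => tc_le (hy j) (hw j) n) n
  rwa [card_univ, Fintype.card_fin] at h

lemma cw_re (hw : ∀ j, 0 ≤ (w j).re) (j : Fin m) : 0 ≤ (cw w j).re := by
  unfold cw
  rw [Complex.conj_re]
  exact hw j

lemma gT_one (y w : Fin m → ℂ) (δ : ℝ) : gT y w δ 1 = 1 := by
  unfold gT TC
  rw [(cprod_mult univ y w).map_one, (cprod_mult univ y (cw w)).map_one]
  simp

lemma gT_zero (y w : Fin m → ℂ) (δ : ℝ) : gT y w δ 0 = 0 := by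
  unfold gT
  rw [ArithmeticFunction.map_zero]
  simp

lemma gT_mult (y w : Fin m → ℂ) (δ : ℝ) {a b : ℕ} (h : Nat.Coprime a b) : gT y w δ (a * b) = gT y w δ a * gT y w δ b := by
  unfold gT TC
  rw [(cprod_mult univ y w).map_mul_of_coprime h, (cprod_mult univ y (cw w)).map_mul_of_coprime h, Nat.cast_mul,
    Real.mul_rpow (Nat.cast_nonneg _) (Nat.cast_nonneg _)]
  push_cast
  ring

lemma gT_le (hy : ∀ j, ‖y j‖ ≤ K) (hw : ∀ j, 0 ≤ (w j).re) (n : ℕ) : ‖gT y w δ n‖ ≤ dv ((m * K : ℕ) : ℝ) n ^ 2 * (n : ℝ) ^ (-1 - 2 * δ) := by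
  unfold gT
  rw [norm_mul, norm_mul, Complex.norm_real, Real.norm_of_nonneg (Real.rpow_nonneg (Nat.cast_nonneg _) _), sq]
  have h1 := TC_le hy hw n
  have h2 := TC_le hy (cw_re hw) n
  gcongr
  exact dv_nonneg (Nat.cast_nonneg _) _

lemma gB_summable (hδ : 0 < δ) : Summable fun n : ℕ => dv ((m * K : ℕ) : ℝ) n ^ 2 * (n : ℝ) ^ (-1 - 2 * δ) := by
  refine Summable.of_nonneg_of_le (fun n => by positivity) (fun n => ?_) (dvJ_summable ((m * K) ^ 2) (σ := 2 * δ) (by linarith))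
  refine mul_le_mul_of_nonneg_right ?_ (Real.rpow_nonneg (Nat.cast_nonneg _) _)
  have := dv_sq_le (κ := ((m * K : ℕ) : ℝ)) (Nat.cast_nonneg _) n
  push_cast at this ⊢
  exact this

lemma gT_pp (hy : ∀ j, ‖y j‖ ≤ K) (hw : ∀ j, 0 ≤ (w j).re) (hδ : 0 ≤ δ) {p : ℕ} (hp : p.Prime) (e : ℕ) :
    ‖gT y w δ (p ^ e)‖ ≤ lc (((m * K : ℕ) : ℝ) ^ 2) e * (1 / (p : ℝ)) ^ e := by
  refine (gT_le hy hw _).trans ?_
  rw [dv_prime_pow _ hp]
  have h1 : (1 : ℝ) ≤ ((p ^ e : ℕ) : ℝ) := by exact_mod_cast Nat.one_le_pow _ _ hp.pos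
  have h2 : ((p ^ e : ℕ) : ℝ) ^ (-1 - 2 * δ) ≤ (1 / (p : ℝ)) ^ e := by
    calc ((p ^ e : ℕ) : ℝ) ^ (-1 - 2 * δ) ≤ ((p ^ e : ℕ) : ℝ) ^ (-1 : ℝ) := Real.rpow_le_rpow_of_exponent_le h1 (by linarith)
      _ = (1 / (p : ℝ)) ^ e := by
          rw [Real.rpow_neg_one]
          push_cast
          rw [one_div, inv_pow]
  exact mul_le_mul (lc_sq_le (Nat.cast_nonneg _) e) h2 (Real.rpow_nonneg (Nat.cast_nonneg _) _) (lc_nonneg (by positivity) _)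

lemma DC_prod (hy : ∀ j, ‖y j‖ ≤ K) (hw : ∀ j, 0 ≤ (w j).re) (hδ : 0 < δ) : HasProd (fun p : Nat.Primes => Eg y w δ p) (DC y w δ) := by
  refine EulerProduct.eulerProduct_hasProd (f := gT y w δ) (gT_one y w δ) (fun {a b} h => gT_mult y w δ h) ?_ (gT_zero y w δ)
  exact Summable.of_nonneg_of_le (fun n => norm_nonneg _) (fun n => gT_le hy hw n) (gB_summable hδ)

lemma Eg_two (hK : 0 < m * K) (hy : ∀ j, ‖y j‖ ≤ K) (hw : ∀ j, 0 ≤ (w j).re) (hδ : 0 ≤ δ) {p : ℕ} (hp : p.Prime) :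
    ‖Eg y w δ p - 1 - gT y w δ p‖ ≤ C0 ((m * K : ℕ) : ℝ) * (1 / (p : ℝ)) ^ 2 := by
  have hK' : (0:ℝ) < ((m * K : ℕ) : ℝ) := by exact_mod_cast hK
  have hp' := inv_prime hp
  have hsum : Summable fun e : ℕ => gT y w δ (p ^ e) :=
    Summable.of_norm_bounded (lc_summable (by positivity) hp'.1 (by linarith [hp'.2])) (fun e => gT_pp hy hw hδ hp e)
  have h1 : Eg y w δ p = 1 + gT y w δ p + ∑' e : ℕ, gT y w δ (p ^ (e + 2)) := by
    unfold Eg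
    rw [← hsum.sum_add_tsum_nat_add 2]
    simp only [sum_range_succ, sum_range_zero, pow_zero, pow_one, zero_add, gT_one]
  rw [h1]
  have e1 : 1 + gT y w δ p + ∑' e : ℕ, gT y w δ (p ^ (e + 2)) - 1 - gT y w δ p = ∑' e : ℕ, gT y w δ (p ^ (e + 2)) := by ring
  rw [e1]
  unfold C0
  rw [← tsum_mul_right]
  refine tsum_of_norm_bounded ((C0_summable hK').mul_right _).hasSum fun e => ?_
  refine (gT_pp hy hw hδ hp (e + 2)).trans ?_
  rw [pow_add, mul_assoc]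
  have h3 : (1 / (p : ℝ)) ^ e ≤ (1 / 2) ^ e := pow_le_pow_left₀ hp'.1.le hp'.2 e
  have h4 := lc_nonneg (α := ((m * K : ℕ) : ℝ) ^ 2) (by positivity) (e + 2)
  gcongr

lemma gT_p_le (hy : ∀ j, ‖y j‖ ≤ K) (hw : ∀ j, 0 ≤ (w j).re) (hδ : 0 ≤ δ) {p : ℕ} (hp : p.Prime) :
    ‖gT y w δ p‖ ≤ ((m * K : ℕ) : ℝ) ^ 2 * (1 / (p : ℝ)) := by
  have h1 := gT_pp hy hw hδ hp 1
  rwa [pow_one, lc_one, pow_one] at h1

/-- the constant -/
def cE (m K : ℕ) : ℝ := ((m * K : ℕ) : ℝ) ^ 4 * Real.exp (((m * K : ℕ) : ℝ) ^ 2) * (1 + ((m * K : ℕ) : ℝ) ^ 2 + C0 ((m * K : ℕ) : ℝ)) +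
  C0 ((m * K : ℕ) : ℝ) + ((m * K : ℕ) : ℝ) ^ 2 * (((m * K : ℕ) : ℝ) ^ 2 + C0 ((m * K : ℕ) : ℝ))

/-- the local factor of the regular part -/
lemma Ex_bd (hK : 0 < m * K) (hy : ∀ j, ‖y j‖ ≤ K) (hw : ∀ j, 0 ≤ (w j).re) (hδ : 0 ≤ δ) (p : Nat.Primes) :
    ‖Eg y w δ p * Complex.exp (-gT y w δ p) - 1‖ ≤ cE m K * (1 / ((p : ℕ) : ℝ)) ^ 2 := by
  have hK' : (0:ℝ) < ((m * K : ℕ) : ℝ) := by exact_mod_cast hK
  have hC0 := C0_nonneg hK'
  have hp' := inv_prime p.2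
  obtain ⟨x, hx⟩ : ∃ x : ℝ, x = 1 / ((p : ℕ) : ℝ) := ⟨_, rfl⟩
  obtain ⟨κ, hκ⟩ : ∃ κ : ℝ, κ = ((m * K : ℕ) : ℝ) ^ 2 := ⟨_, rfl⟩
  obtain ⟨c, hc⟩ : ∃ c : ℝ, c = C0 ((m * K : ℕ) : ℝ) := ⟨_, rfl⟩
  obtain ⟨g, hg⟩ : ∃ g : ℂ, g = gT y w δ p := ⟨_, rfl⟩
  obtain ⟨r, hr⟩ : ∃ r : ℂ, r = Eg y w δ p - 1 - g := ⟨_, rfl⟩
  have h1 := gT_p_le hy hw hδ p.2
  have h2 := Eg_two hK hy hw hδ p.2
  rw [← hx] at hp' h1 h2 ⊢
  rw [← hg] at h1 h2 ⊢
  rw [← hκ] at h1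
  rw [← hr, ← hc] at h2
  rw [← hc] at hC0
  have hx0 : 0 < x := hp'.1
  have hx1 : x ≤ 1 := by linarith [hp'.2]
  have hκ0 : 0 ≤ κ := by rw [hκ]; positivity
  obtain ⟨q, hq⟩ : ∃ q : ℂ, q = Complex.exp (-g) - 1 - (-g) := ⟨_, rfl⟩
  have h3 : ‖q‖ ≤ κ ^ 2 * Real.exp κ * x ^ 2 := by
    have h4 := Complex.norm_exp_sub_sum_le_norm_mul_exp (-g) 2
    have e1 : ∑ m ∈ range 2, (-g) ^ m / (m.factorial : ℂ) = 1 + -g := by
      simp [sum_range_succ]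
    rw [e1, norm_neg] at h4
    have e2 : q = Complex.exp (-g) - (1 + -g) := by rw [hq]; ring
    rw [e2]
    refine h4.trans ?_
    have h5 : ‖g‖ ^ 2 ≤ (κ * x) ^ 2 := pow_le_pow_left₀ (norm_nonneg _) h1 2
    have h6 : Real.exp ‖g‖ ≤ Real.exp κ := Real.exp_le_exp.mpr (h1.trans (mul_le_of_le_one_right hκ0 hx1))
    calc ‖g‖ ^ 2 * Real.exp ‖g‖ ≤ (κ * x) ^ 2 * Real.exp κ := mul_le_mul h5 h6 (Real.exp_pos _).le (by positivity)
      _ = _ := by ring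
  have hE : Eg y w δ p = 1 + g + r := by rw [hr]; ring
  have hX : Complex.exp (-g) = 1 - g + q := by rw [hq]; ring
  rw [hE, hX]
  have e3 : (1 + g + r) * (1 - g + q) - 1 = q * (1 + g + r) + r + -(g * (g + r)) := by ring
  rw [e3]
  have n1 : ‖(1:ℂ) + g + r‖ ≤ 1 + κ + c := by
    have a1 := norm_add_le ((1:ℂ) + g) r
    have a2 := norm_add_le (1:ℂ) g
    rw [norm_one] at a2
    have a3 : κ * x ≤ κ := mul_le_of_le_one_right hκ0 hx1
    have a4 : c * x ^ 2 ≤ c := mul_le_of_le_one_right hC0 (pow_le_one₀ hx0.le hx1)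
    linarith
  have n2 : ‖g + r‖ ≤ (κ + c) * x := by
    have a1 := norm_add_le g r
    have a2 : c * x ^ 2 ≤ c * x := by
      refine mul_le_mul_of_nonneg_left ?_ hC0
      rw [sq]
      exact mul_le_of_le_one_left hx0.le hx1
    linarith
  have t1 : ‖q * (1 + g + r)‖ ≤ κ ^ 2 * Real.exp κ * x ^ 2 * (1 + κ + c) := by
    rw [norm_mul]
    exact mul_le_mul h3 n1 (norm_nonneg _) (by positivity)
  have t2 : ‖g * (g + r)‖ ≤ κ * x * ((κ + c) * x) := by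
    rw [norm_mul]
    exact mul_le_mul h1 n2 (norm_nonneg _) (by positivity)
  calc ‖q * (1 + g + r) + r + -(g * (g + r))‖ ≤ ‖q * (1 + g + r)‖ + ‖r‖ + ‖g * (g + r)‖ := by
        have a1 := norm_add_le (q * (1 + g + r) + r) (-(g * (g + r)))
        have a2 := norm_add_le (q * (1 + g + r)) r
        rw [norm_neg] at a1
        linarith
    _ ≤ κ ^ 2 * Real.exp κ * x ^ 2 * (1 + κ + c) + c * x ^ 2 + κ * x * ((κ + c) * x) := by linarith
    _ = cE m K * x ^ 2 := by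
        unfold cE
        rw [← hκ, ← hc, hκ]
        ring

end

end

end Pool.Agent.X111.LB
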