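import Pool.Agent.X111.LB.Dc
import Pool.Agent.X111.PA.Pr

set_option autoImplicit false
set_option linter.unusedSectionVars false

/-! The diagonal sum for complex exponents: the regular part. -/

namespace Pool.Agent.X111.LB

open Finset MeasureTheory Filter Topology
open Pool.Agent.H306R2 (lc dv dA lc_nonneg lc_sq_le lc_summable C0 C0_summable C0_nonneg dv_nonneg dv_one dv_prime_pow lc_one dA_mult dA_apply inv_prime
  primes_summable dv_sq_le dvJ_summable dv_mono)
open Pool.Agent.X110.RR (tw2 tw2_apply Ty Ty_le)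
open Pool.Agent.X110.LT (dvC lcC dvC_ofReal dvC_norm_le dvC_mul dvC_prime_pow lcC_one dvC_diff lcC_cont)
open Pool.Agent.X111.MS (fT DG DG_ge uu uu_re pw_summable)
open Pool.Agent.X111.PA (SS)

noncomputable section

lemma tw2_conj (y : ℝ) (w : ℂ) (n : ℕ) : tw2 y ((starRingEnd ℂ) w) n = (starRingEnd ℂ) (tw2 y w n) := by
  rw [tw2_apply, tw2_apply, map_mul, Complex.conj_ofReal]
  have e1 : (starRingEnd ℂ) ((n : ℂ) ^ (-w)) = (n : ℂ) ^ (-(starRingEnd ℂ) w) := by
    have h4 := Complex.cpow_conj (n : ℂ) (-w) (by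
      rw [Complex.natCast_arg]
      exact Real.pi_ne_zero.symm)
    rw [map_neg] at h4
    rw [h4, Complex.conj_natCast]
  rw [e1]

lemma conj_prod {ι : Type} (s : Finset ι) (y : ι → ℝ) (w : ι → ℂ) : ∀ n : ℕ, (∏ j ∈ s, tw2 (y j) ((starRingEnd ℂ) (w j))) n =
    (starRingEnd ℂ) ((∏ j ∈ s, tw2 (y j) (w j)) n) := by
  classical
  induction s using Finset.induction_on with
  | empty =>
    intro n
    rw [prod_empty, prod_empty, ArithmeticFunction.one_apply]
    split_ifs <;> simp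
  | insert a s ha ih =>
    intro n
    rw [prod_insert ha, prod_insert ha, ArithmeticFunction.mul_apply, ArithmeticFunction.mul_apply, map_sum]
    refine Finset.sum_congr rfl fun x _ => ?_
    rw [ih, map_mul, tw2_conj]

section

variable {m K : ℕ} {w : Fin m → ℂ} {δ : ℝ}

/-- the terms for real exponents -/
lemma gT_real (y : Fin m → ℝ) (w : Fin m → ℂ) (δ : ℝ) (n : ℕ) : gT (fun j => (y j : ℂ)) w δ n = ((fT y w δ n : ℝ) : ℂ) := by
  have h1 : TC (fun j => (y j : ℂ)) w n = Ty y w n := by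
    unfold TC Ty
    simp only [tc_ofReal]
  have h2 : TC (fun j => (y j : ℂ)) (cw w) n = (starRingEnd ℂ) (Ty y w n) := by
    unfold TC Ty cw
    simp only [tc_ofReal]
    exact conj_prod _ _ _ n
  unfold gT fT
  rw [h1, h2, Complex.mul_conj, Complex.normSq_eq_norm_sq]
  push_cast
  rfl

/-- real exponents -/
lemma DC_real (y : Fin m → ℝ) (w : Fin m → ℂ) (δ : ℝ) : DC (fun j => (y j : ℂ)) w δ = ((DG y w δ : ℝ) : ℂ) := by
  unfold DC DG
  rw [Complex.ofReal_tsum]
  exact tsum_congr fun n => gT_real y w δ n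

/-- the prime terms -/
lemma gT_prime (y : Fin m → ℂ) (w : Fin m → ℂ) (δ : ℝ) {p : ℕ} (hp : p.Prime) :
    gT y w δ p = ∑ i, ∑ j, y i * y j * (p : ℂ) ^ (-(1 + uu δ (w i) (w j))) := by
  have hp0 : (p : ℂ) ≠ 0 := by exact_mod_cast hp.ne_zero
  have hpp : (0:ℝ) < p := by exact_mod_cast hp.pos
  unfold gT TC
  rw [cprod_prime _ _ _ hp, cprod_prime _ _ _ hp, Finset.sum_mul_sum, Finset.sum_mul]
  refine Finset.sum_congr rfl fun i _ => ?_
  rw [Finset.sum_mul]
  refine Finset.sum_congr rfl fun j _ => ?_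
  have e2 : (((p : ℝ) ^ (-1 - 2 * δ) : ℝ) : ℂ) = (p : ℂ) ^ ((-1 - 2 * δ : ℝ) : ℂ) := by
    rw [Complex.ofReal_cpow hpp.le, Complex.ofReal_natCast]
  rw [e2]
  have e3 : (p : ℂ) ^ (-(1 + uu δ (w i) (w j))) = (p : ℂ) ^ (-(w i)) * (p : ℂ) ^ (-(cw w j)) * (p : ℂ) ^ ((-1 - 2 * δ : ℝ) : ℂ) := by
    rw [← Complex.cpow_add _ _ hp0, ← Complex.cpow_add _ _ hp0]
    congr 1
    unfold uu cw
    push_cast
    ring
  rw [e3]
  ring

/-- the sum over the primes -/
def PP (u : ℂ) : ℂ := ∑' p : Nat.Primes, ((p : ℕ) : ℂ) ^ (-(1 + u))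

lemma PP_conj (u : ℂ) : PP ((starRingEnd ℂ) u) = (starRingEnd ℂ) (PP u) := by
  unfold PP
  rw [Complex.conj_tsum]
  refine tsum_congr fun p => ?_
  have h4 := Complex.cpow_conj ((p : ℕ) : ℂ) (-(1 + u)) (by
    rw [Complex.natCast_arg]
    exact Real.pi_ne_zero.symm)
  rw [map_neg, map_add, map_one] at h4
  rw [h4, Complex.conj_natCast]

lemma uu_conj (δ : ℝ) (a b : ℂ) : uu δ b a = (starRingEnd ℂ) (uu δ a b) := by
  unfold uu
  rw [map_add, map_add, Complex.conj_conj, Complex.conj_ofReal]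
  ring

lemma PP_re (u : ℂ) : (PP u).re = SS u := rfl

lemma sumC {y : Fin m → ℂ} (hw : ∀ j, 0 ≤ (w j).re) (hδ : 0 < δ) :
    ∑' p : Nat.Primes, gT y w δ p = ∑ i, ∑ j, y i * y j * ((SS (uu δ (w i) (w j)) : ℝ) : ℂ) := by
  have hu : ∀ i j, 0 < (uu δ (w i) (w j)).re := by
    intro i j
    rw [uu_re]
    linarith [hw i, hw j]
  have hij : ∀ i j, Summable fun p : Nat.Primes => ((p : ℕ) : ℂ) ^ (-(1 + uu δ (w i) (w j))) := by
    intro i j
    exact pw_summable (s := 1 + uu δ (w i) (w j)) (by rw [Complex.add_re, Complex.one_re]; linarith [hu i j])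
  have h2 : ∀ p : Nat.Primes, gT y w δ p = ∑ i, ∑ j, y i * y j * ((p : ℕ) : ℂ) ^ (-(1 + uu δ (w i) (w j))) := fun p => gT_prime y w δ p.2
  have h3 : ∑' p : Nat.Primes, gT y w δ p = ∑ i, ∑ j, y i * y j * PP (uu δ (w i) (w j)) := by
    simp_rw [h2]
    rw [Summable.tsum_finsetSum fun i _ => summable_sum fun j _ => (hij i j).mul_left _]
    refine Finset.sum_congr rfl fun i _ => ?_
    rw [Summable.tsum_finsetSum fun j _ => (hij i j).mul_left _]
    refine Finset.sum_congr rfl fun j _ => ?_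
    unfold PP
    rw [tsum_mul_left]
  have h4 : ∑ i, ∑ j, y i * y j * PP (uu δ (w i) (w j)) = ∑ i, ∑ j, y i * y j * (starRingEnd ℂ) (PP (uu δ (w i) (w j))) := by
    rw [Finset.sum_comm]
    refine Finset.sum_congr rfl fun i _ => Finset.sum_congr rfl fun j _ => ?_
    rw [← PP_conj, ← uu_conj, mul_comm (y j)]
  have h5 : 2 * ∑ i, ∑ j, y i * y j * PP (uu δ (w i) (w j)) = 2 * ∑ i, ∑ j, y i * y j * ((SS (uu δ (w i) (w j)) : ℝ) : ℂ) := by
    calc 2 * ∑ i, ∑ j, y i * y j * PP (uu δ (w i) (w j)) =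
        (∑ i, ∑ j, y i * y j * PP (uu δ (w i) (w j))) + ∑ i, ∑ j, y i * y j * (starRingEnd ℂ) (PP (uu δ (w i) (w j))) := by rw [← h4]; ring
      _ = _ := by
        rw [← Finset.sum_add_distrib, Finset.mul_sum]
        refine Finset.sum_congr rfl fun i _ => ?_
        rw [← Finset.sum_add_distrib, Finset.mul_sum]
        refine Finset.sum_congr rfl fun j _ => ?_
        rw [← mul_add, Complex.add_conj, PP_re]
        push_cast
        ring
  rw [h3]
  exact mul_left_cancel₀ two_ne_zero h5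

/-- the local factor of the regular part -/
def Ex (y w : Fin m → ℂ) (δ : ℝ) (p : ℕ) : ℂ := Eg y w δ p * Complex.exp (-gT y w δ p)

/-- the regular part -/
def RC (y w : Fin m → ℂ) (δ : ℝ) : ℂ := ∏' p : Nat.Primes, Ex y w δ p

lemma RC_prod (hK : 0 < m * K) {y : Fin m → ℂ} (hy : ∀ j, ‖y j‖ ≤ K) (hw : ∀ j, 0 ≤ (w j).re) (hδ : 0 ≤ δ) :
    HasProd (fun p : Nat.Primes => Ex y w δ p) (RC y w δ) := by
  have h : Summable fun p : Nat.Primes => Ex y w δ p - 1 :=
    Summable.of_norm_bounded (primes_summable.mul_left (cE m K)) fun p => Ex_bd hK hy hw hδ p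
  have h2 := Complex.multipliable_one_add_of_summable h
  simp only [add_sub_cancel] at h2
  exact h2.hasProd

/-- the factorization -/
theorem DC_eq (hK : 0 < m * K) {y : Fin m → ℂ} (hy : ∀ j, ‖y j‖ ≤ K) (hw : ∀ j, 0 ≤ (w j).re) (hδ : 0 < δ) :
    DC y w δ = RC y w δ * Complex.exp (∑ i, ∑ j, y i * y j * ((SS (uu δ (w i) (w j)) : ℝ) : ℂ)) := by
  have hs : Summable (fun p : Nat.Primes => gT y w δ p) :=
    (Summable.of_norm_bounded (gB_summable (m := m) (K := K) hδ) fun n => gT_le hy hw n).comp_injective Nat.Primes.coe_nat_injective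
  have h1 := hs.hasSum.cexp
  rw [sumC hw hδ] at h1
  have h2 := (RC_prod hK hy hw hδ.le).mul h1
  have h3 : (fun p : Nat.Primes => Ex y w δ p * (Complex.exp ∘ fun p : Nat.Primes => gT y w δ p) p) = fun p : Nat.Primes => Eg y w δ p := by
    funext p
    unfold Ex
    simp only [Function.comp]
    rw [mul_assoc, ← Complex.exp_add, neg_add_cancel, Complex.exp_zero, mul_one]
  rw [h3] at h2
  exact (DC_prod hy hw hδ).unique h2

/-- the line of exponents -/
def yl (b e : Fin m → ℝ) (z : ℂ) (j : Fin m) : ℂ := z * (b j : ℂ) + (e j : ℂ)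

lemma yl_real (b e : Fin m → ℝ) (x : ℝ) : yl b e x = fun j => ((x * b j + e j : ℝ) : ℂ) := by
  funext j
  unfold yl
  push_cast
  rfl

lemma tc_diff {b e : Fin m → ℝ} (j : Fin m) (w : ℂ) (n : ℕ) : Differentiable ℂ fun z => tc (yl b e z j) w n := by
  simp only [tc_apply]
  refine Differentiable.mul_const ?_ _
  exact (dvC_diff n).comp (by unfold yl; fun_prop)

lemma pc_diff {b e : Fin m → ℝ} (w : Fin m → ℂ) (s : Finset (Fin m)) : ∀ n : ℕ, Differentiable ℂ fun z => (∏ j ∈ s, tc (yl b e z j) (w j)) n := by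
  classical
  induction s using Finset.induction_on with
  | empty =>
    intro n
    simp only [prod_empty]
    exact differentiable_const _
  | insert a s ha ih =>
    intro n
    simp only [prod_insert ha, ArithmeticFunction.mul_apply]
    refine Differentiable.fun_sum fun x _ => ?_
    exact (tc_diff a _ x.1).mul (ih x.2)

/-- the diagonal sum is an entire function of the exponent -/
lemma DC_diff {b e : Fin m → ℝ} (hw : ∀ j, 0 ≤ (w j).re) (hδ : 0 < δ) : Differentiable ℂ fun z => DC (yl b e z) w δ := by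
  intro z₀
  obtain ⟨K, hK⟩ := exists_nat_ge ((‖z₀‖ + 1) * (∑ j, |b j|) + ∑ j, |e j|)
  have hy : ∀ z : ℂ, ‖z‖ ≤ ‖z₀‖ + 1 → ∀ j, ‖yl b e z j‖ ≤ K := by
    intro z hz j
    unfold yl
    refine (norm_add_le _ _).trans ?_
    rw [norm_mul, Complex.norm_real, Complex.norm_real, Real.norm_eq_abs, Real.norm_eq_abs]
    have h1 := Finset.single_le_sum (f := fun j => |b j|) (fun i _ => abs_nonneg _) (mem_univ j)
    have h2 := Finset.single_le_sum (f := fun j => |e j|) (fun i _ => abs_nonneg _) (mem_univ j)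
    have h3 : ‖z‖ * |b j| ≤ (‖z₀‖ + 1) * ∑ j, |b j| := mul_le_mul hz h1 (abs_nonneg _) (by positivity)
    linarith
  have h : DifferentiableOn ℂ (fun z => DC (yl b e z) w δ) (Metric.ball z₀ 1) := by
    unfold DC
    refine Complex.differentiableOn_tsum_of_summable_norm (gB_summable (m := m) (K := K) hδ) (fun n => ?_) Metric.isOpen_ball fun n z hz => ?_
    · unfold gT TC
      exact (((pc_diff w univ n).mul (pc_diff (cw w) univ n)).mul_const _).differentiableOn
    · refine gT_le (hy z ?_) hw n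
      rw [Metric.mem_ball, dist_eq_norm] at hz
      have := norm_sub_norm_le z z₀
      linarith
  exact (h z₀ (Metric.mem_ball_self one_pos)).differentiableAt (Metric.isOpen_ball.mem_nhds (Metric.mem_ball_self one_pos))

end

end

end Pool.Agent.X111.LB
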