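import Pool.Agent.X111.LB.Cd

set_option autoImplicit false
set_option linter.unusedSectionVars false

/-! Large values of a linear form of the logarithms: measure and conditional law. -/

namespace Pool.Agent.X111.LB

open Finset MeasureTheory Filter Topology
open Pool.Agent.X111.PA (zz zz_meas GS_m2 pd pd_nn pd_meas pd_int WW ell ell_symm log_uu ev_ll1 ee ee_tend YY YY_meas pd_exp cltn Hyp)
open Pool.Agent.X110.RR (GS)
open Pool.Agent.Y753.SHL (lf qf Nor)

noncomputable section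

variable {n : ℕ} {D X : Fin n → ℝ → ℝ} {d V L : ℝ → ℝ} {r : Fin n → Fin n → ℝ}

lemma GLv_fin (b : Fin n → ℝ) (c T : ℝ) : volume (GLv D X d V b c T) ≠ ⊤ := by
  have h0 : volume (Set.Ioc 0 T) ≠ ⊤ := by rw [Real.volume_Ioc]; exact ENNReal.ofReal_ne_top
  exact ne_top_of_le_ne_top h0 (measure_mono fun t ht => ht.1.1)

lemma vol_pos (h : Hyp D X d V L r) (b : Fin n → ℝ) (hv : 0 < ∑ i, ∑ j, b i * b j * r i j) (c : ℝ) :
    ∀ᶠ T : ℝ in atTop, 0 < (volume (GLv D X d V b c T)).toReal := by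
  have h1 := lim_vol h b hv c
  have hp : 0 < Ic c / Real.sqrt Real.pi := div_pos (Ic_pos c) (Real.sqrt_pos.mpr Real.pi_pos)
  obtain ⟨B, C, hC, hA⟩ := A0_bd h b hv
  filter_upwards [h1.eventually (lt_mem_nhds hp), hA] with T g1 g2
  by_contra hcon
  push Not at hcon
  have := mul_nonpos_of_nonneg_of_nonpos g2.1.le hcon
  linarith

/-- the conditional law in the good set -/
theorem cond_law (h : Hyp D X d V L r) (b : Fin n → ℝ) (hv : 0 < ∑ i, ∑ j, b i * b j * r i j) (c : ℝ) :
    ∃ ρ : ProbabilityMeasure (Fin n → ℝ), Nor (fun _ => 0) (CC r b) ρ ∧ ∀ F : BoundedContinuousFunction (Fin n → ℝ) ℝ,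
      Tendsto (fun T : ℝ => (∫ t in GLv D X d V b c T, F (YY D X d L b T t)) / (volume (GLv D X d V b c T)).toReal) atTop
        (𝓝 (∫ x, F x ∂(ρ : Measure (Fin n → ℝ)))) := by
  have hvol : ∀ T : ℝ, ∫ _ in GLv D X d V b c T, (1:ℝ) = (volume (GLv D X d V b c T)).toReal := by
    intro T
    simp [Measure.real]
  have hpos : ∀ (T : ℝ), 0 < V T → ∀ t ∈ GLv D X d V b c T, ∀ j, 0 < zz (d T) (WW D X d T) t j := fun T hV t ht j => Gd_pos hV ht.1 j
  have key : ∀ θ : Fin n → ℝ, ∀ᶠ T : ℝ in atTop, ∀ t ∈ GLv D X d V b c T, 1 * Real.exp (lf θ (YY D X d L b T t)) =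
      Real.exp (-(2 * BF D X b (ee L θ T) T)) * pd (d T) (WW D X d T) (ee L θ T) t := by
    intro θ
    filter_upwards [h.L_inf.eventually_gt_atTop 0, h.V_pos] with T hL hV t ht
    rw [one_mul]
    exact exp_lf hL (hpos T hV t ht)
  obtain ⟨ρ, hρ, hF⟩ := cltn (p := fun _ _ => (1:ℝ)) (Y := fun T => YY D X d L b T) (ms := fun T => volume.restrict (GLv D X d V b c T))
    (Eventually.of_forall fun T => ⟨measurable_const, fun _ => zero_le_one⟩) (Eventually.of_forall fun T => YY_meas b T) (by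
      filter_upwards [vol_pos h b hv c] with T hT
      refine ⟨?_, by rw [hvol]; exact hT⟩
      exact integrableOn_const (GLv_fin b c T)) (by
      intro θ
      filter_upwards [key θ, h.V_pos] with T h1 h2
      have h3 : IntegrableOn (fun t => Real.exp (-(2 * BF D X b (ee L θ T) T)) * pd (d T) (WW D X d T) (ee L θ T) t) (GLv D X d V b c T) :=
        ((pd_int (T := T) h2 (WW D X d T) (ee L θ T)).mono_set (fun t ht => ht.1)).const_mul _
      exact h3.congr_fun (fun t ht => (h1 t ht).symm) (GLv_meas b c T)) (CC_symm h b) (by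
      intro θ
      have h1 := lim_th h b θ hv c
      have h2 := lim_vol h b hv c
      have hpi := Real.sqrt_pos.mpr Real.pi_pos
      have hp : 0 < Ic c / Real.sqrt Real.pi := div_pos (Ic_pos c) hpi
      have h3 := h1.div h2 hp.ne'
      have h4 : Tendsto (fun T => Real.exp (BF D X θ θ T / L T / 2)) atTop (𝓝 (Real.exp (qf r θ / 2))) :=
        (Real.continuous_exp.tendsto _).comp ((BF_lim h θ θ).div_const 2)
      have h5 := h4.mul h3
      have e1 : Real.exp (qf r θ / 2) * (Real.exp (-(bL r b θ) ^ 2) / Real.sqrt Real.pi * Ic c / (Ic c / Real.sqrt Real.pi)) = Real.exp (qf (CC r b) θ / 2) := by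
        rw [qf_CC hv, sub_eq_add_neg, Real.exp_add]
        have := Ic_pos c
        field_simp
      rw [e1] at h5
      refine h5.congr' ?_
      filter_upwards [key θ, h.L_inf.eventually_gt_atTop 0, vol_pos h b hv c, (A0_bd h b hv).choose_spec.choose_spec.2] with T g1 g2 g3 g4
      have e2 : ∫ t in GLv D X d V b c T, 1 * Real.exp (lf θ (YY D X d L b T t)) =
          Real.exp (-(2 * BF D X b (ee L θ T) T)) * ∫ t in GLv D X d V b c T, pd (d T) (WW D X d T) (ee L θ T) t := by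
        rw [setIntegral_congr_fun (GLv_meas b c T) g1, integral_const_mul]
      simp only [Pi.div_apply]
      rw [e2, hvol]
      have e3 : Real.exp (-(2 * BF D X b (ee L θ T) T)) = Real.exp (BF D X θ θ T / L T / 2) *
          Real.exp (-(2 * BF D X b (ee L θ T) T + BF D X (ee L θ T) (ee L θ T) T)) := by
        rw [← Real.exp_add, BF_eee g2]
        congr 1
        ring
      rw [e3]
      have g4' := g4.1
      field_simp)
  refine ⟨ρ, hρ, fun F => ?_⟩
  have h1 := hF F
  simp only [one_mul, hvol] at h1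
  exact h1

/-- the large values -/
def FLv (D X : Fin n → ℝ → ℝ) (d : ℝ → ℝ) (b : Fin n → ℝ) (c T : ℝ) : Set ℝ := Set.Ioc 0 T ∩ {t | c ≤ Xc D X d b T t}

lemma FLv_meas (b : Fin n → ℝ) (c T : ℝ) : MeasurableSet (FLv D X d b c T) := measurableSet_Ioc.inter (cX_meas b c T)

lemma FLv_fin (b : Fin n → ℝ) (c T : ℝ) : volume (FLv D X d b c T) ≠ ⊤ := by
  have h0 : volume (Set.Ioc 0 T) ≠ ⊤ := by rw [Real.volume_Ioc]; exact ENNReal.ofReal_ne_top
  exact ne_top_of_le_ne_top h0 (measure_mono fun t ht => ht.1)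

lemma GF (b : Fin n → ℝ) (c T : ℝ) : GLv D X d V b c T ⊆ FLv D X d b c T := fun _ ht => ⟨ht.1.1, ht.2⟩

/-- the difference -/
lemma diff_bd (b : Fin n → ℝ) (c T : ℝ) {F : (Fin n → ℝ) → ℝ} (hF : Continuous F) {M : ℝ} (hM : ∀ x, |F x| ≤ M) :
    |(∫ t in FLv D X d b c T, F (YY D X d L b T t)) - ∫ t in GLv D X d V b c T, F (YY D X d L b T t)| ≤
      M * (volume (Set.Ioc 0 T \ GS (d T) (V T) (WW D X d T))).toReal := by
  have hM0 : 0 ≤ M := (abs_nonneg _).trans (hM (fun _ => 0))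
  have hm : Measurable fun t => F (YY D X d L b T t) := hF.measurable.comp (YY_meas b T)
  have hi : IntegrableOn (fun t => F (YY D X d L b T t)) (FLv D X d b c T) :=
    Measure.integrableOn_of_bounded (M := M) (FLv_fin b c T) hm.aestronglyMeasurable (Eventually.of_forall fun t => hM _)
  have hfin : volume (Set.Ioc 0 T \ GS (d T) (V T) (WW D X d T)) ≠ ⊤ :=
    (measure_lt_top_of_subset Set.sdiff_subset (by rw [Real.volume_Ioc]; exact ENNReal.ofReal_ne_top)).ne
  rw [← setIntegral_sdiff (GLv_meas b c T) hi (GF b c T)]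
  have h1 := norm_setIntegral_le_of_norm_le_const (μ := volume) (s := FLv D X d b c T \ GLv D X d V b c T) (f := fun t => F (YY D X d L b T t)) (C := M)
    (lt_of_le_of_lt (measure_mono Set.sdiff_subset) (lt_top_iff_ne_top.mpr (FLv_fin b c T))) (fun t _ => hM _)
  rw [Real.norm_eq_abs] at h1
  refine h1.trans (mul_le_mul_of_nonneg_left ?_ hM0)
  refine ENNReal.toReal_mono hfin (measure_mono fun t ht => ⟨ht.1.1, fun hg => ht.2 ⟨⟨ht.1.1, hg⟩, ht.1.2⟩⟩)

lemma A0_diff (h : Hyp D X d V L r) (b : Fin n → ℝ) (hv : 0 < ∑ i, ∑ j, b i * b j * r i j) (c : ℝ) (F : BoundedContinuousFunction (Fin n → ℝ) ℝ) :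
    Tendsto (fun T : ℝ => A0 D X d b T * (∫ t in FLv D X d b c T, F (YY D X d L b T t)) - A0 D X d b T * ∫ t in GLv D X d V b c T, F (YY D X d L b T t))
      atTop (𝓝 0) := by
  obtain ⟨B, C, hC, hA⟩ := A0_bd h b hv
  have h1 : Tendsto (fun T : ℝ => ‖F‖ * (C * (Real.log T)⁻¹)) atTop (𝓝 0) := by
    have h2 := (Real.tendsto_log_atTop.inv_tendsto_atTop.const_mul C).const_mul ‖F‖
    simpa using h2
  refine squeeze_zero_norm' ?_ h1
  filter_upwards [hA, h.bad B] with T g1 g2
  rw [← mul_sub, norm_mul, Real.norm_of_nonneg g1.1.le, Real.norm_eq_abs]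
  have h3 := diff_bd (D := D) (X := X) (d := d) (V := V) (L := L) b c T F.continuous (M := ‖F‖) (fun x => F.norm_coe_le_norm x)
  calc A0 D X d b T * _ ≤ A0 D X d b T * (‖F‖ * (T / Real.log T ^ B)) :=
        mul_le_mul_of_nonneg_left (h3.trans (mul_le_mul_of_nonneg_left g2 (norm_nonneg _))) g1.1.le
    _ = ‖F‖ * (A0 D X d b T * (T / Real.log T ^ B)) := by ring
    _ ≤ _ := mul_le_mul_of_nonneg_left g1.2 (norm_nonneg _)

/-- the measure of the large values -/
theorem vol_lim (h : Hyp D X d V L r) (b : Fin n → ℝ) (hv : 0 < ∑ i, ∑ j, b i * b j * r i j) (c : ℝ) :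
    Tendsto (fun T : ℝ => A0 D X d b T * (volume (FLv D X d b c T)).toReal) atTop (𝓝 (Ic c / Real.sqrt Real.pi)) := by
  have h1 := A0_diff h b hv c 1
  have h2 := h1.add (lim_vol h b hv c)
  rw [zero_add] at h2
  refine h2.congr fun T => ?_
  have e1 : ∀ S : Set ℝ, ∫ t in S, (1 : BoundedContinuousFunction (Fin n → ℝ) ℝ) (YY D X d L b T t) = (volume S).toReal := by
    intro S
    simp [Measure.real]
  rw [e1, e1]
  ring

theorem full_law (h : Hyp D X d V L r) (b : Fin n → ℝ) (hv : 0 < ∑ i, ∑ j, b i * b j * r i j) (c : ℝ) :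
    ∃ ρ : ProbabilityMeasure (Fin n → ℝ), Nor (fun _ => 0) (CC r b) ρ ∧ ∀ F : BoundedContinuousFunction (Fin n → ℝ) ℝ,
      Tendsto (fun T : ℝ => (∫ t in FLv D X d b c T, F (YY D X d L b T t)) / (volume (FLv D X d b c T)).toReal) atTop
        (𝓝 (∫ x, F x ∂(ρ : Measure (Fin n → ℝ)))) := by
  obtain ⟨ρ, hρ, hF⟩ := cond_law h b hv c
  refine ⟨ρ, hρ, fun F => ?_⟩
  have hp : 0 < Ic c / Real.sqrt Real.pi := div_pos (Ic_pos c) (Real.sqrt_pos.mpr Real.pi_pos)
  obtain ⟨B, C, hC, hA⟩ := A0_bd h b hv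
  have h1 : Tendsto (fun T : ℝ => A0 D X d b T * ∫ t in GLv D X d V b c T, F (YY D X d L b T t)) atTop
      (𝓝 ((∫ x, F x ∂(ρ : Measure (Fin n → ℝ))) * (Ic c / Real.sqrt Real.pi))) := by
    refine ((hF F).mul (lim_vol h b hv c)).congr' ?_
    filter_upwards [vol_pos h b hv c] with T hT
    have := hT.ne'
    field_simp
  have h2 := (A0_diff h b hv c F).add h1
  rw [zero_add] at h2
  have h3 := h2.div (vol_lim h b hv c) hp.ne'
  rw [mul_div_assoc, div_self hp.ne', mul_one] at h3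
  refine h3.congr' ?_
  filter_upwards [hA] with T g1
  have g1' := g1.1
  simp only [Pi.div_apply, sub_add_cancel]
  rw [mul_div_mul_left _ _ g1'.ne']

/-- the ratio of the measures -/
theorem vol_ratio (h : Hyp D X d V L r) (b : Fin n → ℝ) (hv : 0 < ∑ i, ∑ j, b i * b j * r i j) (c c' : ℝ) :
    Tendsto (fun T : ℝ => (volume (FLv D X d b c' T)).toReal / (volume (FLv D X d b c T)).toReal) atTop (𝓝 (Real.exp (-(2 * (c' - c))))) := by
  have hp : 0 < Ic c / Real.sqrt Real.pi := div_pos (Ic_pos c) (Real.sqrt_pos.mpr Real.pi_pos)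
  obtain ⟨B, C, hC, hA⟩ := A0_bd h b hv
  have h3 := (vol_lim h b hv c').div (vol_lim h b hv c) hp.ne'
  have e1 : Ic c' / Real.sqrt Real.pi / (Ic c / Real.sqrt Real.pi) = Real.exp (-(2 * (c' - c))) := by
    have hpi := Real.sqrt_pos.mpr Real.pi_pos
    unfold Ic
    have e2 : Real.exp (-(2 * c')) = Real.exp (-(2 * (c' - c))) * Real.exp (-(2 * c)) := by
      rw [← Real.exp_add]
      congr 1
      ring
    rw [e2]
    have := Real.exp_pos (-(2 * c))
    field_simp
  rw [e1] at h3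
  refine h3.congr' ?_
  filter_upwards [hA] with T g1
  simp only [Pi.div_apply]
  rw [mul_div_mul_left _ _ g1.1.ne']

/-- the order of the measure -/
theorem vol_order (h : Hyp D X d V L r) (b : Fin n → ℝ) (hv : 0 < ∑ i, ∑ j, b i * b j * r i j) (c : ℝ) :
    ∃ C : ℝ, 0 < C ∧ ∀ᶠ T : ℝ in atTop, 0 < BF D X b b T ∧
      C⁻¹ * (T * Real.exp (-BF D X b b T) / Real.sqrt (BF D X b b T)) ≤ (volume (FLv D X d b c T)).toReal ∧
      (volume (FLv D X d b c T)).toReal ≤ C * (T * Real.exp (-BF D X b b T) / Real.sqrt (BF D X b b T)) := by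
  have hp : 0 < Ic c / Real.sqrt Real.pi := div_pos (Ic_pos c) (Real.sqrt_pos.mpr Real.pi_pos)
  obtain ⟨p, hpd⟩ : ∃ p : ℝ, p = Ic c / Real.sqrt Real.pi := ⟨_, rfl⟩
  rw [← hpd] at hp
  obtain ⟨hP1, hP2⟩ := Pb_ge b
  obtain ⟨K, hPK⟩ : ∃ K : ℕ, Pb b ≤ K := exists_nat_ge _
  have hnK : 0 < n * K := by
    have h1 : (0:ℝ) < K := by linarith
    have h2 : 0 < K := by exact_mod_cast h1
    exact Nat.mul_pos h.n_pos h2
  obtain ⟨C2, hC2, H3⟩ := kS_bd (m := n) hnK
  obtain ⟨C, hCd⟩ : ∃ C : ℝ, C = 2 * p * Real.exp C2 + 2 / p * Real.exp C2 := ⟨_, rfl⟩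
  have hC0 : 0 < C := by rw [hCd]; positivity
  refine ⟨C, hC0, ?_⟩
  have hl := vol_lim h b hv c
  rw [← hpd] at hl
  filter_upwards [h.pos, h.rng 1 1 0 one_pos, (BF_inf h hv).eventually_gt_atTop 0, eventually_gt_atTop 0,
    hl.eventually (lt_mem_nhds (show p / 2 < p by linarith)), hl.eventually (gt_mem_nhds (show p < 2 * p by linarith))] with
    T hpp ⟨g1, g2, g3, g4, g5, g6⟩ hB0 hT0 k1 k2
  have ha : ∀ j, 0 ≤ D j T - d T ∧ D j T - d T ≤ 1 / 16 := fun j => by
    obtain ⟨a1, a2, a3⟩ := hpp j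
    exact ⟨by linarith, by linarith⟩
  have hk0 := kS_pos b (fun j => D j T - d T) (fun j => X j T) (d T)
  have hk1 := (H3 b (fun j => D j T - d T) (fun j => X j T) (d T) (fun j => (hP2 j).trans hPK) ha (fun j => (hpp j).2.2) g2 g3)
  have hkT : kT D X d b T = kS b (fun j => D j T - d T) (fun j => X j T) (d T) := rfl
  rw [← hkT] at hk0 hk1
  have hs0 := Real.sqrt_pos.mpr hB0
  obtain ⟨v, hvd⟩ : ∃ v : ℝ, v = (volume (FLv D X d b c T)).toReal := ⟨_, rfl⟩
  rw [← hvd] at k1 k2 ⊢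
  obtain ⟨k, hk⟩ : ∃ k : ℝ, k = kT D X d b T := ⟨_, rfl⟩
  obtain ⟨W, hW⟩ : ∃ W : ℝ, W = T * Real.exp (-BF D X b b T) / Real.sqrt (BF D X b b T) := ⟨_, rfl⟩
  have hW0 : 0 < W := by rw [hW]; positivity
  have hA : A0 D X d b T = 1 / (W * k) := by
    unfold A0
    rw [hW, hk, Real.exp_neg]
    have := Real.exp_pos (BF D X b b T)
    field_simp
  rw [← hk] at hk0 hk1
  rw [hA] at k1 k2
  have hWk : 0 < W * k := by positivity
  rw [one_div, inv_mul_eq_div] at k1 k2
  rw [lt_div_iff₀ hWk] at k1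
  rw [div_lt_iff₀ hWk] at k2
  rw [← hW]
  refine ⟨hB0, ?_, ?_⟩
  · rw [inv_mul_le_iff₀ hC0]
    have e1 : W ≤ 2 / p * Real.exp C2 * v := by
      have h5 : p / 2 * (W * k) ≤ v := k1.le
      have h6 : p / 2 * (W * Real.exp (-C2)) ≤ v := by
        refine le_trans ?_ h5
        gcongr
        exact hk1.1
      calc W = 2 / p * Real.exp C2 * (p / 2 * (W * Real.exp (-C2))) := by
            rw [Real.exp_neg]
            have := Real.exp_pos C2
            field_simp
        _ ≤ _ := by gcongr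
    have hv0 : 0 ≤ v := by rw [hvd]; exact ENNReal.toReal_nonneg
    calc W ≤ 2 / p * Real.exp C2 * v := e1
      _ ≤ C * v := by
        refine mul_le_mul_of_nonneg_right ?_ hv0
        rw [hCd]
        have : 0 < 2 * p * Real.exp C2 := by positivity
        linarith
  · calc v ≤ 2 * p * (W * k) := k2.le
      _ ≤ 2 * p * (W * Real.exp C2) := by
        gcongr
        exact hk1.2
      _ = 2 * p * Real.exp C2 * W := by ring
      _ ≤ C * W := by
        refine mul_le_mul_of_nonneg_right ?_ hW0.le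
        rw [hCd]
        have : 0 < 2 / p * Real.exp C2 := by positivity
        linarith

/-- the existence of a truncation -/
lemma exists_V {d : ℝ → ℝ} (h3 : Tendsto (fun T => d T * Real.log T / Real.log (Real.log T)) atTop atTop) : ∃ V : ℝ → ℝ,
    (∀ᶠ T : ℝ in atTop, 0 < V T) ∧ Tendsto (fun T => Real.log (V T) / Real.log (Real.log T)) atTop atTop ∧
    Tendsto (fun T => Real.log (V T) / (d T * Real.log T)) atTop (𝓝 0) := by
  have hll : Tendsto (fun T => Real.log (Real.log T)) atTop atTop := Real.tendsto_log_atTop.comp Real.tendsto_log_atTop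
  have h2 : ∀ᶠ T in atTop, 0 < d T := by
    filter_upwards [h3.eventually_gt_atTop 0, hll.eventually_gt_atTop 0, Real.tendsto_log_atTop.eventually_gt_atTop 0] with T g1 g2 g3
    by_contra hcon
    push Not at hcon
    have : d T * Real.log T / Real.log (Real.log T) ≤ 0 := div_nonpos_of_nonpos_of_nonneg (mul_nonpos_of_nonpos_of_nonneg hcon g3.le) g2.le
    linarith
  refine ⟨fun T => Real.exp (Real.sqrt (Real.log (Real.log T) * (d T * Real.log T))), Eventually.of_forall fun T => Real.exp_pos _, ?_, ?_⟩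
  · have h4 := Real.tendsto_sqrt_atTop.comp h3
    refine h4.congr' ?_
    filter_upwards [hll.eventually (eventually_gt_atTop 0), h2, Real.tendsto_log_atTop.eventually (eventually_gt_atTop 0)]
      with T g1 g2 g3
    simp only [Function.comp]
    rw [Real.log_exp, Real.sqrt_eq_iff_eq_sq (by positivity) (by positivity), div_pow, Real.sq_sqrt (by positivity)]
    field_simp
  · have h4 : Tendsto (fun T => Real.sqrt ((d T * Real.log T / Real.log (Real.log T))⁻¹)) atTop (𝓝 0) := by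
      have h5 := (Real.continuous_sqrt.tendsto 0).comp (tendsto_inv_atTop_zero.comp h3)
      rwa [Real.sqrt_zero] at h5
    refine h4.congr' ?_
    filter_upwards [hll.eventually (eventually_gt_atTop 0), h2, Real.tendsto_log_atTop.eventually (eventually_gt_atTop 0)]
      with T g1 g2 g3
    have hp : 0 < d T * Real.log T := by positivity
    rw [Real.log_exp, Real.sqrt_eq_iff_eq_sq (by positivity) (by positivity), div_pow, Real.sq_sqrt (by positivity)]
    field_simp

end

end Pool.Agent.X111.LB
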