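import Pool.Agent.X111.LB.Rc

set_option autoImplicit false
set_option linter.unusedSectionVars false

/-! The diagonal sum relative to the logarithms of the distances. -/

namespace Pool.Agent.X111.LB

open Finset MeasureTheory Filter Topology
open Pool.Agent.X111.MS (fT DG DG_ge uu uu_re pw_summable)
open Pool.Agent.X111.PA (SS SS_bd RR wv wv_re wv_im uu_norm)

noncomputable section

variable {m K : ℕ}

/-- the difference of the prime sums and the logarithms -/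
def ri (a b : Fin m → ℝ) (δ : ℝ) (i j : Fin m) : ℝ := SS (uu δ (wv a b i) (wv a b j)) + Real.log ‖uu δ (wv a b i) (wv a b j)‖

lemma ri_bd (m : ℕ) : ∃ C : ℝ, 0 < C ∧ ∀ (a b : Fin m → ℝ) (δ : ℝ), (∀ j, 0 ≤ a j ∧ a j ≤ 1 / 16) → (∀ j, |b j| ≤ 1) → 0 < δ → δ ≤ 1 / 16 →
    ∀ i j, |ri a b δ i j| ≤ C := by
  obtain ⟨C, hC, hS⟩ := SS_bd
  refine ⟨C, hC, fun a b δ ha hb hδ hδ1 i j => ?_⟩
  obtain ⟨u1, u2⟩ := uu_norm ha hb hδ hδ1 i j
  exact hS _ u1 u2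

/-- the quadratic form -/
def qr (y : Fin m → ℂ) (a b : Fin m → ℝ) (δ : ℝ) : ℂ := ∑ i, ∑ j, y i * y j * ((ri a b δ i j : ℝ) : ℂ)

/-- the logarithmic part -/
def ql (y : Fin m → ℂ) (a b : Fin m → ℝ) (δ : ℝ) : ℂ := ∑ i, ∑ j, y i * y j * (((-Real.log ‖uu δ (wv a b i) (wv a b j)‖ : ℝ)) : ℂ)

/-- the bounded part of the diagonal sum -/
def HS (y : Fin m → ℂ) (a b : Fin m → ℝ) (δ : ℝ) : ℂ := RC y (wv a b) δ * Complex.exp (qr y a b δ)

lemma HS_eq (hK : 0 < m * K) {y : Fin m → ℂ} {a b : Fin m → ℝ} {δ : ℝ} (hy : ∀ j, ‖y j‖ ≤ K) (ha : ∀ j, 0 ≤ a j) (hδ : 0 < δ) :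
    DC y (wv a b) δ = HS y a b δ * Complex.exp (ql y a b δ) := by
  rw [DC_eq hK hy (fun j => by rw [wv_re]; exact ha j) hδ]
  unfold HS
  rw [mul_assoc, ← Complex.exp_add]
  congr 2
  unfold qr ql ri
  rw [← Finset.sum_add_distrib]
  refine Finset.sum_congr rfl fun i _ => ?_
  rw [← Finset.sum_add_distrib]
  refine Finset.sum_congr rfl fun j _ => ?_
  push_cast
  ring

lemma qr_bd {C : ℝ} (hC : 0 ≤ C) {y : Fin m → ℂ} {a b : Fin m → ℝ} {δ : ℝ} (hy : ∀ j, ‖y j‖ ≤ K) (hr : ∀ i j, |ri a b δ i j| ≤ C) :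
    ‖qr y a b δ‖ ≤ (m * m) * (K * K * C) := by
  unfold qr
  refine (norm_sum_le _ _).trans ?_
  have h6 : ∀ i ∈ (univ : Finset (Fin m)), ‖∑ j, y i * y j * ((ri a b δ i j : ℝ) : ℂ)‖ ≤ m * (K * K * C) := by
    intro i _
    refine (norm_sum_le _ _).trans ?_
    have h7 : ∀ j ∈ (univ : Finset (Fin m)), ‖y i * y j * ((ri a b δ i j : ℝ) : ℂ)‖ ≤ K * K * C := by
      intro j _
      rw [norm_mul, norm_mul, Complex.norm_real, Real.norm_eq_abs]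
      exact mul_le_mul (mul_le_mul (hy i) (hy j) (norm_nonneg _) (Nat.cast_nonneg _)) (hr i j) (abs_nonneg _) (by positivity)
    refine (Finset.sum_le_sum h7).trans (le_of_eq ?_)
    rw [Finset.sum_const, card_univ, Fintype.card_fin, nsmul_eq_mul]
  refine (Finset.sum_le_sum h6).trans (le_of_eq ?_)
  rw [Finset.sum_const, card_univ, Fintype.card_fin, nsmul_eq_mul]
  ring

lemma qr_diff {C η : ℝ} (hC : 0 ≤ C) (hη : 0 ≤ η) {y y' : Fin m → ℂ} {a b : Fin m → ℝ} {δ : ℝ} (hy : ∀ j, ‖y j‖ ≤ K) (hy' : ∀ j, ‖y' j‖ ≤ K)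
    (hyy : ∀ j, ‖y j - y' j‖ ≤ η) (hr : ∀ i j, |ri a b δ i j| ≤ C) :
    ‖qr y a b δ - qr y' a b δ‖ ≤ (m * m) * (2 * K * η * C) := by
  unfold qr
  rw [← Finset.sum_sub_distrib]
  refine (norm_sum_le _ _).trans ?_
  have h6 : ∀ i ∈ (univ : Finset (Fin m)), ‖∑ j, y i * y j * ((ri a b δ i j : ℝ) : ℂ) - ∑ j, y' i * y' j * ((ri a b δ i j : ℝ) : ℂ)‖ ≤
      m * (2 * K * η * C) := by
    intro i _
    rw [← Finset.sum_sub_distrib]
    refine (norm_sum_le _ _).trans ?_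
    have h7 : ∀ j ∈ (univ : Finset (Fin m)), ‖y i * y j * ((ri a b δ i j : ℝ) : ℂ) - y' i * y' j * ((ri a b δ i j : ℝ) : ℂ)‖ ≤
        2 * K * η * C := by
      intro j _
      have e1 : y i * y j * ((ri a b δ i j : ℝ) : ℂ) - y' i * y' j * ((ri a b δ i j : ℝ) : ℂ) =
          ((y i - y' i) * y j + y' i * (y j - y' j)) * ((ri a b δ i j : ℝ) : ℂ) := by ring
      rw [e1, norm_mul, Complex.norm_real, Real.norm_eq_abs]
      refine mul_le_mul ?_ (hr i j) (abs_nonneg _) (by positivity)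
      refine (norm_add_le _ _).trans ?_
      rw [norm_mul, norm_mul]
      have g1 := mul_le_mul (hyy i) (hy j) (norm_nonneg _) hη
      have g2 := mul_le_mul (hy' i) (hyy j) (norm_nonneg _) (Nat.cast_nonneg K)
      linarith
    refine (Finset.sum_le_sum h7).trans (le_of_eq ?_)
    rw [Finset.sum_const, card_univ, Fintype.card_fin, nsmul_eq_mul]
  refine (Finset.sum_le_sum h6).trans (le_of_eq ?_)
  rw [Finset.sum_const, card_univ, Fintype.card_fin, nsmul_eq_mul]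
  ring

/-- boundedness -/
theorem HS_bdd (hK : 0 < m * K) : ∃ C : ℝ, 0 < C ∧ ∀ (y : Fin m → ℂ) (a b : Fin m → ℝ) (δ : ℝ),
    (∀ j, ‖y j‖ ≤ K) → (∀ j, 0 ≤ a j ∧ a j ≤ 1 / 16) → (∀ j, |b j| ≤ 1) → 0 < δ → δ ≤ 1 / 16 → ‖HS y a b δ‖ ≤ C := by
  obtain ⟨C1, hC1, h1⟩ := RC_bdd hK
  obtain ⟨C2, hC2, h2⟩ := ri_bd m
  refine ⟨C1 * Real.exp ((m * m) * (K * K * C2)), by positivity, fun y a b δ hy ha hb hδ hδ1 => ?_⟩
  unfold HS
  rw [norm_mul]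
  refine mul_le_mul (h1 y a b δ hy (fun j => ⟨(ha j).1, by linarith [(ha j).2]⟩) hb hδ.le (by linarith)) ?_ (norm_nonneg _) hC1.le
  rw [Complex.norm_exp]
  refine Real.exp_le_exp.mpr ?_
  exact (Complex.re_le_norm _).trans (qr_bd hC2.le hy (h2 a b δ ha hb hδ hδ1))

/-- uniform continuity -/
theorem HS_unif (hK : 0 < m * K) {ε : ℝ} (hε : 0 < ε) : ∃ η : ℝ, 0 < η ∧ ∀ (y y' : Fin m → ℂ) (a b : Fin m → ℝ) (δ : ℝ),
    (∀ j, ‖y j‖ ≤ K) → (∀ j, ‖y' j‖ ≤ K) → (∀ j, ‖y j - y' j‖ < η) → (∀ j, 0 ≤ a j ∧ a j ≤ 1 / 16) → (∀ j, |b j| ≤ 1) → 0 < δ → δ ≤ 1 / 16 →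
    ‖HS y a b δ - HS y' a b δ‖ < ε := by
  obtain ⟨C1, hC1, h1⟩ := RC_bdd hK
  obtain ⟨C2, hC2, h2⟩ := ri_bd m
  obtain ⟨E, hE⟩ : ∃ E : ℝ, E = Real.exp ((m * m) * (K * K * C2)) := ⟨_, rfl⟩
  have hE0 : 0 < E := by rw [hE]; exact Real.exp_pos _
  obtain ⟨η1, hη1, h3⟩ := RC_unif hK (show 0 < ε / (2 * E) by positivity)
  obtain ⟨G, hG⟩ : ∃ G : ℝ, G = (m * m) * (2 * K * C2) + 1 := ⟨_, rfl⟩
  have hG0 : 0 < G := by rw [hG]; positivity
  refine ⟨min η1 (min (1 / G) (ε / (4 * C1 * E * G))), lt_min hη1 (lt_min (by positivity) (by positivity)), fun y y' a b δ hy hy' hyy ha hb hδ hδ1 => ?_⟩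
  have ha' : ∀ j, 0 ≤ a j ∧ a j ≤ 1 := fun j => ⟨(ha j).1, by linarith [(ha j).2]⟩
  have g1 := h3 y y' a b δ hy hy' (fun j => (hyy j).trans_le (min_le_left _ _)) ha' hb hδ.le (by linarith)
  have g2 := h1 y' a b δ hy' ha' hb hδ.le (by linarith)
  obtain ⟨η, hη⟩ : ∃ η : ℝ, η = min (1 / G) (ε / (4 * C1 * E * G)) := ⟨_, rfl⟩
  have hη0 : 0 ≤ η := by rw [hη]; positivity
  have hηG : η * G ≤ 1 := by
    rw [← le_div_iff₀ hG0, hη]
    exact min_le_left _ _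
  have hηε : η * G ≤ ε / (4 * C1 * E) := by
    have h4 : η ≤ ε / (4 * C1 * E * G) := by rw [hη]; exact min_le_right _ _
    calc η * G ≤ ε / (4 * C1 * E * G) * G := mul_le_mul_of_nonneg_right h4 hG0.le
      _ = _ := by field_simp
  have g3 := qr_diff hC2.le hη0 hy hy' (fun j => ((hyy j).trans_le ((min_le_right _ _).trans (le_of_eq hη.symm))).le) (h2 a b δ ha hb hδ hδ1)
  have g4 : ‖qr y a b δ - qr y' a b δ‖ ≤ η * G := by
    refine g3.trans ?_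
    rw [hG]
    have : (0:ℝ) ≤ η := hη0
    calc (m * m : ℝ) * (2 * K * η * C2) = η * ((m * m) * (2 * K * C2)) := by ring
      _ ≤ η * ((m * m) * (2 * K * C2) + 1) := mul_le_mul_of_nonneg_left (by linarith) hη0
  have g5 := Complex.norm_exp_sub_one_le (g4.trans hηG)
  have hx : ∀ y : Fin m → ℂ, (∀ j, ‖y j‖ ≤ K) → ‖Complex.exp (qr y a b δ)‖ ≤ E := by
    intro y hy
    rw [Complex.norm_exp, hE]
    exact Real.exp_le_exp.mpr ((Complex.re_le_norm _).trans (qr_bd hC2.le hy (h2 a b δ ha hb hδ hδ1)))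
  have e1 : HS y a b δ - HS y' a b δ = (RC y (wv a b) δ - RC y' (wv a b) δ) * Complex.exp (qr y a b δ) +
      RC y' (wv a b) δ * (Complex.exp (qr y' a b δ) * (Complex.exp (qr y a b δ - qr y' a b δ) - 1)) := by
    unfold HS
    rw [mul_sub (Complex.exp (qr y' a b δ)), ← Complex.exp_add, add_sub_cancel]
    ring
  rw [e1]
  refine (norm_add_le _ _).trans_lt ?_
  have t1 : ‖(RC y (wv a b) δ - RC y' (wv a b) δ) * Complex.exp (qr y a b δ)‖ < ε / 2 := by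
    rw [norm_mul]
    calc ‖RC y (wv a b) δ - RC y' (wv a b) δ‖ * ‖Complex.exp (qr y a b δ)‖ ≤ ‖RC y (wv a b) δ - RC y' (wv a b) δ‖ * E :=
          mul_le_mul_of_nonneg_left (hx y hy) (norm_nonneg _)
      _ < ε / (2 * E) * E := mul_lt_mul_of_pos_right g1 hE0
      _ = ε / 2 := by field_simp
  have t2 : ‖RC y' (wv a b) δ * (Complex.exp (qr y' a b δ) * (Complex.exp (qr y a b δ - qr y' a b δ) - 1))‖ ≤ ε / 2 := by
    rw [norm_mul, norm_mul]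
    calc ‖RC y' (wv a b) δ‖ * (‖Complex.exp (qr y' a b δ)‖ * ‖Complex.exp (qr y a b δ - qr y' a b δ) - 1‖) ≤ C1 * (E * (2 * (ε / (4 * C1 * E)))) := by
          refine mul_le_mul g2 (mul_le_mul (hx y' hy') (g5.trans ?_) (norm_nonneg _) hE0.le) (by positivity) hC1.le
          exact mul_le_mul_of_nonneg_left (g4.trans hηε) (by norm_num)
      _ = ε / 2 := by field_simp; ring
  linarith

/-- the constant for real exponents -/
def kS (y : Fin m → ℝ) (a b : Fin m → ℝ) (δ : ℝ) : ℝ := Real.exp (RR y (wv a b) δ + ∑ i, ∑ j, y i * y j * ri a b δ i j)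

lemma kS_pos (y : Fin m → ℝ) (a b : Fin m → ℝ) (δ : ℝ) : 0 < kS y a b δ := Real.exp_pos _

lemma HS_real (hK : 0 < m * K) {y : Fin m → ℝ} {a b : Fin m → ℝ} {δ : ℝ} (hy : ∀ j, |y j| ≤ K) (ha : ∀ j, 0 ≤ a j) (hδ : 0 < δ) :
    HS (fun j => (y j : ℂ)) a b δ = ((kS y a b δ : ℝ) : ℂ) := by
  unfold HS kS
  rw [RC_real hK hy (fun j => by rw [wv_re]; exact ha j) hδ, Real.exp_add, Complex.ofReal_mul, Complex.ofReal_exp (∑ i, ∑ j, y i * y j * ri a b δ i j)]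
  congr 2
  unfold qr
  push_cast
  rfl

/-- bounds for the constant -/
theorem kS_bd (hK : 0 < m * K) : ∃ C : ℝ, 0 < C ∧ ∀ (y : Fin m → ℝ) (a b : Fin m → ℝ) (δ : ℝ),
    (∀ j, |y j| ≤ K) → (∀ j, 0 ≤ a j ∧ a j ≤ 1 / 16) → (∀ j, |b j| ≤ 1) → 0 < δ → δ ≤ 1 / 16 →
    Real.exp (-C) ≤ kS y a b δ ∧ kS y a b δ ≤ Real.exp C := by
  obtain ⟨C1, hC1, h1⟩ := RR_bdd hK
  obtain ⟨C2, hC2, h2⟩ := ri_bd m
  refine ⟨C1 + (m * m) * (K * K * C2), by positivity, fun y a b δ hy ha hb hδ hδ1 => ?_⟩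
  have g1 := h1 y a b δ hy (fun j => ⟨(ha j).1, by linarith [(ha j).2]⟩) hb hδ.le (by linarith)
  have g2 : |∑ i, ∑ j, y i * y j * ri a b δ i j| ≤ (m * m) * (K * K * C2) := by
    have g3 := qr_bd (y := fun j => (y j : ℂ)) hC2.le (K := K) (fun j => by rw [Complex.norm_real, Real.norm_eq_abs]; exact hy j) (h2 a b δ ha hb hδ hδ1)
    have e1 : qr (fun j => (y j : ℂ)) a b δ = ((∑ i, ∑ j, y i * y j * ri a b δ i j : ℝ) : ℂ) := by
      unfold qr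
      push_cast
      rfl
    rwa [e1, Complex.norm_real, Real.norm_eq_abs] at g3
  obtain ⟨a1, a2⟩ := abs_le.mp g1
  obtain ⟨b1, b2⟩ := abs_le.mp g2
  unfold kS
  exact ⟨Real.exp_le_exp.mpr (by linarith), Real.exp_le_exp.mpr (by linarith)⟩

end

end Pool.Agent.X111.LB
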