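import Pool.Agent.X111.LB.Lo

set_option autoImplicit false
set_option linter.unusedSectionVars false

/-! The local limit theorem for a linear form of the logarithms: the limit. -/

namespace Pool.Agent.X111.LB

open Finset MeasureTheory Filter Topology
open Pool.Agent.X111.PA (zz zz_meas GS_m2 pd pd_nn pd_meas pd_int WW ell ell_symm log_uu ev_ll1 ee ee_tend)
open Pool.Agent.X110.LT (Phi exp_unit)
open Pool.Agent.Y753.SHL (lf qf Nor)

noncomputable section

variable {n : ℕ} {D X : Fin n → ℝ → ℝ} {d V L : ℝ → ℝ} {r : Fin n → Fin n → ℝ}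

lemma BF_inf (h : Pool.Agent.X111.PA.Hyp D X d V L r) {b : Fin n → ℝ} (hv : 0 < ∑ i, ∑ j, b i * b j * r i j) :
    Tendsto (BF D X b b) atTop atTop := by
  have h1 := (BF_lim h b b).pos_mul_atTop hv h.L_inf
  refine h1.congr' ?_
  filter_upwards [h.L_inf.eventually_gt_atTop 0] with T hT
  rw [div_mul_cancel₀ _ hT.ne']

lemma ee_small (h : Pool.Agent.X111.PA.Hyp D X d V L r) (θ : Fin n → ℝ) {η : ℝ} (hη : 0 < η) : ∀ᶠ T : ℝ in atTop, ∀ j, |ee L θ T j| < η := by
  rw [eventually_all]
  intro j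
  have h4 := (ee_tend h.L_inf θ j).abs
  rw [abs_zero] at h4
  exact h4.eventually (gt_mem_nhds hη)

/-- the local limit theorem -/
theorem loc (h : Pool.Agent.X111.PA.Hyp D X d V L r) (b θ : Fin n → ℝ) (hv : 0 < ∑ i, ∑ j, b i * b j * r i j) :
    Loc (fun T => volume.restrict (Gd (d T) (V T) T (WW D X d T))) (fun T t => Wt D X d b (ee L θ T) T t) (Xc D X d b) (aT D X d L b θ)
      (Real.exp (-(bL r b θ) ^ 2) / Real.sqrt Real.pi) := by
  have hpi := Real.sqrt_pos.mpr Real.pi_pos
  have hBi := BF_inf h hv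
  refine ⟨by positivity, ?_, fun T t => pd_nn _ _ _ _, fun T => pd_meas _ _ _, fun T => Xc_meas b T, ?_, ?_⟩
  · filter_upwards [hBi.eventually_gt_atTop 0, eventually_gt_atTop 0] with T g1 g2
    have hk0 : 0 < kT D X d b T := kS_pos _ _ _ _
    have := Real.sqrt_pos.mpr g1
    unfold aT
    positivity
  · filter_upwards [h.V_pos] with T hT
    exact pd_int hT _ _
  intro φ hφ hc
  obtain ⟨Y, hY⟩ : ∃ Y : ℝ, ∀ y, Y < |y| → φ y = 0 := by
    obtain ⟨R, hR⟩ := hc.isCompact.isBounded.subset_closedBall (0:ℝ)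
    refine ⟨R, fun y hy => ?_⟩
    by_contra hne
    have := hR (subset_tsupport φ (Function.mem_support.mpr hne))
    rw [Metric.mem_closedBall, dist_zero_right, Real.norm_eq_abs] at this
    linarith
  obtain ⟨M, hM'⟩ := hφ.bounded_above_of_compact_support hc
  have hM0 : 0 ≤ M := (norm_nonneg _).trans (hM' 0)
  obtain ⟨C, hC0, hC⟩ := nm_bdd h b (r0 := 1 + |Y|) (by positivity)
  have hs : Tendsto (fun T => Real.sqrt (BF D X b b T)) atTop atTop := Real.tendsto_sqrt_atTop.comp hBi
  have hev : ∀ᶠ T : ℝ in atTop, ((aT D X d L b θ T : ℝ) : ℂ) * ∫ t in Gd (d T) (V T) T (WW D X d T), ((Wt D X d b (ee L θ T) T t : ℝ) : ℂ) *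
      Phi φ (Xc D X d b T t) = ∫ u : ℝ, FT D X d V L b θ φ T u := by
    filter_upwards [h.V_pos, hBi.eventually_gt_atTop 0, eventually_gt_atTop 0] with T g1 g2 g3
    exact chv g1 g3 g2 hφ hc
  refine Tendsto.congr' (EventuallyEq.symm hev) ?_
  have hgauss : ∫ u : ℝ, φ 0 * (Complex.exp (((-(u ^ 2 / 4) : ℝ) : ℂ) + ((u * bL r b θ : ℝ) : ℂ) * Complex.I) * 1) =
      φ 0 * ((2 * Real.pi * (Real.exp (-(bL r b θ) ^ 2) / Real.sqrt Real.pi) : ℝ) : ℂ) := by
    simp only [mul_one]
    rw [integral_const_mul, gint]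
    congr 2
    have h5 := Real.mul_self_sqrt Real.pi_pos.le
    obtain ⟨s, hsd⟩ : ∃ s : ℝ, s = Real.sqrt Real.pi := ⟨_, rfl⟩
    rw [← hsd] at h5 hpi ⊢
    rw [← h5]
    field_simp
  rw [← hgauss]
  refine tendsto_integral_filter_of_dominated_convergence (fun u => M * C * Real.exp (-(1 / 4) * u ^ 2)) ?_ ?_ ?_ ?_
  · filter_upwards [h.V_pos] with T g1
    have c1 : Continuous fun u : ℝ => ((u / Real.sqrt (BF D X b b T) : ℝ) : ℂ) := by fun_prop
    have c2 : Continuous fun z : ℂ => NM D X d V b (ee L θ T) T z := by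
      unfold NM QQf
      exact Continuous.mul (by fun_prop) (MC_diff g1 _ _ _).continuous
    have c3 : Continuous (FT D X d V L b θ φ T) := by
      unfold FT
      refine (hφ.comp (by fun_prop)).mul (Continuous.mul (by fun_prop) (c2.comp ?_))
      exact continuous_const.add ((c1.div_const _).mul continuous_const)
    exact c3.aestronglyMeasurable
  · filter_upwards [hC, hBi.eventually_gt_atTop 0, ee_small h θ one_pos] with T g1 g2 g3
    refine Eventually.of_forall fun u => ?_
    unfold FT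
    by_cases hu : Y < |u / Real.sqrt (BF D X b b T)|
    · rw [hY _ hu, zero_mul, norm_zero]
      positivity
    · push Not at hu
      have hz : ‖((1 : ℂ) + ((u / Real.sqrt (BF D X b b T) : ℝ) : ℂ) / 2 * Complex.I)‖ ≤ 1 + |Y| := by
        refine (norm_add_le _ _).trans ?_
        rw [norm_one, norm_mul, norm_div, Complex.norm_real, Complex.norm_I, Real.norm_eq_abs]
        have h3 : ‖(2:ℂ)‖ = 2 := by simp
        rw [h3]
        have h4 := hu.trans (le_abs_self Y)
        have h5 := abs_nonneg (u / Real.sqrt (BF D X b b T))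
        linarith
      have h6 := g1 (ee L θ T) (fun j => (g3 j).le) _ hz
      have h8 : ‖Complex.exp (((-(u ^ 2 / 4) : ℝ) : ℂ) + ((u * bT D X L b θ T : ℝ) : ℂ) * Complex.I)‖ = Real.exp (-(1 / 4) * u ^ 2) := by
        rw [Complex.norm_exp]
        congr 1
        rw [Complex.add_re, Complex.ofReal_re, Complex.mul_I_re, Complex.ofReal_im]
        ring
      rw [norm_mul, norm_mul, h8]
      calc _ ≤ M * (Real.exp (-(1 / 4) * u ^ 2) * C) := by
            gcongr
            exact hM' _
        _ = _ := by ring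
  · exact (integrable_exp_neg_mul_sq (by norm_num)).const_mul _
  · refine Eventually.of_forall fun u => ?_
    unfold FT
    have h1 : Tendsto (fun T => u / Real.sqrt (BF D X b b T)) atTop (𝓝 0) := tendsto_const_nhds.div_atTop hs
    have h2 : Tendsto (fun T => φ (u / Real.sqrt (BF D X b b T))) atTop (𝓝 (φ 0)) := (hφ.tendsto 0).comp h1
    refine h2.mul (Tendsto.mul ?_ ?_)
    · have h3 := ((bT_lim h b θ hv).const_mul u)
      have h4 : Tendsto (fun T => ((-(u ^ 2 / 4) : ℝ) : ℂ) + ((u * bT D X L b θ T : ℝ) : ℂ) * Complex.I) atTop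
          (𝓝 (((-(u ^ 2 / 4) : ℝ) : ℂ) + ((u * bL r b θ : ℝ) : ℂ) * Complex.I)) :=
        tendsto_const_nhds.add (((Complex.continuous_ofReal.tendsto _).comp h3).mul_const _)
      exact (Complex.continuous_exp.tendsto _).comp h4
    · rw [Metric.tendsto_nhds]
      intro ε hε
      obtain ⟨η, hη, hlim⟩ := nm_lim h b hε
      have h4 : Tendsto (fun T => ((1 : ℂ) + ((u / Real.sqrt (BF D X b b T) : ℝ) : ℂ) / 2 * Complex.I)) atTop (𝓝 1) := by
        have h5 := (((Complex.continuous_ofReal.tendsto 0).comp h1).div_const 2).mul_const Complex.I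
        have h6 := h5.const_add (1 : ℂ)
        simpa using h6
      rw [Metric.tendsto_nhds] at h4
      filter_upwards [hlim, ee_small h θ hη, h4 η hη] with T g1 g2 g3
      rw [dist_eq_norm] at g3 ⊢
      exact g1 _ g2 _ g3

end

end Pool.Agent.X111.LB
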