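import Pool.Agent.X111.LB.Nm
import Pool.Agent.X111.LB.Ab

set_option autoImplicit false
set_option linter.unusedSectionVars false

/-! The local limit theorem for a linear form of the logarithms. -/

namespace Pool.Agent.X111.LB

open Finset MeasureTheory Filter Topology
open Pool.Agent.X111.PA (zz zz_meas GS_m2 pd pd_nn pd_meas pd_int WW ell ell_symm log_uu ev_ll1 ee ee_tend)
open Pool.Agent.X110.LT (Phi exp_unit)
open Pool.Agent.Y753.SHL (lf qf Nor)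

noncomputable section

variable {n : ℕ} {D X : Fin n → ℝ → ℝ} {d V L : ℝ → ℝ} {r : Fin n → Fin n → ℝ}

/-- the centred form -/
def Xc (D X : Fin n → ℝ → ℝ) (d : ℝ → ℝ) (b : Fin n → ℝ) (T t : ℝ) : ℝ := Xb (d T) (WW D X d T) b t - BF D X b b T

/-- the tilted weight -/
def Wt (D X : Fin n → ℝ → ℝ) (d : ℝ → ℝ) (b e : Fin n → ℝ) (T t : ℝ) : ℝ := pd (d T) (WW D X d T) (fun j => b j + e j) t

lemma Wt_eq {b e : Fin n → ℝ} {T t : ℝ} (hz : ∀ j, 0 < zz (d T) (WW D X d T) t j) (y : ℝ) :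
    ((Wt D X d b e T t : ℝ) : ℂ) * Complex.exp (y * (Xc D X d b T t : ℝ) * Complex.I) =
      Complex.exp (-(y * (BF D X b b T : ℝ) * Complex.I)) *
        (((pd (d T) (WW D X d T) e t : ℝ) : ℂ) * Complex.exp (2 * (1 + y / 2 * Complex.I) * ((Xb (d T) (WW D X d T) b t : ℝ) : ℂ))) := by
  have h1 := pd_line hz b e 2
  have h2 : (fun j => 2 / 2 * b j + e j) = fun j => b j + e j := by
    funext j
    ring
  rw [h2] at h1
  unfold Wt Xc
  rw [← h1]
  have e1 : Complex.exp (2 * ((Xb (d T) (WW D X d T) b t : ℝ) : ℂ)) *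
      Complex.exp (y * ((Xb (d T) (WW D X d T) b t : ℝ) - (BF D X b b T : ℝ)) * Complex.I) =
      Complex.exp (-(y * (BF D X b b T : ℝ) * Complex.I)) * Complex.exp (2 * (1 + y / 2 * Complex.I) * ((Xb (d T) (WW D X d T) b t : ℝ) : ℂ)) := by
    rw [← Complex.exp_add, ← Complex.exp_add]
    congr 1
    ring
  push_cast
  linear_combination ((pd (d T) (WW D X d T) e t : ℝ) : ℂ) * e1

lemma J_eq {b e : Fin n → ℝ} {T : ℝ} (hV : 0 < V T) (hT : 0 < T) (y : ℝ) :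
    ∫ t in Gd (d T) (V T) T (WW D X d T), ((Wt D X d b e T t : ℝ) : ℂ) * Complex.exp (y * (Xc D X d b T t : ℝ) * Complex.I) =
      Complex.exp (-(y * (BF D X b b T : ℝ) * Complex.I)) * ((T : ℂ) * MC (d T) (V T) T (WW D X d T) b e (1 + y / 2 * Complex.I)) := by
  rw [setIntegral_congr_fun (Gd_meas _ _ _ _) fun t ht => Wt_eq (fun j => Gd_pos hV ht j) y, integral_const_mul]
  congr 1
  unfold MC
  have hT' : (T : ℂ) ≠ 0 := by exact_mod_cast hT.ne'
  field_simp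

lemma Xc_meas (b : Fin n → ℝ) (T : ℝ) : Measurable (Xc D X d b T) := (Xb_meas _ _ _).sub_const _

lemma Wphi {b e : Fin n → ℝ} {T : ℝ} (hV : 0 < V T) (hT : 0 < T) {φ : ℝ → ℂ} (hφ : Continuous φ) (hc : HasCompactSupport φ) :
    ∫ t in Gd (d T) (V T) T (WW D X d T), ((Wt D X d b e T t : ℝ) : ℂ) * Phi φ (Xc D X d b T t) =
      ∫ y : ℝ, φ y * (Complex.exp (-(y * (BF D X b b T : ℝ) * Complex.I)) * ((T : ℂ) * MC (d T) (V T) T (WW D X d T) b e (1 + y / 2 * Complex.I))) := by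
  have hφi : Integrable φ := hφ.integrable_of_hasCompactSupport hc
  obtain ⟨ν, hν⟩ : ∃ ν : Measure ℝ, ν = (volume : Measure ℝ).restrict (Gd (d T) (V T) T (WW D X d T)) := ⟨_, rfl⟩
  have : SFinite ν := by rw [hν]; infer_instance
  obtain ⟨w, hw⟩ : ∃ w : ℝ → ℂ, w = fun t => ((Wt D X d b e T t : ℝ) : ℂ) := ⟨_, rfl⟩
  have hwi : Integrable w ν := by
    rw [hw, hν]
    exact (pd_int (T := T) (δ := d T) hV (WW D X d T) (fun j => b j + e j)).ofReal
  have hprod : Integrable (fun p : ℝ × ℝ => w p.1 * φ p.2) (ν.prod volume) := hwi.mul_prod hφi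
  have hmeas : Measurable fun p : ℝ × ℝ => Complex.exp (p.2 * (Xc D X d b T p.1 : ℝ) * Complex.I) := by
    have h1 := (Xc_meas (D := D) (X := X) (d := d) b T).comp (measurable_fst : Measurable (Prod.fst : ℝ × ℝ → ℝ))
    have h2 : Measurable fun p : ℝ × ℝ => ((Xc D X d b T p.1 : ℝ) : ℂ) := Complex.measurable_ofReal.comp h1
    exact Complex.measurable_exp.comp (((Complex.measurable_ofReal.comp measurable_snd).mul h2).mul_const _)
  have hI : Integrable (Function.uncurry fun (t y : ℝ) => w t * (φ y * Complex.exp (y * (Xc D X d b T t : ℝ) * Complex.I))) (ν.prod volume) := by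
    have h1 : (Function.uncurry fun (t y : ℝ) => w t * (φ y * Complex.exp (y * (Xc D X d b T t : ℝ) * Complex.I))) =
        fun p : ℝ × ℝ => (w p.1 * φ p.2) * Complex.exp (p.2 * (Xc D X d b T p.1 : ℝ) * Complex.I) := by
      funext p
      simp only [Function.uncurry]
      ring
    rw [h1]
    refine hprod.mul_bdd (c := 1) hmeas.aestronglyMeasurable (Eventually.of_forall fun p => ?_)
    have h2 : (p.2 : ℂ) * (Xc D X d b T p.1 : ℝ) * Complex.I = ((p.2 * Xc D X d b T p.1 : ℝ) : ℂ) * Complex.I := by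
      push_cast; ring
    rw [h2, exp_unit]
  have e1 : ∫ t, w t * Phi φ (Xc D X d b T t) ∂ν =
      ∫ y : ℝ, φ y * ∫ t, w t * Complex.exp (y * (Xc D X d b T t : ℝ) * Complex.I) ∂ν := by
    have h1 : ∫ t, w t * Phi φ (Xc D X d b T t) ∂ν =
        ∫ t, (∫ y : ℝ, w t * (φ y * Complex.exp (y * (Xc D X d b T t : ℝ) * Complex.I))) ∂ν := by
      refine integral_congr_ae (Eventually.of_forall fun t => ?_)
      simp only [Phi]
      rw [← integral_const_mul]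
    rw [h1, integral_integral_swap hI]
    refine integral_congr_ae (Eventually.of_forall fun y => ?_)
    simp only
    rw [← integral_const_mul]
    refine integral_congr_ae (Eventually.of_forall fun t => ?_)
    simp only
    ring
  have e2 : ∫ t in Gd (d T) (V T) T (WW D X d T), ((Wt D X d b e T t : ℝ) : ℂ) * Phi φ (Xc D X d b T t) = ∫ t, w t * Phi φ (Xc D X d b T t) ∂ν := by
    rw [hw, hν]
  rw [e2, e1]
  refine integral_congr_ae (Eventually.of_forall fun y => ?_)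
  simp only
  rw [← J_eq hV hT y, hw, hν]

/-- the Gaussian integral -/
lemma gint (β : ℝ) : ∫ u : ℝ, Complex.exp (((-(u ^ 2 / 4) : ℝ) : ℂ) + ((u * β : ℝ) : ℂ) * Complex.I) = ((2 * Real.sqrt Real.pi * Real.exp (-β ^ 2) : ℝ) : ℂ) := by
  have h := integral_cexp_quadratic (b := (-(1 / 4) : ℂ)) (by norm_num) ((β : ℂ) * Complex.I) 0
  have e1 : ∀ u : ℝ, ((-(u ^ 2 / 4) : ℝ) : ℂ) + ((u * β : ℝ) : ℂ) * Complex.I = (-(1 / 4) : ℂ) * (u : ℂ) ^ 2 + (β : ℂ) * Complex.I * u + 0 := by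
    intro u
    push_cast
    ring
  simp_rw [e1]
  rw [h]
  have e2 : ((Real.pi : ℂ) / -(-(1 / 4))) ^ (1 / 2 : ℂ) = ((2 * Real.sqrt Real.pi : ℝ) : ℂ) := by
    have h1 : ((Real.pi : ℂ) / -(-(1 / 4))) = ((2 ^ 2 * Real.pi : ℝ) : ℂ) := by
      push_cast
      ring
    have h2 : (1 / 2 : ℂ) = ((1 / 2 : ℝ) : ℂ) := by push_cast; rfl
    rw [h1, h2, ← Complex.ofReal_cpow (by positivity), ← Real.sqrt_eq_rpow, Real.sqrt_mul (by norm_num), Real.sqrt_sq (by norm_num)]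
  rw [e2]
  have e3 : (0:ℂ) - ((β : ℂ) * Complex.I) ^ 2 / (4 * -(1 / 4)) = ((-β ^ 2 : ℝ) : ℂ) := by
    rw [mul_pow, Complex.I_sq]
    push_cast
    ring
  rw [e3, ← Complex.ofReal_exp, ← Complex.ofReal_mul]

/-- limits of the forms -/
lemma BF_lim (h : Pool.Agent.X111.PA.Hyp D X d V L r) (x y : Fin n → ℝ) :
    Tendsto (fun T => BF D X x y T / L T) atTop (𝓝 (∑ i, ∑ j, x i * y j * r i j)) := by
  have h1 : Tendsto (fun T => ∑ i, ∑ j, x i * y j * (ell D X i j T / L T)) atTop (𝓝 (∑ i, ∑ j, x i * y j * r i j)) :=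
    tendsto_finsetSum _ fun i _ => tendsto_finsetSum _ fun j _ => (h.cov i j).const_mul _
  refine h1.congr fun T => ?_
  unfold BF
  rw [Finset.sum_div]
  refine Finset.sum_congr rfl fun i _ => ?_
  rw [Finset.sum_div]
  refine Finset.sum_congr rfl fun j _ => ?_
  ring

lemma BF_ee (x θ : Fin n → ℝ) (T : ℝ) : BF D X x (ee L θ T) T = BF D X x θ T / (2 * Real.sqrt (L T / 2)) := by
  unfold BF ee
  rw [Finset.sum_div]
  refine Finset.sum_congr rfl fun i _ => ?_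
  rw [Finset.sum_div]
  refine Finset.sum_congr rfl fun j _ => ?_
  ring

lemma BF_eee {T : ℝ} (hL : 0 < L T) (θ : Fin n → ℝ) : BF D X (ee L θ T) (ee L θ T) T = BF D X θ θ T / L T / 2 := by
  have hs : Real.sqrt (L T / 2) * Real.sqrt (L T / 2) = L T / 2 := Real.mul_self_sqrt (by linarith)
  have hs0 : 0 < Real.sqrt (L T / 2) := Real.sqrt_pos.mpr (by linarith)
  rw [BF_ee, BF_symm, BF_ee, div_div, div_div]
  congr 1
  linarith

/-- the ratio in the characteristic exponent -/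
def bT (D X : Fin n → ℝ → ℝ) (L : ℝ → ℝ) (b θ : Fin n → ℝ) (T : ℝ) : ℝ := BF D X b (ee L θ T) T / Real.sqrt (BF D X b b T)

/-- the limit of the ratio -/
def bL (r : Fin n → Fin n → ℝ) (b θ : Fin n → ℝ) : ℝ := (∑ i, ∑ j, b i * θ j * r i j) / Real.sqrt (2 * ∑ i, ∑ j, b i * b j * r i j)

lemma bT_lim (h : Pool.Agent.X111.PA.Hyp D X d V L r) (b θ : Fin n → ℝ) (hv : 0 < ∑ i, ∑ j, b i * b j * r i j) :
    Tendsto (bT D X L b θ) atTop (𝓝 (bL r b θ)) := by
  have h1 := BF_lim h b θ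
  have h2 := BF_lim h b b
  have h3 : Tendsto (fun T => (BF D X b θ T / L T) / Real.sqrt (2 * (BF D X b b T / L T))) atTop (𝓝 (bL r b θ)) := by
    unfold bL
    refine h1.div ((Real.continuous_sqrt.tendsto _).comp (h2.const_mul 2)) ?_
    exact (Real.sqrt_pos.mpr (by linarith)).ne'
  refine h3.congr' ?_
  filter_upwards [h2.eventually (lt_mem_nhds hv), h.L_inf.eventually_gt_atTop 0] with T g1 g2
  have hB : 0 < BF D X b b T := by
    rwa [lt_div_iff₀ g2, zero_mul] at g1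
  obtain ⟨v, hvd⟩ : ∃ v : ℝ, v = BF D X b b T / L T := ⟨_, rfl⟩
  have hBv : BF D X b b T = L T * v := by rw [hvd]; field_simp
  unfold bT
  rw [BF_ee, ← hvd, hBv]
  rw [← hvd] at g1
  have e1 : 2 * Real.sqrt (L T / 2) * Real.sqrt (L T * v) = L T * Real.sqrt (2 * v) := by
    have h4 : Real.sqrt (L T / 2) * Real.sqrt (L T * v) = Real.sqrt ((L T / 2) ^ 2 * (2 * v)) := by
      rw [← Real.sqrt_mul (by linarith)]
      congr 1
      ring
    rw [mul_assoc, h4, Real.sqrt_mul (by positivity), Real.sqrt_sq (by linarith)]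
    ring
  rw [div_div, div_div, e1]

/-- the normalisation -/
def aT (D X : Fin n → ℝ → ℝ) (d L : ℝ → ℝ) (b θ : Fin n → ℝ) (T : ℝ) : ℝ :=
  Real.sqrt (BF D X b b T) * (Real.exp (-(BF D X b b T + 2 * BF D X b (ee L θ T) T + BF D X (ee L θ T) (ee L θ T) T)) / (T * kT D X d b T))

/-- the integrand after the change of variables -/
def FT (D X : Fin n → ℝ → ℝ) (d V L : ℝ → ℝ) (b θ : Fin n → ℝ) (φ : ℝ → ℂ) (T u : ℝ) : ℂ :=
  φ (u / Real.sqrt (BF D X b b T)) * (Complex.exp (((-(u ^ 2 / 4) : ℝ) : ℂ) + ((u * bT D X L b θ T : ℝ) : ℂ) * Complex.I) *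
    NM D X d V b (ee L θ T) T (1 + ((u / Real.sqrt (BF D X b b T) : ℝ) : ℂ) / 2 * Complex.I))

lemma chv {b θ : Fin n → ℝ} {T : ℝ} (hV : 0 < V T) (hT : 0 < T) (hB : 0 < BF D X b b T) {φ : ℝ → ℂ} (hφ : Continuous φ) (hc : HasCompactSupport φ) :
    ((aT D X d L b θ T : ℝ) : ℂ) * ∫ t in Gd (d T) (V T) T (WW D X d T), ((Wt D X d b (ee L θ T) T t : ℝ) : ℂ) * Phi φ (Xc D X d b T t) =
      ∫ u : ℝ, FT D X d V L b θ φ T u := by
  rw [Wphi hV hT hφ hc]
  have hs0 : 0 < Real.sqrt (BF D X b b T) := Real.sqrt_pos.mpr hB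
  have hss : Real.sqrt (BF D X b b T) * Real.sqrt (BF D X b b T) = BF D X b b T := Real.mul_self_sqrt hB.le
  have h1 := Measure.integral_comp_div (fun y : ℝ => φ y * (Complex.exp (-(y * (BF D X b b T : ℝ) * Complex.I)) *
    ((T : ℂ) * MC (d T) (V T) T (WW D X d T) b (ee L θ T) (1 + y / 2 * Complex.I)))) (Real.sqrt (BF D X b b T))
  rw [abs_of_pos hs0, Complex.real_smul] at h1
  have hk0 : 0 < kT D X d b T := kS_pos _ _ _ _
  have e1 : ((aT D X d L b θ T : ℝ) : ℂ) = ((Real.exp (-(BF D X b b T + 2 * BF D X b (ee L θ T) T + BF D X (ee L θ T) (ee L θ T) T)) / (T * kT D X d b T) : ℝ) : ℂ) *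
      ((Real.sqrt (BF D X b b T) : ℝ) : ℂ) := by
    unfold aT
    rw [← Complex.ofReal_mul]
    congr 1
    ring
  rw [e1, mul_assoc, ← h1, ← integral_const_mul]
  refine integral_congr_ae (Eventually.of_forall fun u => ?_)
  simp only
  unfold FT NM QQf
  obtain ⟨s, hs⟩ : ∃ s : ℝ, s = Real.sqrt (BF D X b b T) := ⟨_, rfl⟩
  obtain ⟨B, hBd⟩ : ∃ B : ℝ, B = BF D X b b T := ⟨_, rfl⟩
  obtain ⟨q1, hq1⟩ : ∃ q1 : ℝ, q1 = BF D X b (ee L θ T) T := ⟨_, rfl⟩
  obtain ⟨q2, hq2⟩ : ∃ q2 : ℝ, q2 = BF D X (ee L θ T) (ee L θ T) T := ⟨_, rfl⟩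
  obtain ⟨k, hk⟩ : ∃ k : ℝ, k = kT D X d b T := ⟨_, rfl⟩
  have hbT : bT D X L b θ T = q1 / s := by
    unfold bT
    rw [← hq1, ← hs]
  rw [hbT, ← hs, ← hBd, ← hq1, ← hq2, ← hk]
  rw [← hs, ← hBd] at hss
  rw [← hs] at hs0
  rw [← hk] at hk0
  obtain ⟨z, hz⟩ : ∃ z : ℂ, z = 1 + ((u / s : ℝ) : ℂ) / 2 * Complex.I := ⟨_, rfl⟩
  rw [← hz]
  have hT' : (T : ℂ) ≠ 0 := by exact_mod_cast hT.ne'
  have hk' : (k : ℂ) ≠ 0 := by exact_mod_cast hk0.ne'
  have hs' : (s : ℂ) ≠ 0 := by exact_mod_cast hs0.ne'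
  have hBs : (B : ℂ) = (s : ℂ) * (s : ℂ) := by rw [← Complex.ofReal_mul, hss]
  have e2 : ((Real.exp (-(B + 2 * q1 + q2)) / (T * k) : ℝ) : ℂ) = Complex.exp (-((B : ℂ) + 2 * q1 + q2)) / ((T : ℂ) * k) := by
    push_cast
    rfl
  rw [e2]
  have e3 : Complex.exp (-((B : ℂ) + 2 * q1 + q2)) * Complex.exp (-(((u / s : ℝ) : ℂ) * (B : ℂ) * Complex.I)) =
      Complex.exp (((-(u ^ 2 / 4) : ℝ) : ℂ) + ((u * (q1 / s) : ℝ) : ℂ) * Complex.I) * Complex.exp (-(z ^ 2 * (B : ℂ) + 2 * z * (q1 : ℂ) + (q2 : ℂ))) := by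
    rw [← Complex.exp_add, ← Complex.exp_add]
    congr 1
    have hI : (Complex.I) ^ 2 = -1 := Complex.I_sq
    obtain ⟨v, hv⟩ : ∃ v : ℂ, v = ((u / s : ℝ) : ℂ) := ⟨_, rfl⟩
    have hu : (u : ℂ) = v * s := by
      rw [hv]
      push_cast
      field_simp
    have hq : ((u * (q1 / s) : ℝ) : ℂ) = v * q1 := by
      rw [hv]
      push_cast
      ring
    have hu2 : ((-(u ^ 2 / 4) : ℝ) : ℂ) = -((v * s) ^ 2 / 4) := by
      push_cast
      rw [hu]
    rw [hq, hu2, hz, hBs, ← hv]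
    linear_combination (v ^ 2 * (s : ℂ) ^ 2 / 4) * hI
  calc Complex.exp (-((B : ℂ) + 2 * q1 + q2)) / ((T : ℂ) * k) * (φ (u / s) * (Complex.exp (-(((u / s : ℝ) : ℂ) * (B : ℂ) * Complex.I)) *
        ((T : ℂ) * MC (d T) (V T) T (WW D X d T) b (ee L θ T) z))) =
      (Complex.exp (-((B : ℂ) + 2 * q1 + q2)) * Complex.exp (-(((u / s : ℝ) : ℂ) * (B : ℂ) * Complex.I))) *
        (φ (u / s) * (MC (d T) (V T) T (WW D X d T) b (ee L θ T) z / k)) := by field_simp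
    _ = _ := by
      rw [e3]
      ring

end

end Pool.Agent.X111.LB
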