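import Pool.Agent.X111.LB.Cm
import Pool.Agent.X111.LB.Hs

set_option autoImplicit false
set_option linter.unusedSectionVars false

/-! The normalised moments near a real point. -/

namespace Pool.Agent.X111.LB

open Finset MeasureTheory Filter Topology
open Pool.Agent.X111.MS (DG DG_ge JI uu uu_re)
open Pool.Agent.X111.PA (zz zz_meas GS_m2 pd pd_nn pd_meas pd_int WW ell ell_symm log_uu ev_ll1 wv wv_re wv_im uu_norm)

noncomputable section

variable {n : ℕ} {D X : Fin n → ℝ → ℝ} {d V L : ℝ → ℝ} {r : Fin n → Fin n → ℝ}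

/-- the bilinear form -/
def BF (D X : Fin n → ℝ → ℝ) (x y : Fin n → ℝ) (T : ℝ) : ℝ := ∑ i, ∑ j, x i * y j * ell D X i j T

lemma BF_symm (x y : Fin n → ℝ) (T : ℝ) : BF D X x y T = BF D X y x T := by
  unfold BF
  rw [Finset.sum_comm]
  refine Finset.sum_congr rfl fun i _ => Finset.sum_congr rfl fun j _ => ?_
  rw [ell_symm]
  ring

/-- the constant -/
def kT (D X : Fin n → ℝ → ℝ) (d : ℝ → ℝ) (b : Fin n → ℝ) (T : ℝ) : ℝ := kS b (fun j => D j T - d T) (fun j => X j T) (d T)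

/-- the exponent -/
def QQf (D X : Fin n → ℝ → ℝ) (b e : Fin n → ℝ) (T : ℝ) (z : ℂ) : ℂ :=
  z ^ 2 * ((BF D X b b T : ℝ) : ℂ) + 2 * z * ((BF D X b e T : ℝ) : ℂ) + ((BF D X e e T : ℝ) : ℂ)

lemma ql_eq (b e : Fin n → ℝ) (T : ℝ) (z : ℂ) : ql (yl b e z) (fun j => D j T - d T) (fun j => X j T) (d T) = QQf D X b e T z := by
  have h1 : ∀ i j, -Real.log ‖uu (d T) (wv (fun j => D j T - d T) (fun j => X j T) i) (wv (fun j => D j T - d T) (fun j => X j T) j)‖ = ell D X i j T := by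
    intro i j
    have := log_uu (D := D) (X := X) (d := d) i j T
    unfold WW at this
    rw [this, neg_neg]
  unfold ql
  simp only [h1]
  have h2 : QQf D X b e T z = z ^ 2 * ((BF D X b b T : ℝ) : ℂ) + z * ((BF D X b e T : ℝ) : ℂ) + z * ((BF D X e b T : ℝ) : ℂ) + ((BF D X e e T : ℝ) : ℂ) := by
    unfold QQf
    rw [BF_symm e b]
    ring
  rw [h2]
  unfold BF
  push_cast
  simp only [Finset.mul_sum]
  rw [← Finset.sum_add_distrib, ← Finset.sum_add_distrib, ← Finset.sum_add_distrib]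
  refine Finset.sum_congr rfl fun i _ => ?_
  rw [← Finset.sum_add_distrib, ← Finset.sum_add_distrib, ← Finset.sum_add_distrib]
  refine Finset.sum_congr rfl fun j _ => ?_
  unfold yl
  ring

/-- the sizes of the logarithms -/
lemma ell_bd (h : Pool.Agent.X111.PA.Hyp D X d V L r) : ∀ᶠ T : ℝ in atTop, ∀ i j, |ell D X i j T| ≤ 2 * Real.log (Real.log T) := by
  filter_upwards [h.rng 1 1 0 one_pos, h.pos, ev_ll1] with T ⟨g1, g2, g3, g4, g5, g6⟩ hp ⟨hT, hL, hll⟩ i j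
  have h1 := log_uu (D := D) (X := X) (d := d) i j T
  have h2 := uu_norm (a := fun j => D j T - d T) (b := fun j => X j T) (δ := d T) (fun j => by
    obtain ⟨a1, a2, a3⟩ := hp j
    exact ⟨by linarith, by linarith⟩) (fun j => (hp j).2.2) g2 g3 i j
  have h3 : ell D X i j T = -Real.log ‖uu (d T) (WW D X d T i) (WW D X d T j)‖ := by rw [h1, neg_neg]
  have h4 : 2 * d T ≤ ‖uu (d T) (WW D X d T i) (WW D X d T j)‖ := by
    have h5 := Complex.re_le_norm (uu (d T) (WW D X d T i) (WW D X d T j))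
    rw [uu_re] at h5
    have := (g6 i).1
    have := (g6 j).1
    linarith
  have h2' : ‖uu (d T) (WW D X d T i) (WW D X d T j)‖ ≤ 3 := h2.2
  have hu0 : 0 < ‖uu (d T) (WW D X d T i) (WW D X d T j)‖ := by linarith
  have hL0 : 0 < Real.log T := by linarith
  rw [h3, abs_neg, abs_le]
  constructor
  · have h6 : 1 / Real.log T ≤ 2 * d T := by
      rw [div_le_iff₀ hL0] at g1 ⊢
      linarith
    have h7 : Real.log (1 / Real.log T) ≤ Real.log ‖uu (d T) (WW D X d T i) (WW D X d T j)‖ := Real.log_le_log (by positivity) (h6.trans h4)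
    rw [one_div, Real.log_inv] at h7
    linarith
  · have h7 := Real.log_le_log hu0 h2'
    have h8 : Real.log 3 ≤ 2 := by
      have := Real.log_le_sub_one_of_pos (show (0:ℝ) < 3 by norm_num)
      linarith
    linarith

lemma BF_bd {x y : Fin n → ℝ} {T P M : ℝ} (hP : 0 ≤ P) (hM : ∀ i j, |ell D X i j T| ≤ M) (hx : ∀ j, |x j| ≤ P) (hy : ∀ j, |y j| ≤ P) :
    |BF D X x y T| ≤ (n * n) * (P * P * M) := by
  unfold BF
  refine (Finset.abs_sum_le_sum_abs _ _).trans ?_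
  have h6 : ∀ i ∈ (univ : Finset (Fin n)), |∑ j, x i * y j * ell D X i j T| ≤ n * (P * P * M) := by
    intro i _
    refine (Finset.abs_sum_le_sum_abs _ _).trans ?_
    have h7 : ∀ j ∈ (univ : Finset (Fin n)), |x i * y j * ell D X i j T| ≤ P * P * M := by
      intro j _
      rw [abs_mul, abs_mul]
      exact mul_le_mul (mul_le_mul (hx i) (hy j) (abs_nonneg _) hP) (hM i j) (abs_nonneg _) (by positivity)
    refine (Finset.sum_le_sum h7).trans (le_of_eq ?_)
    rw [Finset.sum_const, card_univ, Fintype.card_fin, nsmul_eq_mul]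
  refine (Finset.sum_le_sum h6).trans (le_of_eq ?_)
  rw [Finset.sum_const, card_univ, Fintype.card_fin, nsmul_eq_mul]
  ring

/-- the normalised moment -/
def NM (D X : Fin n → ℝ → ℝ) (d V : ℝ → ℝ) (b e : Fin n → ℝ) (T : ℝ) (z : ℂ) : ℂ :=
  Complex.exp (-QQf D X b e T z) / ((kT D X d b T : ℝ) : ℂ) * MC (d T) (V T) T (WW D X d T) b e z

/-- a bound for the coefficients -/
def Pb (b : Fin n → ℝ) : ℝ := (∑ j, |b j|) + 1

lemma Pb_ge (b : Fin n → ℝ) : 1 ≤ Pb b ∧ ∀ j, |b j| ≤ Pb b := by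
  unfold Pb
  have h0 : 0 ≤ ∑ j, |b j| := Finset.sum_nonneg fun j _ => abs_nonneg _
  refine ⟨by linarith, fun j => ?_⟩
  have := Finset.single_le_sum (f := fun j => |b j|) (fun i _ => abs_nonneg _) (mem_univ j)
  linarith

lemma yl_K {b e : Fin n → ℝ} {z : ℂ} {r0 : ℝ} {K : ℕ} (hr0 : 0 ≤ r0) (hK : (r0 + 1) * Pb b ≤ K) (he : ∀ j, |e j| ≤ 1) (hz : ‖z‖ ≤ r0) (j : Fin n) : ‖yl b e z j‖ ≤ K := by
  obtain ⟨h1, h2⟩ := Pb_ge b
  unfold yl
  refine (norm_add_le _ _).trans ?_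
  rw [norm_mul, Complex.norm_real, Complex.norm_real, Real.norm_eq_abs, Real.norm_eq_abs]
  have h3 : ‖z‖ * |b j| ≤ r0 * Pb b := mul_le_mul hz (h2 j) (abs_nonneg _) hr0
  linarith [he j]

/-- the error -/
theorem nm_err (h : Pool.Agent.X111.PA.Hyp D X d V L r) (b : Fin n → ℝ) {r0 : ℝ} (hr0 : 0 ≤ r0) {ε : ℝ} (hε : 0 < ε) : ∀ᶠ T : ℝ in atTop,
    ∀ e : Fin n → ℝ, (∀ j, |e j| ≤ 1) → ∀ z : ℂ, ‖z‖ ≤ r0 →
    ‖NM D X d V b e T z - HS (yl b e z) (fun j => D j T - d T) (fun j => X j T) (d T) / ((kT D X d b T : ℝ) : ℂ)‖ ≤ ε := by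
  obtain ⟨K, hK⟩ : ∃ K : ℕ, (r0 + 1) * Pb b ≤ K := exists_nat_ge _
  obtain ⟨hP1, hP2⟩ := Pb_ge b
  have hPK : Pb b ≤ K := le_trans (le_mul_of_one_le_left (by linarith) (by linarith)) hK
  have hnK : 0 < n * K := by
    have h1 : (0:ℝ) < K := by linarith
    have h2 : 0 < K := by exact_mod_cast h1
    exact Nat.mul_pos h.n_pos h2
  obtain ⟨M0, hM0⟩ : ∃ M0 : ℝ, M0 = (r0 + 1) ^ 2 * ((n * n) * (Pb b * Pb b * 2)) := ⟨_, rfl⟩
  have hM00 : 0 ≤ M0 := by rw [hM0]; positivity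
  obtain ⟨c, hc, H⟩ := cmom n b r0 hr0
  obtain ⟨A, C, T0, hC, H2⟩ := H (M0 + 1) (by linarith)
  obtain ⟨C2, hC2, H3⟩ := kS_bd (m := n) hnK
  filter_upwards [h.rng c C A hc, h.pos, ell_bd h, ev_ll1, eventually_ge_atTop T0, Real.tendsto_log_atTop.eventually_ge_atTop (Real.exp C2 / ε)] with
    T ⟨g1, g2, g3, g4, g5, g6⟩ hp hell ⟨hT, hL, hll⟩ hT0 hLε e he z hz
  obtain ⟨k1, k2, k3, k4⟩ := H2 T hT0 (d T) g1 g3
  have k5 := k4 (V T) g4 g5 (WW D X d T) e g6 he z hz
  have hL0 : 0 < Real.log T := by linarith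
  have ha : ∀ j, 0 ≤ D j T - d T ∧ D j T - d T ≤ 1 / 16 := fun j => by
    obtain ⟨a1, a2, a3⟩ := hp j
    exact ⟨by linarith, by linarith⟩
  have hDC : DC (yl b e z) (WW D X d T) (d T) = HS (yl b e z) (fun j => D j T - d T) (fun j => X j T) (d T) * Complex.exp (QQf D X b e T z) := by
    have h1 := HS_eq (y := yl b e z) (a := fun j => D j T - d T) (b := fun j => X j T) (δ := d T) hnK (yl_K hr0 hK he hz) (fun j => (ha j).1) g2
    rw [ql_eq] at h1
    exact h1
  have hk0 := kS_pos b (fun j => D j T - d T) (fun j => X j T) (d T)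
  have hk1 := (H3 b (fun j => D j T - d T) (fun j => X j T) (d T) (fun j => (hP2 j).trans hPK) ha (fun j => (hp j).2.2) g2 g3).1
  have hkT : kT D X d b T = kS b (fun j => D j T - d T) (fun j => X j T) (d T) := rfl
  rw [← hkT] at hk0 hk1
  have e1 : NM D X d V b e T z - HS (yl b e z) (fun j => D j T - d T) (fun j => X j T) (d T) / ((kT D X d b T : ℝ) : ℂ) =
      Complex.exp (-QQf D X b e T z) / ((kT D X d b T : ℝ) : ℂ) * (MC (d T) (V T) T (WW D X d T) b e z - DC (yl b e z) (WW D X d T) (d T)) := by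
    rw [hDC, mul_sub]
    unfold NM
    congr 1
    have e2 : Complex.exp (-QQf D X b e T z) * Complex.exp (QQf D X b e T z) = 1 := by
      rw [← Complex.exp_add, neg_add_cancel, Complex.exp_zero]
    calc HS (yl b e z) (fun j => D j T - d T) (fun j => X j T) (d T) / ((kT D X d b T : ℝ) : ℂ) =
        (Complex.exp (-QQf D X b e T z) * Complex.exp (QQf D X b e T z)) * (HS (yl b e z) (fun j => D j T - d T) (fun j => X j T) (d T) / ((kT D X d b T : ℝ) : ℂ)) := by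
          rw [e2, one_mul]
      _ = _ := by ring
  rw [e1, norm_mul, norm_div, Complex.norm_real, Real.norm_of_nonneg hk0.le]
  have hQ : ‖QQf D X b e T z‖ ≤ M0 * Real.log (Real.log T) := by
    have b1 := BF_bd (x := b) (y := b) (D := D) (X := X) (P := Pb b) (by linarith) hell hP2 hP2
    have b2 := BF_bd (x := b) (y := e) (D := D) (X := X) (P := Pb b) (by linarith) hell hP2 (fun j => (he j).trans hP1)
    have b3 := BF_bd (x := e) (y := e) (D := D) (X := X) (P := Pb b) (by linarith) hell (fun j => (he j).trans hP1) (fun j => (he j).trans hP1)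
    obtain ⟨R, hR⟩ : ∃ R : ℝ, R = (n * n : ℝ) * (Pb b * Pb b * (2 * Real.log (Real.log T))) := ⟨_, rfl⟩
    rw [← hR] at b1 b2 b3
    have hR0 : 0 ≤ R := by rw [hR]; positivity
    have hz2 : ‖z‖ ^ 2 ≤ r0 ^ 2 := pow_le_pow_left₀ (norm_nonneg _) hz 2
    unfold QQf
    refine (norm_add_le _ _).trans ?_
    have t1 := norm_add_le (z ^ 2 * ((BF D X b b T : ℝ) : ℂ)) (2 * z * ((BF D X b e T : ℝ) : ℂ))
    rw [norm_mul, norm_mul, norm_mul, norm_pow, Complex.norm_real, Complex.norm_real, Real.norm_eq_abs, Real.norm_eq_abs] at t1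
    have h22 : ‖(2:ℂ)‖ = 2 := by simp
    rw [h22] at t1
    rw [Complex.norm_real, Real.norm_eq_abs]
    have t2 : ‖z‖ ^ 2 * |BF D X b b T| ≤ r0 ^ 2 * R := mul_le_mul hz2 b1 (abs_nonneg _) (by positivity)
    have t3 : 2 * ‖z‖ * |BF D X b e T| ≤ 2 * r0 * R := mul_le_mul (by linarith) b2 (abs_nonneg _) (by linarith)
    have t4 : M0 * Real.log (Real.log T) = (r0 + 1) ^ 2 * R := by
      rw [hM0, hR]
      ring
    rw [t4]
    nlinarith
  have hexp : ‖Complex.exp (-QQf D X b e T z)‖ ≤ Real.log T ^ M0 := by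
    rw [Complex.norm_exp, Real.rpow_def_of_pos hL0]
    refine Real.exp_le_exp.mpr ?_
    have := Complex.re_le_norm (-QQf D X b e T z)
    rw [norm_neg] at this
    linarith
  have hinv : 1 / kT D X d b T ≤ Real.exp C2 := by
    rw [div_le_iff₀ hk0]
    calc (1:ℝ) = Real.exp C2 * Real.exp (-C2) := by rw [← Real.exp_add, add_neg_cancel, Real.exp_zero]
      _ ≤ _ := mul_le_mul_of_nonneg_left hk1 (Real.exp_pos _).le
  calc ‖Complex.exp (-QQf D X b e T z)‖ / kT D X d b T * ‖MC (d T) (V T) T (WW D X d T) b e z - DC (yl b e z) (WW D X d T) (d T)‖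
      = ‖Complex.exp (-QQf D X b e T z)‖ * (1 / kT D X d b T) * ‖MC (d T) (V T) T (WW D X d T) b e z - DC (yl b e z) (WW D X d T) (d T)‖ := by ring
    _ ≤ Real.log T ^ M0 * Real.exp C2 * Real.log T ^ (-(M0 + 1)) := by
        refine mul_le_mul (mul_le_mul hexp hinv (by positivity) (by positivity)) k5 (norm_nonneg _) (by positivity)
    _ = Real.exp C2 * (Real.log T)⁻¹ := by
        have : Real.log T ^ M0 * Real.log T ^ (-(M0 + 1)) = (Real.log T)⁻¹ := by
          rw [← Real.rpow_add hL0, ← Real.rpow_neg_one]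
          congr 1
          ring
        rw [← this]
        ring
    _ ≤ ε := by
        rw [div_le_iff₀ hε] at hLε
        rw [← div_eq_mul_inv, div_le_iff₀ hL0]
        linarith

/-- boundedness -/
theorem nm_bdd (h : Pool.Agent.X111.PA.Hyp D X d V L r) (b : Fin n → ℝ) {r0 : ℝ} (hr0 : 0 ≤ r0) : ∃ C : ℝ, 0 < C ∧ ∀ᶠ T : ℝ in atTop,
    ∀ e : Fin n → ℝ, (∀ j, |e j| ≤ 1) → ∀ z : ℂ, ‖z‖ ≤ r0 → ‖NM D X d V b e T z‖ ≤ C := by
  obtain ⟨K, hK⟩ : ∃ K : ℕ, (r0 + 1) * Pb b ≤ K := exists_nat_ge _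
  obtain ⟨hP1, hP2⟩ := Pb_ge b
  have hPK : Pb b ≤ K := le_trans (le_mul_of_one_le_left (by linarith) (by linarith)) hK
  have hnK : 0 < n * K := by
    have h1 : (0:ℝ) < K := by linarith
    have h2 : 0 < K := by exact_mod_cast h1
    exact Nat.mul_pos h.n_pos h2
  obtain ⟨C1, hC1, H1⟩ := HS_bdd (m := n) hnK
  obtain ⟨C2, hC2, H3⟩ := kS_bd (m := n) hnK
  refine ⟨1 + C1 * Real.exp C2, by positivity, ?_⟩
  filter_upwards [nm_err h b hr0 one_pos, h.pos, h.rng 1 1 0 one_pos] with T hT hp ⟨g1, g2, g3, g4, g5, g6⟩ e he z hz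
  have ha : ∀ j, 0 ≤ D j T - d T ∧ D j T - d T ≤ 1 / 16 := fun j => by
    obtain ⟨a1, a2, a3⟩ := hp j
    exact ⟨by linarith, by linarith⟩
  have k1 := hT e he z hz
  have k2 := H1 (yl b e z) (fun j => D j T - d T) (fun j => X j T) (d T) (yl_K hr0 hK he hz) ha (fun j => (hp j).2.2) g2 g3
  have hk0 := kS_pos b (fun j => D j T - d T) (fun j => X j T) (d T)
  have hk1 := (H3 b (fun j => D j T - d T) (fun j => X j T) (d T) (fun j => (hP2 j).trans hPK) ha (fun j => (hp j).2.2) g2 g3).1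
  have hkT : kT D X d b T = kS b (fun j => D j T - d T) (fun j => X j T) (d T) := rfl
  rw [← hkT] at hk0 hk1
  have k3 : ‖HS (yl b e z) (fun j => D j T - d T) (fun j => X j T) (d T) / ((kT D X d b T : ℝ) : ℂ)‖ ≤ C1 * Real.exp C2 := by
    rw [norm_div, Complex.norm_real, Real.norm_of_nonneg hk0.le, div_le_iff₀ hk0]
    calc _ ≤ C1 := k2
      _ = C1 * (Real.exp C2 * Real.exp (-C2)) := by rw [← Real.exp_add, add_neg_cancel, Real.exp_zero, mul_one]
      _ ≤ C1 * (Real.exp C2 * kT D X d b T) := by gcongr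
      _ = _ := by ring
  have k4 := norm_sub_norm_le (NM D X d V b e T z) (HS (yl b e z) (fun j => D j T - d T) (fun j => X j T) (d T) / ((kT D X d b T : ℝ) : ℂ))
  linarith

/-- the limit -/
theorem nm_lim (h : Pool.Agent.X111.PA.Hyp D X d V L r) (b : Fin n → ℝ) {ε : ℝ} (hε : 0 < ε) : ∃ η : ℝ, 0 < η ∧ ∀ᶠ T : ℝ in atTop,
    ∀ e : Fin n → ℝ, (∀ j, |e j| < η) → ∀ z : ℂ, ‖z - 1‖ < η → ‖NM D X d V b e T z - 1‖ < ε := by
  obtain ⟨K, hK⟩ : ∃ K : ℕ, ((2:ℝ) + 1) * Pb b ≤ K := exists_nat_ge _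
  obtain ⟨hP1, hP2⟩ := Pb_ge b
  have hPK : Pb b ≤ K := le_trans (le_mul_of_one_le_left (by linarith) (by linarith)) hK
  have hnK : 0 < n * K := by
    have h1 : (0:ℝ) < K := by linarith
    have h2 : 0 < K := by exact_mod_cast h1
    exact Nat.mul_pos h.n_pos h2
  obtain ⟨C2, hC2, H3⟩ := kS_bd (m := n) hnK
  obtain ⟨η1, hη1, H1⟩ := HS_unif (m := n) hnK (show 0 < ε / 2 * Real.exp (-C2) by positivity)
  refine ⟨min 1 (η1 / (2 * Pb b)), lt_min one_pos (by positivity), ?_⟩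
  filter_upwards [nm_err h b (show (0:ℝ) ≤ 2 by norm_num) (half_pos hε), h.pos, h.rng 1 1 0 one_pos] with T hT hp ⟨g1, g2, g3, g4, g5, g6⟩ e he z hz
  have ha : ∀ j, 0 ≤ D j T - d T ∧ D j T - d T ≤ 1 / 16 := fun j => by
    obtain ⟨a1, a2, a3⟩ := hp j
    exact ⟨by linarith, by linarith⟩
  have he1 : ∀ j, |e j| ≤ 1 := fun j => ((he j).trans_le (min_le_left _ _)).le
  have hz2 : ‖z‖ ≤ 2 := by
    have h1 := norm_sub_norm_le z 1
    rw [norm_one] at h1
    have h2 := hz.trans_le (min_le_left _ _)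
    linarith
  have k1 := hT e he1 z hz2
  have hbK : ∀ j, ‖(fun j => (b j : ℂ)) j‖ ≤ K := fun j => by
    simp only [Complex.norm_real, Real.norm_eq_abs]
    exact (hP2 j).trans hPK
  have hyy : ∀ j, ‖yl b e z j - (fun j => (b j : ℂ)) j‖ < η1 := by
    intro j
    have e1 : yl b e z j - (fun j => (b j : ℂ)) j = (z - 1) * (b j : ℂ) + (e j : ℂ) := by
      unfold yl
      ring
    rw [e1]
    refine (norm_add_le _ _).trans_lt ?_
    rw [norm_mul, Complex.norm_real, Complex.norm_real, Real.norm_eq_abs, Real.norm_eq_abs]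
    have h1 := hz.trans_le (min_le_right _ _)
    have h2 := (he j).trans_le (min_le_right _ _)
    rw [lt_div_iff₀ (by positivity)] at h1 h2
    have h3 : ‖z - 1‖ * |b j| ≤ ‖z - 1‖ * Pb b := mul_le_mul_of_nonneg_left (hP2 j) (norm_nonneg _)
    have h4 : |e j| ≤ |e j| * Pb b := le_mul_of_one_le_right (abs_nonneg _) hP1
    linarith
  have k2 := H1 (yl b e z) (fun j => (b j : ℂ)) (fun j => D j T - d T) (fun j => X j T) (d T) (yl_K (by norm_num) hK he1 hz2) hbK hyy ha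
    (fun j => (hp j).2.2) g2 g3
  rw [HS_real hnK (fun j => (hP2 j).trans hPK) (fun j => (ha j).1) g2] at k2
  have hk0 := kS_pos b (fun j => D j T - d T) (fun j => X j T) (d T)
  have hk1 := (H3 b (fun j => D j T - d T) (fun j => X j T) (d T) (fun j => (hP2 j).trans hPK) ha (fun j => (hp j).2.2) g2 g3).1
  have hkT : kT D X d b T = kS b (fun j => D j T - d T) (fun j => X j T) (d T) := rfl
  rw [← hkT] at hk0 hk1 k2
  have hk0' : ((kT D X d b T : ℝ) : ℂ) ≠ 0 := by exact_mod_cast hk0.ne'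
  have k3 : ‖HS (yl b e z) (fun j => D j T - d T) (fun j => X j T) (d T) / ((kT D X d b T : ℝ) : ℂ) - 1‖ < ε / 2 := by
    have e2 : HS (yl b e z) (fun j => D j T - d T) (fun j => X j T) (d T) / ((kT D X d b T : ℝ) : ℂ) - 1 =
        (HS (yl b e z) (fun j => D j T - d T) (fun j => X j T) (d T) - ((kT D X d b T : ℝ) : ℂ)) / ((kT D X d b T : ℝ) : ℂ) := by
      field_simp
    rw [e2, norm_div, Complex.norm_real, Real.norm_of_nonneg hk0.le, div_lt_iff₀ hk0]
    refine k2.trans_le ?_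
    exact mul_le_mul_of_nonneg_left hk1 (by positivity)
  have e3 : NM D X d V b e T z - 1 = (NM D X d V b e T z - HS (yl b e z) (fun j => D j T - d T) (fun j => X j T) (d T) / ((kT D X d b T : ℝ) : ℂ)) +
      (HS (yl b e z) (fun j => D j T - d T) (fun j => X j T) (d T) / ((kT D X d b T : ℝ) : ℂ) - 1) := by ring
  rw [e3]
  refine (norm_add_le _ _).trans_lt ?_
  linarith

end

end Pool.Agent.X111.LB
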