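import Pool.Agent.X111.LB.Dc2

set_option autoImplicit false
set_option linter.unusedSectionVars false

/-! The regular part is uniformly continuous and bounded. -/

namespace Pool.Agent.X111.LB

open Finset MeasureTheory Filter Topology
open Pool.Agent.H306R2 (lc dv dA lc_nonneg lc_sq_le lc_summable C0 C0_summable C0_nonneg dv_nonneg dv_one dv_prime_pow lc_one dA_mult dA_apply inv_prime
  primes_summable dv_sq_le dvJ_summable dv_mono)
open Pool.Agent.X110.LT (dvC lcC dvC_ofReal dvC_norm_le dvC_mul dvC_prime_pow lcC_one dvC_diff lcC_cont)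
open Pool.Agent.X111.MS (fT DG DG_ge uu uu_re pw_summable)
open Pool.Agent.X111.PA (SS RR RR_cont QQ QQ_comp QQ_mem DG_R sumP wv wv_re wv_im PS)

noncomputable section

/-- the parameters -/
abbrev PC (m : ℕ) : Type := (Fin m → ℂ) × (Fin m → ℝ) × (Fin m → ℝ) × ℝ

/-- the compact set of parameters -/
def QC (m K : ℕ) : Set (PC m) := (Set.univ.pi fun _ => Metric.closedBall (0:ℂ) K) ×ˢ
  ((Set.Icc (fun _ => (0:ℝ)) (fun _ => (1:ℝ))) ×ˢ ((Set.Icc (fun _ => (-1:ℝ)) (fun _ => (1:ℝ))) ×ˢ (Set.Icc (0:ℝ) 1)))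

lemma QC_comp (m K : ℕ) : IsCompact (QC m K) :=
  (isCompact_univ_pi fun _ => isCompact_closedBall _ _).prod (isCompact_Icc.prod (isCompact_Icc.prod isCompact_Icc))

lemma QC_mem {m K : ℕ} {z : PC m} (hz : z ∈ QC m K) : (∀ j, ‖z.1 j‖ ≤ K) ∧ (∀ j, 0 ≤ (wv z.2.1 z.2.2.1 j).re) ∧ 0 ≤ z.2.2.2 := by
  obtain ⟨h1, h2, h3, h4⟩ := hz
  refine ⟨fun j => ?_, fun j => ?_, h4.1⟩
  · have := h1 j (Set.mem_univ j)
    rwa [Metric.mem_closedBall, dist_zero_right] at this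
  · rw [wv_re]
    exact h2.1 j

lemma QC_intro {m K : ℕ} {y : Fin m → ℂ} {a b : Fin m → ℝ} {δ : ℝ} (hy : ∀ j, ‖y j‖ ≤ K) (ha : ∀ j, 0 ≤ a j ∧ a j ≤ 1) (hb : ∀ j, |b j| ≤ 1)
    (hδ : 0 ≤ δ) (hδ1 : δ ≤ 1) : ((y, a, b, δ) : PC m) ∈ QC m K := by
  refine ⟨fun j _ => ?_, ⟨fun j => (ha j).1, fun j => (ha j).2⟩, ⟨fun j => (abs_le.mp (hb j)).1, fun j => (abs_le.mp (hb j)).2⟩, hδ, hδ1⟩
  rw [Metric.mem_closedBall, dist_zero_right]
  exact hy j

lemma tcC {m : ℕ} {W : PC m → Fin m → ℂ} (hW : ∀ j, Continuous fun z => W z j) (j : Fin m) (n : ℕ) : Continuous fun z : PC m => tc (z.1 j) (W z j) n := by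
  rcases Nat.eq_zero_or_pos n with h | h
  · subst h
    simp only [ArithmeticFunction.map_zero]
    exact continuous_const
  · simp only [tc_apply]
    have hn : (n : ℂ) ≠ 0 := by exact_mod_cast h.ne'
    have h1 : Continuous fun z : PC m => dvC (z.1 j) n := (dvC_diff n).continuous.comp (by fun_prop)
    refine h1.mul ?_
    refine Continuous.const_cpow ?_ (Or.inl hn)
    exact (hW j).neg

lemma prC {m : ℕ} {W : PC m → Fin m → ℂ} (hW : ∀ j, Continuous fun z => W z j) (s : Finset (Fin m)) :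
    ∀ n : ℕ, Continuous fun z : PC m => (∏ j ∈ s, tc (z.1 j) (W z j)) n := by
  classical
  induction s using Finset.induction_on with
  | empty =>
    intro n
    simp only [prod_empty]
    exact continuous_const
  | insert a s ha ih =>
    intro n
    simp only [prod_insert ha, ArithmeticFunction.mul_apply]
    refine continuous_finsetSum _ fun x _ => ?_
    exact (tcC hW a x.1).mul (ih x.2)

lemma gT_cont {m : ℕ} {n : ℕ} (hn : 0 < n) : Continuous fun z : PC m => gT z.1 (wv z.2.1 z.2.2.1) z.2.2.2 n := by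
  have hw : ∀ j, Continuous fun z : PC m => wv z.2.1 z.2.2.1 j := by
    intro j
    unfold wv
    fun_prop
  have hw2 : ∀ j, Continuous fun z : PC m => cw (wv z.2.1 z.2.2.1) j := by
    intro j
    unfold cw
    exact Complex.continuous_conj.comp (hw j)
  unfold gT TC
  have h2 : Continuous fun z : PC m => (n : ℝ) ^ (-1 - 2 * z.2.2.2) := by
    refine Continuous.rpow continuous_const (by fun_prop) fun z => Or.inl ?_
    exact_mod_cast hn.ne'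
  exact ((prC hw univ n).mul (prC hw2 univ n)).mul (Complex.continuous_ofReal.comp h2)

lemma Eg_cont {m K : ℕ} (hK : 0 < m * K) (p : Nat.Primes) : ContinuousOn (fun z : PC m => Eg z.1 (wv z.2.1 z.2.2.1) z.2.2.2 p) (QC m K) := by
  unfold Eg
  have hp' := inv_prime p.2
  have hK' : (0:ℝ) < ((m * K : ℕ) : ℝ) := by exact_mod_cast hK
  refine continuousOn_tsum (u := fun e => lc (((m * K : ℕ) : ℝ) ^ 2) e * (1 / ((p : ℕ) : ℝ)) ^ e) (fun e => ?_)
    (lc_summable (by positivity) hp'.1 (by linarith [hp'.2])) fun e z hz => ?_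
  · exact (gT_cont (pow_pos p.2.pos e)).continuousOn
  · obtain ⟨h1, h2, h3⟩ := QC_mem hz
    exact gT_pp h1 h2 h3 p.2 e

lemma Ex_cont {m K : ℕ} (hK : 0 < m * K) (p : Nat.Primes) : ContinuousOn (fun z : PC m => Ex z.1 (wv z.2.1 z.2.2.1) z.2.2.2 p) (QC m K) := by
  unfold Ex
  exact (Eg_cont hK p).mul (Complex.continuous_exp.comp (gT_cont p.2.pos).neg).continuousOn

lemma RC_cont {m K : ℕ} (hK : 0 < m * K) : ContinuousOn (fun z : PC m => RC z.1 (wv z.2.1 z.2.2.1) z.2.2.2) (QC m K) := by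
  intro z₀ hz₀
  have h := tendsto_tprod_one_add_of_dominated_convergence (𝓕 := 𝓝[QC m K] z₀)
    (f := fun (z : PC m) (p : Nat.Primes) => Ex z.1 (wv z.2.1 z.2.2.1) z.2.2.2 p - 1)
    (g := fun p : Nat.Primes => Ex z₀.1 (wv z₀.2.1 z₀.2.2.1) z₀.2.2.2 p - 1)
    (bound := fun p : Nat.Primes => cE m K * (1 / ((p:ℕ):ℝ)) ^ 2)
    (primes_summable.mul_left _) (fun p => ((Ex_cont hK p) z₀ hz₀).sub_const 1) ?_
  · simp only [add_sub_cancel] at h
    exact h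
  · filter_upwards [self_mem_nhdsWithin] with z hz p
    obtain ⟨h1, h2, h3⟩ := QC_mem hz
    exact Ex_bd hK h1 h2 h3 p

/-- boundedness -/
theorem RC_bdd {m K : ℕ} (hK : 0 < m * K) : ∃ C : ℝ, 0 < C ∧ ∀ (y : Fin m → ℂ) (a b : Fin m → ℝ) (δ : ℝ),
    (∀ j, ‖y j‖ ≤ K) → (∀ j, 0 ≤ a j ∧ a j ≤ 1) → (∀ j, |b j| ≤ 1) → 0 ≤ δ → δ ≤ 1 → ‖RC y (wv a b) δ‖ ≤ C := by
  obtain ⟨C, hC⟩ := (QC_comp m K).exists_bound_of_continuousOn (RC_cont hK)
  refine ⟨|C| + 1, by positivity, fun y a b δ hy ha hb hδ hδ1 => ?_⟩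
  exact (hC _ (QC_intro hy ha hb hδ hδ1)).trans ((le_abs_self C).trans (by linarith))

/-- uniform continuity in the exponents -/
theorem RC_unif {m K : ℕ} (hK : 0 < m * K) {ε : ℝ} (hε : 0 < ε) : ∃ η : ℝ, 0 < η ∧ ∀ (y y' : Fin m → ℂ) (a b : Fin m → ℝ) (δ : ℝ),
    (∀ j, ‖y j‖ ≤ K) → (∀ j, ‖y' j‖ ≤ K) → (∀ j, ‖y j - y' j‖ < η) → (∀ j, 0 ≤ a j ∧ a j ≤ 1) → (∀ j, |b j| ≤ 1) → 0 ≤ δ → δ ≤ 1 →
    ‖RC y (wv a b) δ - RC y' (wv a b) δ‖ < ε := by
  have h1 := (QC_comp m K).uniformContinuousOn_of_continuous (RC_cont hK)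
  rw [Metric.uniformContinuousOn_iff] at h1
  obtain ⟨η, hη, h2⟩ := h1 ε hε
  refine ⟨η, hη, fun y y' a b δ hy hy' hyy ha hb hδ hδ1 => ?_⟩
  have h3 := h2 (y, a, b, δ) (QC_intro hy ha hb hδ hδ1) (y', a, b, δ) (QC_intro hy' ha hb hδ hδ1) (by
    rw [Prod.dist_eq, dist_self, max_lt_iff]
    refine ⟨?_, hη⟩
    rw [dist_pi_lt_iff hη]
    exact fun j => by rw [dist_eq_norm]; exact hyy j)
  rwa [dist_eq_norm] at h3

/-- real exponents -/
theorem RC_real {m K : ℕ} (hK : 0 < m * K) {y : Fin m → ℝ} {w : Fin m → ℂ} {δ : ℝ} (hy : ∀ j, |y j| ≤ K) (hw : ∀ j, 0 ≤ (w j).re)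
    (hδ : 0 < δ) : RC (fun j => (y j : ℂ)) w δ = ((Real.exp (RR y w δ) : ℝ) : ℂ) := by
  have hy' : ∀ j, ‖(fun j => (y j : ℂ)) j‖ ≤ K := fun j => by
    simp only [Complex.norm_real, Real.norm_eq_abs]
    exact hy j
  have h1 := DC_eq hK hy' hw hδ
  rw [DC_real] at h1
  have h2 := DG_R hK hy hw hδ
  rw [sumP hw hδ] at h2
  have h3 : DG y w δ = Real.exp (RR y w δ) * Real.exp (∑ i, ∑ j, y i * y j * SS (uu δ (w i) (w j))) := by
    rw [← Real.exp_add, ← h2, Real.exp_log (by linarith [DG_ge hy hw hδ])]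
  have h4 : ∑ i, ∑ j, (fun j => (y j : ℂ)) i * (fun j => (y j : ℂ)) j * ((SS (uu δ (w i) (w j)) : ℝ) : ℂ) =
      ((∑ i, ∑ j, y i * y j * SS (uu δ (w i) (w j)) : ℝ) : ℂ) := by
    push_cast
    rfl
  rw [h3, h4, ← Complex.ofReal_exp] at h1
  push_cast at h1 ⊢
  exact (mul_right_cancel₀ (Complex.exp_ne_zero _) h1).symm

/-- boundedness of the logarithm -/
theorem RR_bdd {m K : ℕ} (hK : 0 < m * K) : ∃ C : ℝ, 0 < C ∧ ∀ (y a b : Fin m → ℝ) (δ : ℝ),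
    (∀ j, |y j| ≤ K) → (∀ j, 0 ≤ a j ∧ a j ≤ 1) → (∀ j, |b j| ≤ 1) → 0 ≤ δ → δ ≤ 1 → |RR y (wv a b) δ| ≤ C := by
  obtain ⟨C, hC⟩ := (QQ_comp m K).exists_bound_of_continuousOn (RR_cont hK)
  refine ⟨|C| + 1, by positivity, fun y a b δ hy ha hb hδ hδ1 => ?_⟩
  have h1 : ((y, a, b, δ) : PS m) ∈ QQ m K := ⟨⟨fun j => (abs_le.mp (hy j)).1, fun j => (ha j).1, fun j => (abs_le.mp (hb j)).1, hδ⟩,
      ⟨fun j => (abs_le.mp (hy j)).2, fun j => (ha j).2, fun j => (abs_le.mp (hb j)).2, hδ1⟩⟩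
  exact (hC _ h1).trans ((le_abs_self C).trans (by linarith))

end

end Pool.Agent.X111.LB
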